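import Mathlib

set_option autoImplicit false

/-! # Quadratic character sums modulo `p` -/

namespace Run7.h53.QR

open Finset Polynomial

variable {p : ℕ} [hp : Fact p.Prime]

theorem sum_pow (i : ℕ) (hi : i < 2 * (p - 1)) :
    ∑ x : ZMod p, x ^ i = if i = p - 1 then -1 else 0 := by
  have hp1 : 1 ≤ p - 1 := by
    have := hp.out.two_le
    omega
  rcases lt_or_ge i (p - 1) with h | h
  · rw [if_neg (by omega)]
    have := FiniteField.sum_pow_lt_card_sub_one (K := ZMod p) i (by rwa [ZMod.card])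
    exact this
  · obtain ⟨k, rfl⟩ := Nat.exists_eq_add_of_le h
    rcases Nat.eq_zero_or_pos k with hk | hk
    · subst hk
      rw [if_pos (by omega), add_zero]
      have h1 : ∀ x : ZMod p, x ^ (p - 1) = 1 - if x = 0 then 1 else 0 := by
        intro x
        split_ifs with hx
        · rw [hx, zero_pow (by omega)]; ring
        · rw [ZMod.pow_card_sub_one_eq_one hx]; ring
      rw [Finset.sum_congr rfl fun x _ => h1 x, Finset.sum_sub_distrib, Finset.sum_ite_eq',
        if_pos (Finset.mem_univ _), Finset.sum_const, Finset.card_univ, ZMod.card]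
      simp
    · rw [if_neg (by omega)]
      have h1 : ∀ x : ZMod p, x ^ (p - 1 + k) = x ^ k := by
        intro x
        have h2 : p - 1 + k = p + (k - 1) := by omega
        rw [h2, pow_add, ZMod.pow_card, ← pow_succ']
        congr 1
        omega
      rw [Finset.sum_congr rfl fun x _ => h1 x]
      exact FiniteField.sum_pow_lt_card_sub_one (K := ZMod p) k (by rw [ZMod.card]; omega)

/-- sum of the values of a polynomial of small degree over the prime field -/
theorem sum_eval (P : (ZMod p)[X]) (hP : P.natDegree < 2 * (p - 1)) :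
    ∑ x : ZMod p, P.eval x = - P.coeff (p - 1) := by
  have h1 : ∀ x : ZMod p, P.eval x = ∑ i ∈ Finset.range (2 * (p - 1)), P.coeff i * x ^ i :=
    fun x => Polynomial.eval_eq_sum_range' hP x
  rw [Finset.sum_congr rfl fun x _ => h1 x, Finset.sum_comm]
  have h2 : ∀ i ∈ Finset.range (2 * (p - 1)), ∑ x : ZMod p, P.coeff i * x ^ i =
      if i = p - 1 then - P.coeff (p - 1) else 0 := by
    intro i hi
    rw [← Finset.mul_sum, sum_pow i (Finset.mem_range.1 hi)]
    split_ifs with h
    · rw [h]; ring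
    · ring
  rw [Finset.sum_congr rfl h2, Finset.sum_ite_eq', if_pos]
  rw [Finset.mem_range]
  have := hp.out.two_le
  omega

/-- binomial coefficients `C (p - 1 - b, a)` modulo `p` -/
theorem choose_neg (a b : ℕ) (h : a + b < p) :
    (((p - 1 - b).choose a : ℕ) : ZMod p) = (-1) ^ a * (((a + b).choose a : ℕ) : ZMod p) := by
  induction a with
  | zero => simp
  | succ a ih =>
    have h1 := ih (by omega)
    have ha : ((a + 1 : ℕ) : ZMod p) ≠ 0 := by
      rw [Ne, ZMod.natCast_eq_zero_iff]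
      exact Nat.not_dvd_of_pos_of_lt (by omega) (by omega)
    have h2 : (p - 1 - b).choose (a + 1) * (a + 1) = (p - 1 - b).choose a * (p - 1 - b - a) :=
      Nat.choose_succ_right_eq _ _
    have h3 : (a + b + 1) * (a + b).choose a = (a + b + 1).choose (a + 1) * (a + 1) :=
      Nat.add_one_mul_choose_eq _ _
    have h4 : ((p - 1 - b - a : ℕ) : ZMod p) = -((a + b + 1 : ℕ) : ZMod p) := by
      rw [eq_neg_iff_add_eq_zero, ← Nat.cast_add]
      have : p - 1 - b - a + (a + b + 1) = p := by omega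
      rw [this, ZMod.natCast_self]
    have h5 := congrArg (Nat.cast : ℕ → ZMod p) h2
    have h6 := congrArg (Nat.cast : ℕ → ZMod p) h3
    rw [Nat.cast_mul, Nat.cast_mul, h4, h1] at h5
    rw [Nat.cast_mul, Nat.cast_mul] at h6
    refine mul_right_cancel₀ ha ?_
    have e1 : a + 1 + b = a + b + 1 := by omega
    rw [e1, h5, pow_succ]
    linear_combination (-1) ^ a * (-1 : ZMod p) * h6

/-- the quadratic character with values in `ℤ` -/
def eta (a : ZMod p) : ℤ := quadraticChar (ZMod p) a

/-- the sum `∑ j, η (j) η (j + 1) η (j + c) η (j + 1 + c)` -/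
def H (c : ZMod p) : ℤ := ∑ j : ZMod p, eta j * eta (j + 1) * eta (j + c) * eta (j + 1 + c)

/-- the sign `2 σ (c)` -/
def tau (c : ZMod p) : ℤ := eta (c + 1) * (1 + eta c) - eta (c - 1) * (1 - eta c)

theorem eta_cast {m : ℕ} (hm : p = 2 * m + 1) (a : ZMod p) : ((eta a : ℤ) : ZMod p) = a ^ m := by
  have h1 : ringChar (ZMod p) ≠ 2 := by
    rw [ZMod.ringChar_zmod_n]; omega
  have h2 := quadraticChar_eq_pow_of_char_ne_two' h1 a
  have h3 : Fintype.card (ZMod p) / 2 = m := by rw [ZMod.card]; omega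
  rw [h3] at h2
  exact h2

theorem H_cast {m : ℕ} (hm : p = 2 * m + 1) (c : ZMod p) : ((H c : ℤ) : ZMod p) =
    ∑ j : ZMod p, j ^ m * (j + 1) ^ m * (j + c) ^ m * (j + 1 + c) ^ m := by
  unfold H
  push_cast
  simp only [eta_cast hm]

theorem tau_cast {m : ℕ} (hm : p = 2 * m + 1) (c : ZMod p) : ((tau c : ℤ) : ZMod p) =
    (c + 1) ^ m * (1 + c ^ m) - (c - 1) ^ m * (1 - c ^ m) := by
  unfold tau
  push_cast
  simp only [eta_cast hm]

theorem sum_H {m : ℕ} (hm : p = 2 * m + 1) (e : ℕ) (he0 : 0 < e) (he : e < m) :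
    ∑ c : ZMod p, ((H c : ℤ) : ZMod p) * c ^ (2 * m - e) =
      ∑ ab ∈ HasAntidiagonal.antidiagonal e, (m.choose ab.1 : ZMod p) * (m.choose ab.2 : ZMod p) *
        ((2 * m - ab.2).choose ab.1 : ZMod p) := by
  have hpm : p - 1 = 2 * m := by omega
  have h1 : ∀ j : ZMod p, ∑ c : ZMod p, (j + c) ^ m * (j + 1 + c) ^ m * c ^ (2 * m - e) =
      - ∑ ab ∈ HasAntidiagonal.antidiagonal e, (j ^ (m - ab.1) * (m.choose ab.1 : ZMod p)) *
        ((j + 1) ^ (m - ab.2) * (m.choose ab.2 : ZMod p)) := by
    intro j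
    have h2 := sum_eval ((X + C j) ^ m * (X + C (j + 1)) ^ m * X ^ (2 * m - e) : (ZMod p)[X]) (by
      have h3 : ((X + C j) ^ m * (X + C (j + 1)) ^ m * X ^ (2 * m - e) : (ZMod p)[X]).natDegree ≤
          m + m + (2 * m - e) := by
        refine natDegree_mul_le.trans (add_le_add (natDegree_mul_le.trans (add_le_add ?_ ?_)) ?_)
        · refine natDegree_pow_le.trans ?_
          rw [natDegree_X_add_C, mul_one]
        · refine natDegree_pow_le.trans ?_
          rw [natDegree_X_add_C, mul_one]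
        · rw [natDegree_X_pow]
      omega)
    rw [hpm, coeff_mul_X_pow', if_pos (by omega)] at h2
    have h4 : 2 * m - (2 * m - e) = e := by omega
    rw [h4, coeff_mul] at h2
    simp only [coeff_X_add_C_pow] at h2
    rw [← h2]
    refine Finset.sum_congr rfl fun c _ => ?_
    simp only [eval_mul, eval_pow, eval_add, eval_X, eval_C]
    ring
  have h5 : ∀ ab ∈ HasAntidiagonal.antidiagonal e, ∑ j : ZMod p, j ^ (2 * m - ab.1) *
      (j + 1) ^ (2 * m - ab.2) = - ((2 * m - ab.2).choose ab.1 : ZMod p) := by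
    intro ab hab
    rw [Finset.HasAntidiagonal.mem_antidiagonal] at hab
    have h2 := sum_eval ((X + C 1) ^ (2 * m - ab.2) * X ^ (2 * m - ab.1) : (ZMod p)[X]) (by
      have h3 : ((X + C 1) ^ (2 * m - ab.2) * X ^ (2 * m - ab.1) : (ZMod p)[X]).natDegree ≤
          (2 * m - ab.2) + (2 * m - ab.1) := by
        refine natDegree_mul_le.trans (add_le_add ?_ ?_)
        · refine natDegree_pow_le.trans ?_
          rw [natDegree_X_add_C, mul_one]
        · rw [natDegree_X_pow]
      omega)
    rw [hpm, coeff_mul_X_pow', if_pos (by omega)] at h2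
    have h4 : 2 * m - (2 * m - ab.1) = ab.1 := by omega
    rw [h4, coeff_X_add_C_pow, one_pow, one_mul] at h2
    rw [← h2]
    refine Finset.sum_congr rfl fun c _ => ?_
    simp only [eval_mul, eval_pow, eval_add, eval_X, eval_C]
    ring
  calc ∑ c : ZMod p, ((H c : ℤ) : ZMod p) * c ^ (2 * m - e)
      = ∑ c : ZMod p, ∑ j : ZMod p, j ^ m * (j + 1) ^ m *
          ((j + c) ^ m * (j + 1 + c) ^ m * c ^ (2 * m - e)) := by
        refine Finset.sum_congr rfl fun c _ => ?_
        rw [H_cast hm, Finset.sum_mul]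
        refine Finset.sum_congr rfl fun j _ => ?_
        ring
    _ = ∑ j : ZMod p, j ^ m * (j + 1) ^ m * ∑ c : ZMod p,
          ((j + c) ^ m * (j + 1 + c) ^ m * c ^ (2 * m - e)) := by
        rw [Finset.sum_comm]
        refine Finset.sum_congr rfl fun j _ => ?_
        rw [Finset.mul_sum]
    _ = ∑ j : ZMod p, ∑ ab ∈ HasAntidiagonal.antidiagonal e, -((m.choose ab.1 : ZMod p) *
          (m.choose ab.2 : ZMod p) * (j ^ (2 * m - ab.1) * (j + 1) ^ (2 * m - ab.2))) := by
        refine Finset.sum_congr rfl fun j _ => ?_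
        rw [h1 j, mul_neg, Finset.mul_sum, ← Finset.sum_neg_distrib]
        refine Finset.sum_congr rfl fun ab hab => ?_
        rw [Finset.HasAntidiagonal.mem_antidiagonal] at hab
        have e1 : 2 * m - ab.1 = m + (m - ab.1) := by omega
        have e2 : 2 * m - ab.2 = m + (m - ab.2) := by omega
        rw [e1, e2, pow_add, pow_add]
        ring
    _ = ∑ ab ∈ HasAntidiagonal.antidiagonal e, (m.choose ab.1 : ZMod p) * (m.choose ab.2 : ZMod p) *
        ((2 * m - ab.2).choose ab.1 : ZMod p) := by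
        rw [Finset.sum_comm]
        refine Finset.sum_congr rfl fun ab hab => ?_
        rw [Finset.sum_neg_distrib, ← Finset.mul_sum, h5 ab hab]
        ring

theorem sum_tau {m : ℕ} (hm : p = 2 * m + 1) (hodd : Odd m) (e : ℕ) (he0 : 0 < e) (he : e < m)
    (heven : Even e) :
    ∑ c : ZMod p, ((tau c : ℤ) : ZMod p) * c ^ (2 * m - e) = -2 * (m.choose e : ZMod p) := by
  have hpm : p - 1 = 2 * m := by omega
  have key : ∀ (r : ZMod p) (k : ℕ), k ≤ m → ∑ c : ZMod p, (c + r) ^ m * c ^ (2 * m - e + k) =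
      if k = 0 then - (r ^ (m - e) * (m.choose e : ZMod p)) else
        if k ≤ e then - (r ^ (m - (e - k)) * (m.choose (e - k) : ZMod p)) else 0 := by
    intro r k hk
    have h2 := sum_eval ((X + C r) ^ m * X ^ (2 * m - e + k) : (ZMod p)[X]) (by
      have h3 : ((X + C r) ^ m * X ^ (2 * m - e + k) : (ZMod p)[X]).natDegree ≤
          m + (2 * m - e + k) := by
        refine natDegree_mul_le.trans (add_le_add ?_ ?_)
        · refine natDegree_pow_le.trans ?_
          rw [natDegree_X_add_C, mul_one]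
        · rw [natDegree_X_pow]
      omega)
    simp only [eval_mul, eval_pow, eval_add, eval_X, eval_C] at h2
    rw [h2, hpm, coeff_mul_X_pow']
    split_ifs with h3 h4 h5 h6 h7
    · subst h4
      have h4 : 2 * m - (2 * m - e + 0) = e := by omega
      rw [h4, coeff_X_add_C_pow]
    · have h4 : 2 * m - (2 * m - e + k) = e - k := by omega
      rw [h4, coeff_X_add_C_pow]
    · omega
    · omega
    · omega
    · simp
  have k1 := key 1 0 (by omega)
  have k2 := key 1 m le_rfl
  have k3 := key (-1) 0 (by omega)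
  have k4 := key (-1) m le_rfl
  rw [if_pos rfl, add_zero, one_pow, one_mul] at k1
  rw [if_neg (by omega), if_neg (by omega)] at k2
  rw [if_pos rfl, add_zero] at k3
  rw [if_neg (by omega), if_neg (by omega)] at k4
  have h7 : (-1 : ZMod p) ^ (m - e) = -1 := by
    apply Odd.neg_one_pow
    exact Nat.Odd.sub_even (by omega) hodd heven
  rw [h7] at k3
  have h8 : ∀ c : ZMod p, ((tau c : ℤ) : ZMod p) * c ^ (2 * m - e) =
      (c + 1) ^ m * c ^ (2 * m - e) + (c + 1) ^ m * c ^ (2 * m - e + m) -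
      (c + -1) ^ m * c ^ (2 * m - e) + (c + -1) ^ m * c ^ (2 * m - e + m) := by
    intro c
    rw [tau_cast hm, pow_add, sub_eq_add_neg c 1]
    ring
  rw [Finset.sum_congr rfl fun c _ => h8 c, Finset.sum_add_distrib, Finset.sum_sub_distrib,
    Finset.sum_add_distrib, k1, k2, k3, k4]
  ring

theorem choose_rec {m : ℕ} (hm : p = 2 * m + 1) (k : ℕ) (hk : k ≤ m) :
    2 * ((k + 1 : ℕ) : ZMod p) * (m.choose (k + 1) : ZMod p) =
      -((2 * k + 1 : ℕ) : ZMod p) * (m.choose k : ZMod p) := by
  have h1 : m.choose (k + 1) * (k + 1) = m.choose k * (m - k) := Nat.choose_succ_right_eq _ _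
  have h2 := congrArg (Nat.cast : ℕ → ZMod p) h1
  rw [Nat.cast_mul, Nat.cast_mul, Nat.cast_sub hk] at h2
  have h3 : (2 : ZMod p) * (m : ZMod p) = -1 := by
    have h4 : ((2 * m + 1 : ℕ) : ZMod p) = 0 := by rw [← hm, ZMod.natCast_self]
    push_cast at h4
    linear_combination h4
  push_cast at h2 ⊢
  linear_combination 2 * h2 + (m.choose k : ZMod p) * h3

theorem modp {m : ℕ} (hm : p = 2 * m + 1) (hodd : Odd m) (hm7 : 7 ≤ m) (α β : ℤ)
    (h : ∀ c : ZMod p, c ≠ 0 → c ≠ 1 → c ≠ -1 → 4 * H c = α + β * tau c) : p = 19 := by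
  have hpm : p - 1 = 2 * m := by omega
  have hne : ∀ n : ℕ, 0 < n → n < p → ((n : ℕ) : ZMod p) ≠ 0 := by
    intro n h0 hn
    rw [Ne, ZMod.natCast_eq_zero_iff]
    exact Nat.not_dvd_of_pos_of_lt h0 hn
  have n2 : (2 : ZMod p) ≠ 0 := by exact_mod_cast hne 2 (by omega) (by omega)
  have n3 : (3 : ZMod p) ≠ 0 := by exact_mod_cast hne 3 (by omega) (by omega)
  have n5 : (5 : ZMod p) ≠ 0 := by exact_mod_cast hne 5 (by omega) (by omega)
  set f : ZMod p → ZMod p := fun c => 4 * ((H c : ℤ) : ZMod p) - α - β * ((tau c : ℤ) : ZMod p)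
    with hf
  have hf0 : ∀ c : ZMod p, c ≠ 0 → c ≠ 1 → c ≠ -1 → f c = 0 := by
    intro c h0 h1 h2
    have h3 := congrArg (Int.cast : ℤ → ZMod p) (h c h0 h1 h2)
    push_cast at h3
    rw [hf]
    linear_combination h3
  have hK : ∀ e : ℕ, 0 < e → e < m → Even e → ∑ c : ZMod p, f c * c ^ (2 * m - e) =
      f 1 + f (-1) := by
    intro e he0 he heven
    have h1 : ∑ c : ZMod p, f c * c ^ (2 * m - e) =
        ∑ c ∈ ({1, -1} : Finset (ZMod p)), f c * c ^ (2 * m - e) := by
      symm
      apply Finset.sum_subset (Finset.subset_univ _)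
      intro c _ hc
      rw [Finset.mem_insert, Finset.mem_singleton, not_or] at hc
      rcases eq_or_ne c 0 with h0 | h0
      · rw [h0, zero_pow (by omega), mul_zero]
      · rw [hf0 c h0 hc.1 hc.2, zero_mul]
    have h2 : (1 : ZMod p) ≠ -1 := by
      intro h3
      apply n2
      linear_combination h3
    have h3 : (-1 : ZMod p) ^ (2 * m - e) = 1 := by
      apply Even.neg_one_pow
      exact (Nat.even_sub (by omega)).2 (by simp [heven])
    rw [h1, Finset.sum_pair h2, one_pow, h3, mul_one, mul_one]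
  have hS : ∀ e : ℕ, 0 < e → e < m → Even e →
      4 * (∑ ab ∈ HasAntidiagonal.antidiagonal e, (m.choose ab.1 : ZMod p) * (m.choose ab.2 : ZMod p) *
        ((-1) ^ ab.1 * ((e.choose ab.1 : ℕ) : ZMod p))) + 2 * β * (m.choose e : ZMod p) =
          f 1 + f (-1) := by
    intro e he0 he heven
    rw [← hK e he0 he heven]
    have h1 := sum_H hm e he0 he
    have h2 := sum_tau hm hodd e he0 he heven
    have h3 : ∑ c : ZMod p, c ^ (2 * m - e) = 0 := by
      rw [sum_pow _ (by omega), if_neg (by omega)]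
    have h4 : ∀ ab ∈ HasAntidiagonal.antidiagonal e, (m.choose ab.1 : ZMod p) * (m.choose ab.2 : ZMod p) *
        ((-1) ^ ab.1 * ((e.choose ab.1 : ℕ) : ZMod p)) =
        (m.choose ab.1 : ZMod p) * (m.choose ab.2 : ZMod p) *
        ((2 * m - ab.2).choose ab.1 : ZMod p) := by
      intro ab hab
      rw [Finset.HasAntidiagonal.mem_antidiagonal] at hab
      have h5 := choose_neg (p := p) ab.1 ab.2 (by omega)
      rw [hpm, hab] at h5
      rw [h5]
    rw [Finset.sum_congr rfl h4, ← h1]
    have h6 : ∀ c : ZMod p, f c * c ^ (2 * m - e) = 4 * (((H c : ℤ) : ZMod p) * c ^ (2 * m - e)) -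
        α * c ^ (2 * m - e) - β * (((tau c : ℤ) : ZMod p) * c ^ (2 * m - e)) := by
      intro c
      rw [hf]; ring
    rw [Finset.sum_congr rfl fun c _ => h6 c, Finset.sum_sub_distrib, Finset.sum_sub_distrib,
      ← Finset.mul_sum, ← Finset.mul_sum, ← Finset.mul_sum, h2, h3]
    ring
  have e2 := hS 2 (by norm_num) (by omega) (by decide)
  have e4 := hS 4 (by norm_num) (by omega) (by decide)
  have e6 := hS 6 (by norm_num) (by omega) (by decide)
  have a2 : (HasAntidiagonal.antidiagonal 2 : Finset (ℕ × ℕ)) = {(0, 2), (1, 1), (2, 0)} := by decide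
  have a4 : (HasAntidiagonal.antidiagonal 4 : Finset (ℕ × ℕ)) =
      {(0, 4), (1, 3), (2, 2), (3, 1), (4, 0)} := by decide
  have a6 : (HasAntidiagonal.antidiagonal 6 : Finset (ℕ × ℕ)) =
      {(0, 6), (1, 5), (2, 4), (3, 3), (4, 2), (5, 1), (6, 0)} := by decide
  rw [a2] at e2
  rw [a4] at e4
  rw [a6] at e6
  have q21 : Nat.choose 2 1 = 2 := by decide
  have q41 : Nat.choose 4 1 = 4 := by decide
  have q42 : Nat.choose 4 2 = 6 := by decide
  have q43 : Nat.choose 4 3 = 4 := by decide
  have q61 : Nat.choose 6 1 = 6 := by decide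
  have q62 : Nat.choose 6 2 = 15 := by decide
  have q63 : Nat.choose 6 3 = 20 := by decide
  have q64 : Nat.choose 6 4 = 15 := by decide
  have q65 : Nat.choose 6 5 = 6 := by decide
  repeat rw [Finset.sum_insert (by decide)] at e2
  repeat rw [Finset.sum_insert (by decide)] at e4
  repeat rw [Finset.sum_insert (by decide)] at e6
  rw [Finset.sum_singleton] at e2 e4 e6
  simp only [q21, Nat.choose_self, Nat.choose_zero_right] at e2
  simp only [q41, q42, q43, Nat.choose_self, Nat.choose_zero_right] at e4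
  simp only [q61, q62, q63, q64, q65, Nat.choose_self, Nat.choose_zero_right] at e6
  push_cast at e2 e4 e6
  have r1 := choose_rec hm 0 (by omega)
  have r2 := choose_rec hm 1 (by omega)
  have r3 := choose_rec hm 2 (by omega)
  have r4 := choose_rec hm 3 (by omega)
  have r5 := choose_rec hm 4 (by omega)
  have r6 := choose_rec hm 5 (by omega)
  rw [Nat.choose_zero_right] at r1
  push_cast at r1 r2 r3 r4 r5 r6
  generalize (m.choose 1 : ZMod p) = c1 at *
  generalize (m.choose 2 : ZMod p) = c2 at *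
  generalize (m.choose 3 : ZMod p) = c3 at *
  generalize (m.choose 4 : ZMod p) = c4 at *
  generalize (m.choose 5 : ZMod p) = c5 at *
  generalize (m.choose 6 : ZMod p) = c6 at *
  have n32 : (2 : ZMod p) ^ 10 ≠ 0 := pow_ne_zero _ n2
  have s1 : 2 * c1 = -1 := by linear_combination r1
  have s2 : 8 * c2 = 3 := by linear_combination 2 * r2 - 3 * s1
  have s3 : 16 * c3 = -5 := by
    have : 3 * (16 * c3) = 3 * (-5) := by linear_combination 8 * r3 - 5 * s2
    exact mul_left_cancel₀ n3 this
  have s4 : 128 * c4 = 35 := by linear_combination 16 * r4 - 7 * s3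
  have s5 : 256 * c5 = -63 := by
    have : (2 * 5) * (256 * c5) = (2 * 5) * (-63) := by linear_combination 256 * r5 - 18 * s4
    exact mul_left_cancel₀ (mul_ne_zero n2 n5) this
  have s6 : 1024 * c6 = 231 := by
    have : (2 * 2 * 3) * (1024 * c6) = (2 * 2 * 3) * 231 := by
      linear_combination 1024 * r6 - 44 * s5
    exact mul_left_cancel₀ (mul_ne_zero (mul_ne_zero n2 n2) n3) this
  have t24 : 28 + 13 * (β : ZMod p) = 0 := by
    linear_combination 64 * (e2 - e4) - (64 * s2 - 128 * (2 * c1 - 1) * s1 + 16 * β * s2) +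
      (4 * s4 - 64 * (16 * c3 * s1 - s3) + 24 * (8 * c2 + 3) * s2 + β * s4)
  have t46 : 88 + 49 * (β : ZMod p) = 0 := by
    linear_combination 512 * (e4 - e6) -
      8 * (4 * s4 - 64 * (16 * c3 * s1 - s3) + 24 * (8 * c2 + 3) * s2 + β * s4) +
      (4 * s6 - 48 * (256 * c5 * s1 - s5) + 60 * (128 * c4 * s2 + 3 * s4) -
        160 * (16 * c3 - 5) * s3 + β * s6)
  have h228 : ((228 : ℕ) : ZMod p) = 0 := by
    push_cast
    linear_combination 49 * t24 - 13 * t46
  rw [ZMod.natCast_eq_zero_iff] at h228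
  have h7 : p ∣ 12 * 19 := h228
  rcases (hp.out.dvd_mul).1 h7 with h8 | h8
  · have := Nat.le_of_dvd (by norm_num) h8
    omega
  · exact (Nat.prime_dvd_prime_iff_eq hp.out (by norm_num)).1 h8

end Run7.h53.QR
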