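import Mathlib
import Pool.Agent.Run7.h53.QR.ModP

set_option autoImplicit false

/-! # The four term relations for vectors depending on the quadratic character -/

namespace Run7.h53.QR

open Finset

theorem neg_one_two : (-1 : ZMod 2) = 1 := by decide

variable {p : ℕ} [hp : Fact p.Prime]

theorem eta_zero : eta (0 : ZMod p) = 0 := by
  unfold eta; exact quadraticChar_zero

theorem eta_one : eta (1 : ZMod p) = 1 := by
  unfold eta; exact map_one _

theorem eta_mul (a b : ZMod p) : eta (a * b) = eta a * eta b := by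
  unfold eta; exact map_mul _ _ _

theorem eta_sq {a : ZMod p} (ha : a ≠ 0) : eta a * eta a = 1 := by
  unfold eta
  rw [← sq]; exact quadraticChar_sq_one ha

theorem eta_cases {a : ZMod p} (ha : a ≠ 0) : eta a = 1 ∨ eta a = -1 := by
  unfold eta
  exact quadraticChar_dichotomy ha

theorem eta_neg (hneg : eta (-1 : ZMod p) = -1) (a : ZMod p) : eta (-a) = - eta a := by
  have h : -a = -1 * a := by ring
  rw [h, eta_mul, hneg]; ring

theorem ne_two (hneg : eta (-1 : ZMod p) = -1) : p ≠ 2 := by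
  intro h
  subst h
  have h1 : (-1 : ZMod 2) = 1 := neg_one_two
  rw [h1, eta_one] at hneg
  norm_num at hneg

theorem sum_eta (h2 : p ≠ 2) : ∑ j : ZMod p, eta j = 0 := by
  have h1 : ringChar (ZMod p) ≠ 2 := by
    rw [ZMod.ringChar_zmod_n]; exact h2
  unfold eta
  exact quadraticChar_sum_zero h1

theorem sum_eta_add (h2 : p ≠ 2) (s : ZMod p) : ∑ j : ZMod p, eta (j + s) = 0 := by
  rw [← sum_eta h2]
  exact Fintype.sum_equiv (Equiv.addRight s) _ _ fun j => rfl

theorem sum_eta_pair (h2 : p ≠ 2) {s t : ZMod p} (hst : s ≠ t) :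
    ∑ j : ZMod p, eta (j + s) * eta (j + t) = -1 := by
  have hring : ringChar (ZMod p) ≠ 2 := by
    rw [ZMod.ringChar_zmod_n]; exact h2
  set k := t - s with hk
  have hk0 : k ≠ 0 := sub_ne_zero.2 (Ne.symm hst)
  have h1 : ∑ j : ZMod p, eta (j + s) * eta (j + t) = ∑ j : ZMod p, eta j * eta (j + k) := by
    refine Fintype.sum_equiv (Equiv.addRight s) _ _ fun j => ?_
    simp only [Equiv.coe_addRight]
    congr 2
    rw [hk]; ring
  have h3 : ∑ j : ZMod p, eta j * eta (j + k) = ∑ i : ZMod p, eta (-k * i) * eta (-k * i + k) := by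
    symm
    exact Fintype.sum_equiv (Equiv.mulLeft₀ (-k) (neg_ne_zero.2 hk0)) _ _ fun i => rfl
  have h4 : ∀ i : ZMod p, eta (-k * i) * eta (-k * i + k) =
      eta (-1 : ZMod p) * (eta i * eta (1 - i)) := by
    intro i
    have e1 : -k * i = -1 * (k * i) := by ring
    have e2 : -k * i + k = k * (1 - i) := by ring
    rw [e2, e1, eta_mul, eta_mul, eta_mul]
    have := eta_sq hk0
    linear_combination (eta (-1 : ZMod p) * eta i * eta (1 - i)) * this
  rw [h1, h3, Finset.sum_congr rfl fun i _ => h4 i, ← Finset.mul_sum]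
  have h5 : ∑ i : ZMod p, eta i * eta (1 - i) = - eta (-1 : ZMod p) := by
    have h6 := jacobiSum_nontrivial_inv (χ := quadraticChar (ZMod p)) (quadraticChar_ne_one hring)
    rw [quadraticChar_isQuadratic _ |>.inv] at h6
    exact h6
  rw [h5]
  have h7 := eta_sq (p := p) (a := -1) (neg_ne_zero.2 one_ne_zero)
  linear_combination -h7

/-- the character with values in `ℂ` -/
noncomputable def ec (a : ZMod p) : ℂ := ((eta a : ℤ) : ℂ)

theorem sum_ec_add (h2 : p ≠ 2) (s : ZMod p) : ∑ j : ZMod p, ec (j + s) = 0 := by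
  unfold ec
  rw [← Int.cast_sum, sum_eta_add h2]; simp

theorem sum_ec (h2 : p ≠ 2) : ∑ j : ZMod p, ec j = 0 := by
  have := sum_ec_add h2 (0 : ZMod p)
  simpa using this

theorem sum_ec_pair (h2 : p ≠ 2) {s t : ZMod p} (hst : s ≠ t) :
    ∑ j : ZMod p, ec (j + s) * ec (j + t) = -1 := by
  have h := sum_eta_pair h2 hst
  unfold ec
  have h' := congrArg (Int.cast : ℤ → ℂ) h
  push_cast at h'
  exact h'

theorem ec_neg (hneg : eta (-1 : ZMod p) = -1) (a : ZMod p) : ec (-a) = - ec a := by
  unfold ec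
  rw [eta_neg hneg]; push_cast; ring

theorem triple_a (hneg : eta (-1 : ZMod p) = -1) (c : ZMod p) :
    ∑ j : ZMod p, ec j * ec (j + 1) * ec (j + 1 + c) =
      -∑ j : ZMod p, ec j * ec (j + c) * ec (j + 1 + c) := by
  rw [← Finset.sum_neg_distrib]
  refine Fintype.sum_equiv (Equiv.subLeft (-1 - c)) _ _ fun j => ?_
  simp only [Equiv.subLeft_apply]
  have e1 : -1 - c - j = -(j + 1 + c) := by ring
  have e2 : -(j + 1 + c) + c = -(j + 1) := by ring
  have e3 : -(j + 1 + c) + 1 + c = -j := by ring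
  rw [e1, e2, e3, ec_neg hneg, ec_neg hneg, ec_neg hneg]
  ring

theorem triple_b (hneg : eta (-1 : ZMod p) = -1) (c : ZMod p) :
    ∑ j : ZMod p, ec j * ec (j + 1) * ec (j + c) =
      -∑ j : ZMod p, ec (j + 1) * ec (j + c) * ec (j + 1 + c) := by
  rw [← Finset.sum_neg_distrib]
  refine Fintype.sum_equiv (Equiv.subLeft (-1 - c)) _ _ fun j => ?_
  simp only [Equiv.subLeft_apply]
  have e1 : -1 - c - j + 1 = -(j + c) := by ring
  have e2 : -1 - c - j + c = -(j + 1) := by ring
  have e3 : -(j + c) + c = -j := by ring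
  rw [e1, e2, e3, ec_neg hneg, ec_neg hneg, ec_neg hneg]
  ring

theorem H_ec (c : ZMod p) : ((H c : ℤ) : ℂ) =
    ∑ j : ZMod p, ec j * ec (j + 1) * ec (j + c) * ec (j + 1 + c) := by
  unfold H ec
  push_cast
  rfl

theorem sum_u (hneg : eta (-1 : ZMod p) = -1) {c : ZMod p} (c0 : c ≠ 0) (c1 : c ≠ 1)
    (c2 : c ≠ -1) (x y x' y' : ℂ) :
    ∑ j : ZMod p, (x + y * ec j) * (x' + y' * ec (j + 1)) * (x' + y' * ec (j + c)) *
      (x + y * ec (j + 1 + c)) =
      p * x ^ 2 * x' ^ 2 - (y ^ 2 * x' ^ 2 + x ^ 2 * y' ^ 2 + 4 * x * y * x' * y') +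
        y ^ 2 * y' ^ 2 * (H c : ℤ) := by
  have h2 := ne_two hneg
  have key : ∀ j : ZMod p, (x + y * ec j) * (x' + y' * ec (j + 1)) * (x' + y' * ec (j + c)) *
      (x + y * ec (j + 1 + c)) =
      x ^ 2 * x' ^ 2 + (y * x * x' ^ 2) * ec (j + 0) + (y * x * x' ^ 2) * ec (j + (1 + c)) +
      (x ^ 2 * x' * y') * ec (j + 1) + (x ^ 2 * x' * y') * ec (j + c) +
      (y ^ 2 * x' ^ 2) * (ec (j + 0) * ec (j + (1 + c))) +
      (x ^ 2 * y' ^ 2) * (ec (j + 1) * ec (j + c)) +
      (x * y * x' * y') * (ec (j + 0) * ec (j + 1)) +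
      (x * y * x' * y') * (ec (j + 0) * ec (j + c)) +
      (x * y * x' * y') * (ec (j + 1) * ec (j + (1 + c))) +
      (x * y * x' * y') * (ec (j + c) * ec (j + (1 + c))) +
      (y ^ 2 * x' * y') * (ec j * ec (j + 1) * ec (j + 1 + c)) +
      (y ^ 2 * x' * y') * (ec j * ec (j + c) * ec (j + 1 + c)) +
      (x * y * y' ^ 2) * (ec j * ec (j + 1) * ec (j + c)) +
      (x * y * y' ^ 2) * (ec (j + 1) * ec (j + c) * ec (j + 1 + c)) +
      (y ^ 2 * y' ^ 2) * (ec j * ec (j + 1) * ec (j + c) * ec (j + 1 + c)) := by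
    intro j
    rw [add_zero, ← add_assoc j 1 c]
    ring
  have d1 : (0 : ZMod p) ≠ 1 + c := fun h => c2 (by linear_combination -h)
  have d2 : (1 : ZMod p) ≠ c := fun h => c1 h.symm
  have d3 : (0 : ZMod p) ≠ 1 := zero_ne_one
  have d4 : (0 : ZMod p) ≠ c := fun h => c0 h.symm
  have d5 : (1 : ZMod p) ≠ 1 + c := fun h => c0 (by linear_combination -h)
  have d6 : c ≠ 1 + c := fun h => one_ne_zero (α := ZMod p) (by linear_combination -h)
  rw [Finset.sum_congr rfl fun j _ => key j]
  simp only [Finset.sum_add_distrib, ← Finset.mul_sum]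
  rw [sum_ec_add h2, sum_ec_add h2, sum_ec_add h2, sum_ec_add h2, sum_ec_pair h2 d1,
    sum_ec_pair h2 d2, sum_ec_pair h2 d3, sum_ec_pair h2 d4, sum_ec_pair h2 d5,
    sum_ec_pair h2 d6, triple_a hneg, triple_b hneg, ← H_ec]
  simp only [Finset.sum_const, Finset.card_univ, ZMod.card, nsmul_eq_mul]
  ring

/-- a vector depending on the quadratic character -/
noncomputable def W (x y z : ℂ) (j : ZMod p) : ℂ := x + y * ec j + if j = 0 then z else 0

theorem expand (hneg : eta (-1 : ZMod p) = -1) {c : ZMod p} (c0 : c ≠ 0) (c1 : c ≠ 1)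
    (c2 : c ≠ -1) (x y z x' y' z' : ℂ) :
    ∑ j : ZMod p, W x y z j * W x' y' z' (j + 1) * W x' y' z' (j + c) * W x y z (j + 1 + c) =
      p * x ^ 2 * x' ^ 2 - (y ^ 2 * x' ^ 2 + x ^ 2 * y' ^ 2 + 4 * x * y * x' * y') +
        y ^ 2 * y' ^ 2 * (H c : ℤ) +
      z * ((x' + y') * (x' + y' * ec c) * (x + y * ec (c + 1))) +
      z' * ((x - y) * (x' + y' * ec (c - 1)) * (x + y * ec c)) +
      z' * ((x - y * ec c) * (x' - y' * ec (c - 1)) * (x + y)) +
      z * ((x - y * ec (c + 1)) * (x' - y' * ec c) * (x' - y')) := by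
  have key : ∀ j : ZMod p,
      W x y z j * W x' y' z' (j + 1) * W x' y' z' (j + c) * W x y z (j + 1 + c) =
      (x + y * ec j) * (x' + y' * ec (j + 1)) * (x' + y' * ec (j + c)) *
      (x + y * ec (j + 1 + c)) +
      (if j = 0 then z * ((x' + y') * (x' + y' * ec c) * (x + y * ec (c + 1))) else 0) +
      (if j = -1 then z' * ((x - y) * (x' + y' * ec (c - 1)) * (x + y * ec c)) else 0) +
      (if j = -c then z' * ((x - y * ec c) * (x' - y' * ec (c - 1)) * (x + y)) else 0) +
      (if j = -1 - c then z * ((x - y * ec (c + 1)) * (x' - y' * ec c) * (x' - y')) else 0) := by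
    intro j
    have hc1 : c + 1 ≠ 0 := fun h => c2 (by linear_combination h)
    have hc1' : c - 1 ≠ 0 := fun h => c1 (by linear_combination h)
    have o1 : (1 : ZMod p) ≠ 0 := one_ne_zero
    have en1 : ec (-1 : ZMod p) = -1 := by
      rw [ec_neg hneg]; unfold ec; rw [eta_one]; simp
    have ez : ec (0 : ZMod p) = 0 := by unfold ec; rw [eta_zero]; simp
    have eo : ec (1 : ZMod p) = 1 := by unfold ec; rw [eta_one]; simp
    unfold W
    by_cases h0 : j = 0
    · subst h0
      rw [if_pos rfl, if_pos rfl, if_neg (by rw [zero_add]; exact o1),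
        if_neg (by rw [zero_add]; exact c0), if_neg (by rw [zero_add, add_comm]; exact hc1),
        if_neg (fun h => o1 (by linear_combination h)),
        if_neg (fun h => c0 (by linear_combination h)),
        if_neg (fun h => hc1 (by linear_combination h)), ez, zero_add, zero_add, eo,
        add_comm 1 c]
      ring
    by_cases h1 : j = -1
    · subst h1
      have e1 : (-1 : ZMod p) + 1 = 0 := by ring
      have e2 : -1 + c = c - 1 := by ring
      rw [e1, e2, zero_add, if_neg h0, if_neg h0, if_pos rfl, if_pos rfl, if_neg hc1', if_neg c0,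
        if_neg (fun h => c1 (by linear_combination h)),
        if_neg (fun h => c0 (by linear_combination h)), ez, en1]
      ring
    by_cases h2 : j = -c
    · subst h2
      have e1 : -c + c = 0 := by ring
      have e2 : -c + 1 + c = 1 := by ring
      have e3 : -c + 1 = -(c - 1) := by ring
      rw [e1, e2, e3, if_neg h0, if_neg h0, if_neg h1, if_pos rfl, if_pos rfl, if_neg o1,
        if_neg (neg_ne_zero.2 hc1'), if_neg (fun h => o1 (by linear_combination h)), ez, eo,
        ec_neg hneg, ec_neg hneg]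
      ring
    by_cases h3 : j = -1 - c
    · subst h3
      have e1 : -1 - c + 1 = -c := by ring
      have e2 : -1 - c + c = -1 := by ring
      have e3 : -c + c = 0 := by ring
      have e4 : -1 - c = -(c + 1) := by ring
      rw [e1, e2, e3, if_neg h0, if_neg h0, if_neg h1, if_neg h2, if_pos rfl, if_pos rfl,
        if_neg (neg_ne_zero.2 c0), if_neg (neg_ne_zero.2 o1), ez, e4, en1, ec_neg hneg,
        ec_neg hneg]
      ring
    · rw [if_neg h0, if_neg h0, if_neg h1, if_neg h2, if_neg h3,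
        if_neg (fun h => h1 (by linear_combination h)),
        if_neg (fun h => h2 (by linear_combination h)),
        if_neg (fun h => h3 (by linear_combination h))]
      ring
  rw [Finset.sum_congr rfl fun j _ => key j]
  simp only [Finset.sum_add_distrib, Finset.sum_ite_eq', Finset.mem_univ, if_true]
  rw [sum_u hneg c0 c1 c2]

end Run7.h53.QR
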