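import Mathlib
import Pool.Agent.Run7.h53.QR.ModP

set_option autoImplicit false

/-! # Power sums modulo `p`: the reduction of the four term relations -/

namespace Run7.h53.QR

open Finset Polynomial

variable {p : ℕ} [hp : Fact p.Prime]

/-- the sum `∑ j, j ^ a (j + 1) ^ b (j + c) ^ f (j + 1 + c) ^ g` -/
def S (a b f g : ℕ) (c : ZMod p) : ZMod p :=
  ∑ j : ZMod p, j ^ a * (j + 1) ^ b * (j + c) ^ f * (j + 1 + c) ^ g

theorem S_inv (a b f g : ℕ) (c : ZMod p) :
    S a b f g c = (-1) ^ (a + b + f + g) * S g f b a c := by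
  unfold S
  rw [Finset.mul_sum]
  refine Fintype.sum_equiv (Equiv.subLeft (-1 - c)) _ _ fun j => ?_
  simp only [Equiv.subLeft_apply]
  have e0 : -1 - c - j = (-1) * (j + 1 + c) := by ring
  have e1 : (-1) * (j + 1 + c) + 1 = (-1) * (j + c) := by ring
  have e2 : (-1) * (j + 1 + c) + c = (-1) * (j + 1) := by ring
  have e3 : (-1) * (j + c) + c = (-1) * j := by ring
  rw [e0, e1, e2, e3, mul_pow, mul_pow, mul_pow, mul_pow, pow_add, pow_add, pow_add]
  have h : ∀ n : ℕ, ((-1 : ZMod p) ^ n) * (-1) ^ n = 1 := fun n => by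
    rw [← mul_pow]; norm_num
  have ha := h a
  have hb := h b
  have hf := h f
  have hg := h g
  calc j ^ a * (j + 1) ^ b * (j + c) ^ f * (j + 1 + c) ^ g
      = (((-1 : ZMod p) ^ a * (-1) ^ a) * ((-1 : ZMod p) ^ b * (-1) ^ b) *
        ((-1 : ZMod p) ^ f * (-1) ^ f) * ((-1 : ZMod p) ^ g * (-1) ^ g)) *
        (j ^ a * (j + 1) ^ b * (j + c) ^ f * (j + 1 + c) ^ g) := by
        rw [ha, hb, hf, hg]; ring
    _ = _ := by ring

theorem pow_red {m : ℕ} (hm : p = 2 * m + 1) (n : ℕ) (hn : 0 < n) (i : ZMod p) :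
    i ^ (n + 2 * m) = i ^ n := by
  have h1 : n + 2 * m = p + (n - 1) := by omega
  rw [h1, pow_add, ZMod.pow_card, ← pow_succ']
  congr 1
  omega

theorem natDegree_lin_pow (r : ZMod p) (n : ℕ) : ((X + C r) ^ n : (ZMod p)[X]).natDegree ≤ n := by
  refine natDegree_pow_le.trans ?_
  rw [natDegree_X_add_C, mul_one]

theorem moment {m : ℕ} (hm : p = 2 * m + 1) (α β e : ℕ) (hab : α + β = 2 * m) (he0 : 0 < e)
    (hea : e ≤ α) (heb : e ≤ β) :
    ∑ c : ZMod p, S β α α β c * c ^ (2 * m - e) =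
      ∑ ab ∈ HasAntidiagonal.antidiagonal e, (α.choose ab.1 : ZMod p) * (β.choose ab.2 : ZMod p) *
        ((-1) ^ ab.1 * (e.choose ab.1 : ZMod p)) := by
  have hpm : p - 1 = 2 * m := by omega
  have h1 : ∀ j : ZMod p, ∑ c : ZMod p, (j + c) ^ α * (j + 1 + c) ^ β * c ^ (2 * m - e) =
      - ∑ ab ∈ HasAntidiagonal.antidiagonal e, (j ^ (α - ab.1) * (α.choose ab.1 : ZMod p)) *
        ((j + 1) ^ (β - ab.2) * (β.choose ab.2 : ZMod p)) := by
    intro j
    have h2 := sum_eval ((X + C j) ^ α * (X + C (j + 1)) ^ β * X ^ (2 * m - e) : (ZMod p)[X]) (by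
      have h3 : ((X + C j) ^ α * (X + C (j + 1)) ^ β * X ^ (2 * m - e) : (ZMod p)[X]).natDegree ≤
          α + β + (2 * m - e) := by
        refine natDegree_mul_le.trans (add_le_add (natDegree_mul_le.trans
          (add_le_add (natDegree_lin_pow _ _) (natDegree_lin_pow _ _))) ?_)
        rw [natDegree_X_pow]
      omega)
    rw [hpm, coeff_mul_X_pow', if_pos (by omega)] at h2
    have h4 : 2 * m - (2 * m - e) = e := by omega
    rw [h4, coeff_mul] at h2
    simp only [coeff_X_add_C_pow] at h2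
    rw [← h2]
    refine Finset.sum_congr rfl fun c _ => ?_
    simp only [eval_mul, eval_pow, eval_add, eval_X, eval_C]
    ring
  have h5 : ∀ ab ∈ HasAntidiagonal.antidiagonal e, ∑ j : ZMod p, j ^ (2 * m - ab.1) *
      (j + 1) ^ (2 * m - ab.2) = - ((-1) ^ ab.1 * (e.choose ab.1 : ZMod p)) := by
    intro ab hab'
    rw [Finset.HasAntidiagonal.mem_antidiagonal] at hab'
    have h2 := sum_eval ((X + C 1) ^ (2 * m - ab.2) * X ^ (2 * m - ab.1) : (ZMod p)[X]) (by
      have h3 : ((X + C 1) ^ (2 * m - ab.2) * X ^ (2 * m - ab.1) : (ZMod p)[X]).natDegree ≤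
          (2 * m - ab.2) + (2 * m - ab.1) := by
        refine natDegree_mul_le.trans (add_le_add (natDegree_lin_pow _ _) ?_)
        rw [natDegree_X_pow]
      omega)
    rw [hpm, coeff_mul_X_pow', if_pos (by omega)] at h2
    have h4 : 2 * m - (2 * m - ab.1) = ab.1 := by omega
    rw [h4, coeff_X_add_C_pow, one_pow, one_mul] at h2
    have h6 := choose_neg (p := p) ab.1 ab.2 (by omega)
    rw [hpm, hab'] at h6
    rw [← h6, ← h2]
    refine Finset.sum_congr rfl fun c _ => ?_
    simp only [eval_mul, eval_pow, eval_add, eval_X, eval_C]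
    ring
  calc ∑ c : ZMod p, S β α α β c * c ^ (2 * m - e)
      = ∑ c : ZMod p, ∑ j : ZMod p, j ^ β * (j + 1) ^ α *
          ((j + c) ^ α * (j + 1 + c) ^ β * c ^ (2 * m - e)) := by
        refine Finset.sum_congr rfl fun c _ => ?_
        unfold S
        rw [Finset.sum_mul]
        refine Finset.sum_congr rfl fun j _ => ?_
        ring
    _ = ∑ j : ZMod p, j ^ β * (j + 1) ^ α * ∑ c : ZMod p,
          ((j + c) ^ α * (j + 1 + c) ^ β * c ^ (2 * m - e)) := by
        rw [Finset.sum_comm]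
        refine Finset.sum_congr rfl fun j _ => ?_
        rw [Finset.mul_sum]
    _ = ∑ j : ZMod p, ∑ ab ∈ HasAntidiagonal.antidiagonal e, -((α.choose ab.1 : ZMod p) *
          (β.choose ab.2 : ZMod p) * (j ^ (2 * m - ab.1) * (j + 1) ^ (2 * m - ab.2))) := by
        refine Finset.sum_congr rfl fun j _ => ?_
        rw [h1 j, mul_neg, Finset.mul_sum, ← Finset.sum_neg_distrib]
        refine Finset.sum_congr rfl fun ab hab' => ?_
        rw [Finset.HasAntidiagonal.mem_antidiagonal] at hab'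
        have e1 : 2 * m - ab.1 = β + (α - ab.1) := by omega
        have e2 : 2 * m - ab.2 = α + (β - ab.2) := by omega
        rw [e1, e2, pow_add, pow_add]
        ring
    _ = _ := by
        rw [Finset.sum_comm]
        refine Finset.sum_congr rfl fun ab hab' => ?_
        rw [Finset.sum_neg_distrib, ← Finset.mul_sum, h5 ab hab']
        ring

/-- the sum of total degree `p - 1` -/
theorem S_top {m : ℕ} (hm : p = 2 * m + 1) (a b f g : ℕ) (h : a + b + f + g = 2 * m)
    (c : ZMod p) : S a b f g c = -1 := by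
  have hpm : p - 1 = 2 * m := by omega
  have hp2 := hp.out.two_le
  have hdeg : ((X + C 0) ^ a * (X + C 1) ^ b * (X + C c) ^ f * (X + C (1 + c)) ^ g :
      (ZMod p)[X]).Monic := by
    refine Monic.mul (Monic.mul (Monic.mul ?_ ?_) ?_) ?_ <;> exact (monic_X_add_C _).pow _
  have hnd : ((X + C 0) ^ a * (X + C 1) ^ b * (X + C c) ^ f * (X + C (1 + c)) ^ g :
      (ZMod p)[X]).natDegree = 2 * m := by
    rw [Monic.natDegree_mul (Monic.mul (Monic.mul ((monic_X_add_C _).pow _)
      ((monic_X_add_C _).pow _)) ((monic_X_add_C _).pow _)) ((monic_X_add_C _).pow _),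
      Monic.natDegree_mul (Monic.mul ((monic_X_add_C _).pow _)
      ((monic_X_add_C _).pow _)) ((monic_X_add_C _).pow _),
      Monic.natDegree_mul ((monic_X_add_C _).pow _)
      ((monic_X_add_C _).pow _), (monic_X_add_C _).natDegree_pow, (monic_X_add_C _).natDegree_pow,
      (monic_X_add_C _).natDegree_pow, (monic_X_add_C _).natDegree_pow, natDegree_X_add_C,
      natDegree_X_add_C, natDegree_X_add_C, natDegree_X_add_C]
    omega
  have h2 := sum_eval ((X + C 0) ^ a * (X + C 1) ^ b * (X + C c) ^ f * (X + C (1 + c)) ^ g :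
      (ZMod p)[X]) (by rw [hnd]; omega)
  rw [hpm] at h2
  have h3 : ((X + C 0) ^ a * (X + C 1) ^ b * (X + C c) ^ f * (X + C (1 + c)) ^ g :
      (ZMod p)[X]).coeff (2 * m) = 1 := by
    rw [← hnd]; exact hdeg.coeff_natDegree
  rw [h3] at h2
  rw [← h2]
  unfold S
  refine Finset.sum_congr rfl fun j _ => ?_
  simp only [eval_mul, eval_pow, eval_add, eval_X, eval_C, add_zero]
  rw [add_assoc j 1 c]

/-- small degree sums of two factors vanish -/
theorem S_two_zero {m : ℕ} (hm : p = 2 * m + 1) (a b : ℕ) (h : a + b < 2 * m) :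
    ∑ j : ZMod p, j ^ a * (j + 1) ^ b = 0 := by
  have hpm : p - 1 = 2 * m := by omega
  have hnd : ((X + C 1) ^ b * X ^ a : (ZMod p)[X]).natDegree ≤ b + a := by
    refine natDegree_mul_le.trans (add_le_add (natDegree_lin_pow _ _) ?_)
    rw [natDegree_X_pow]
  have h2 := sum_eval ((X + C 1) ^ b * X ^ a : (ZMod p)[X]) (by omega)
  rw [hpm, coeff_eq_zero_of_natDegree_lt (by omega), neg_zero] at h2
  rw [← h2]
  refine Finset.sum_congr rfl fun j _ => ?_
  simp only [eval_mul, eval_pow, eval_add, eval_X, eval_C]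
  ring

theorem S_two {m : ℕ} (hm : p = 2 * m + 1) (a b : ℕ) (ha : a ≤ 2 * m)
    (h : a + b < 4 * m) :
    ∑ j : ZMod p, j ^ a * (j + 1) ^ b = - (b.choose (2 * m - a) : ZMod p) := by
  have hpm : p - 1 = 2 * m := by omega
  have hnd : ((X + C 1) ^ b * X ^ a : (ZMod p)[X]).natDegree ≤ b + a := by
    refine natDegree_mul_le.trans (add_le_add (natDegree_lin_pow _ _) ?_)
    rw [natDegree_X_pow]
  have h2 := sum_eval ((X + C 1) ^ b * X ^ a : (ZMod p)[X]) (by omega)
  rw [hpm, coeff_mul_X_pow', if_pos (by omega), coeff_X_add_C_pow, one_pow, one_mul] at h2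
  rw [← h2]
  refine Finset.sum_congr rfl fun j _ => ?_
  simp only [eval_mul, eval_pow, eval_add, eval_X, eval_C]
  ring

theorem choose_ne {n k : ℕ} (hn : n < p) (hk : k ≤ n) : ((n.choose k : ℕ) : ZMod p) ≠ 0 := by
  rw [Ne, ZMod.natCast_eq_zero_iff]
  intro h
  have h1 : n.choose k ∣ n.factorial := by
    rw [← Nat.choose_mul_factorial_mul_factorial hk, mul_assoc]
    exact dvd_mul_right _ _
  exact absurd ((hp.out.dvd_factorial).1 (h.trans h1)) (by omega)

/-- if `S β α α β` is constant away from zero, two moments vanish -/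
theorem moment_zero {m : ℕ} (hm : p = 2 * m + 1) (α β e : ℕ) (he0 : 0 < e) (he : e < 2 * m)
    {k : Type*} [Field k] (φ : ZMod p →+* k) (C0 : k)
    (h : ∀ c : ZMod p, c ≠ 0 → φ (S β α α β c) = C0) :
    ∑ c : ZMod p, S β α α β c * c ^ (2 * m - e) = 0 := by
  have hpm : p - 1 = 2 * m := by omega
  apply φ.injective
  rw [map_sum, map_zero]
  have h1 : ∀ c : ZMod p, φ (S β α α β c * c ^ (2 * m - e)) = C0 * φ (c ^ (2 * m - e)) := by
    intro c
    rcases eq_or_ne c 0 with hc | hc
    · rw [hc, zero_pow (by omega), mul_zero, map_zero, mul_zero]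
    · rw [map_mul, h c hc]
  rw [Finset.sum_congr rfl fun c _ => h1 c, ← Finset.mul_sum, ← map_sum, sum_pow _ (by omega),
    if_neg (by omega), map_zero, mul_zero]

theorem not_const_one {m : ℕ} (hm : p = 2 * m + 1) (α β : ℕ) (hab : α + β = 2 * m)
    (ha : 1 ≤ α) (hb : 1 ≤ β) (hm2 : 2 ≤ m)
    {k : Type*} [Field k] (φ : ZMod p →+* k) (C0 : k)
    (h : ∀ c : ZMod p, c ≠ 0 → φ (S β α α β c) = C0) : (α : ZMod p) = β := by
  have h1 := moment_zero hm α β 1 (by norm_num) (by omega) φ C0 h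
  rw [moment hm α β 1 hab (by norm_num) ha hb] at h1
  have a1 : (HasAntidiagonal.antidiagonal 1 : Finset (ℕ × ℕ)) = {(0, 1), (1, 0)} := by decide
  rw [a1, Finset.sum_insert (by decide), Finset.sum_singleton] at h1
  simp only [Nat.choose_zero_right, Nat.choose_one_right, Nat.choose_self, Nat.cast_one] at h1
  linear_combination -h1

theorem not_const_two {m : ℕ} (hm : p = 2 * m + 1) (α β : ℕ) (hab : α + β = 2 * m)
    (ha : 2 ≤ α) (hb : 2 ≤ β)
    {k : Type*} [Field k] (φ : ZMod p →+* k) (C0 : k)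
    (h : ∀ c : ZMod p, c ≠ 0 → φ (S β α α β c) = C0) : False := by
  have h0 := not_const_one hm α β hab (by omega) (by omega) (by omega) φ C0 h
  have h1 := moment_zero hm α β 2 (by norm_num) (by omega) φ C0 h
  rw [moment hm α β 2 hab (by norm_num) ha hb] at h1
  have a1 : (HasAntidiagonal.antidiagonal 2 : Finset (ℕ × ℕ)) = {(0, 2), (1, 1), (2, 0)} := by
    decide
  rw [a1, Finset.sum_insert (by decide), Finset.sum_insert (by decide),
    Finset.sum_singleton] at h1
  have q21 : Nat.choose 2 1 = 2 := by decide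
  simp only [q21, Nat.choose_zero_right, Nat.choose_one_right, Nat.choose_self,
    Nat.cast_one] at h1
  have h2 : ∀ n : ℕ, 1 ≤ n → (2 : ZMod p) * (n.choose 2 : ZMod p) = n * (n - 1) := by
    intro n hn
    have h4 : n.choose 2 * 2 = n * (n - 1) := by
      rw [Nat.choose_two_right, Nat.div_mul_cancel]
      have := Nat.even_mul_pred_self n
      exact this.two_dvd
    have h5 := congrArg (Nat.cast : ℕ → ZMod p) h4
    rw [Nat.cast_mul, Nat.cast_mul, Nat.cast_sub hn] at h5
    push_cast at h5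
    linear_combination h5
  have h3 := h2 α (by omega)
  have h4 := h2 β (by omega)
  have h5 : (α : ZMod p) + β = -1 := by
    have : ((α + β + 1 : ℕ) : ZMod p) = 0 := by rw [hab, ← hm, ZMod.natCast_self]
    push_cast at this
    linear_combination this
  have h6 : (β : ZMod p) = α := h0.symm
  rw [h6] at h1 h4 h5
  have h7 : (1 : ZMod p) = 0 := by
    push_cast at h1
    linear_combination 4 * h1 - 2 * h3 - 2 * h4 + (2 * (α : ZMod p) + 1) * h5
  exact one_ne_zero h7

end Run7.h53.QR
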