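import Mathlib
import Pool.Agent.Run7.h53.QR.CharP

set_option autoImplicit false

/-! # Power sums modulo `p`: nonexistence of reduced solutions -/

namespace Run7.h53.QR

open Finset

variable {p : ℕ} [hp : Fact p.Prime]

theorem S_red {m : ℕ} (hm : p = 2 * m + 1) (a b g : ℕ) (hb : 0 < b) (c : ZMod p) :
    S a (b + 2 * m) (b + 2 * m) g c = S a b b g c := by
  unfold S
  refine Finset.sum_congr rfl fun j _ => ?_
  rw [pow_red hm b hb, pow_red hm b hb]

theorem charp_core {m κ μ : ℕ} (hm : p = 2 * m + 1) (hodd : Odd m) (hκ2 : 2 ≤ κ) (hμ : 0 < μ)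
    (hκμ : κ + μ = m) {k : Type*} [Field k] (φ : ZMod p →+* k) (x y x' y' : k)
    (hxy : x ≠ 0 ∨ y ≠ 0) (hxy' : x' ≠ 0 ∨ y' ≠ 0) (hz : x' * y = 0)
    (hT : ∀ c : ZMod p, c ≠ 0 → ∑ j : ZMod p, (φ j ^ κ * (x + y * φ j ^ m)) *
      (φ (j + 1) ^ (m + μ) * (x' + y' * φ (j + 1) ^ m)) *
      (φ (j + c) ^ (m + μ) * (x' + y' * φ (j + c) ^ m)) *
      (φ (j + 1 + c) ^ κ * (x + y * φ (j + 1 + c) ^ m)) = 0) : False := by
  have hS12 : ∀ c : ZMod p, S κ (μ + 2 * m) (μ + 2 * m) κ c = -1 := fun c => by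
    rw [S_red hm κ μ κ hμ, S_top hm κ μ μ κ (by omega)]
  rcases mul_eq_zero.1 hz with h0 | h0
  · -- `x' = 0`
    have hy' : y' ≠ 0 := hxy'.resolve_left (fun h => h h0)
    have key : ∀ c : ZMod p, c ≠ 0 →
        y ^ 2 * φ (S (κ + m) μ μ (κ + m) c) = x ^ 2 := by
      intro c hc
      have h1 := hT c hc
      have h2 : ∀ j : ZMod p, (φ j ^ κ * (x + y * φ j ^ m)) *
          (φ (j + 1) ^ (m + μ) * (x' + y' * φ (j + 1) ^ m)) *
          (φ (j + c) ^ (m + μ) * (x' + y' * φ (j + c) ^ m)) *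
          (φ (j + 1 + c) ^ κ * (x + y * φ (j + 1 + c) ^ m)) =
          (y' ^ 2 * x ^ 2) * φ (j ^ κ * (j + 1) ^ (μ + 2 * m) * (j + c) ^ (μ + 2 * m) *
            (j + 1 + c) ^ κ) +
          (y' ^ 2 * x * y) * φ (j ^ (κ + m) * (j + 1) ^ (μ + 2 * m) * (j + c) ^ (μ + 2 * m) *
            (j + 1 + c) ^ κ) +
          (y' ^ 2 * x * y) * φ (j ^ κ * (j + 1) ^ (μ + 2 * m) * (j + c) ^ (μ + 2 * m) *
            (j + 1 + c) ^ (κ + m)) +
          (y' ^ 2 * y ^ 2) * φ (j ^ (κ + m) * (j + 1) ^ (μ + 2 * m) * (j + c) ^ (μ + 2 * m) *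
            (j + 1 + c) ^ (κ + m)) := by
        intro j
        rw [h0]
        simp only [map_mul, map_pow]
        ring
      rw [Finset.sum_congr rfl fun j _ => h2 j] at h1
      simp only [Finset.sum_add_distrib, ← Finset.mul_sum, ← map_sum] at h1
      have h3 : ∀ a b f g : ℕ, ∑ j : ZMod p, j ^ a * (j + 1) ^ b * (j + c) ^ f *
          (j + 1 + c) ^ g = S a b f g c := fun a b f g => rfl
      simp only [h3] at h1
      have h4 := S_inv (κ + m) (μ + 2 * m) (μ + 2 * m) κ c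
      have h5 : (-1 : ZMod p) ^ (κ + m + (μ + 2 * m) + (μ + 2 * m) + κ) = -1 := by
        apply Odd.neg_one_pow
        have h6 : κ + m + (μ + 2 * m) + (μ + 2 * m) + κ = 2 * (κ + μ + 2 * m) + m := by ring
        rw [h6]
        exact (even_two_mul _).add_odd hodd
      rw [h5] at h4
      rw [h4, hS12, S_red hm (κ + m) μ (κ + m) hμ, map_mul, map_neg, map_one] at h1
      have h7 : y' ^ 2 * (y ^ 2 * φ (S (κ + m) μ μ (κ + m) c) - x ^ 2) = 0 := by
        linear_combination h1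
      have h8 := (mul_eq_zero.1 h7).resolve_left (pow_ne_zero 2 hy')
      linear_combination h8
    have hy : y ≠ 0 := by
      intro hy
      have h1 := key 1 one_ne_zero
      rw [hy] at h1
      have h2 : x ^ 2 = 0 := by linear_combination -h1
      have h3 : x = 0 := by simpa using h2
      rcases hxy with h | h
      · exact h h3
      · exact h hy
    have key2 : ∀ c : ZMod p, c ≠ 0 → φ (S (κ + m) μ μ (κ + m) c) = x ^ 2 / y ^ 2 := by
      intro c hc
      rw [eq_div_iff (pow_ne_zero 2 hy), mul_comm]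
      exact key c hc
    have h1 := not_const_one hm μ (κ + m) (by omega) (by omega) (by omega) (by omega) φ _ key2
    have h2 : ((2 * κ : ℕ) : ZMod p) = 0 := by
      have h3 : ((μ : ℕ) : ZMod p) + κ = m := by
        rw [← Nat.cast_add, add_comm, hκμ]
      push_cast at h1 ⊢
      linear_combination h3 - h1
    rw [ZMod.natCast_eq_zero_iff] at h2
    have := Nat.le_of_dvd (by omega) h2
    omega
  · -- `y = 0`
    have hx : x ≠ 0 := hxy.resolve_right (fun h => h h0)
    have key : ∀ c : ZMod p, c ≠ 0 →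
        x' ^ 2 * φ (S κ (m + μ) (m + μ) κ c) = y' ^ 2 := by
      intro c hc
      have h1 := hT c hc
      have h2 : ∀ j : ZMod p, (φ j ^ κ * (x + y * φ j ^ m)) *
          (φ (j + 1) ^ (m + μ) * (x' + y' * φ (j + 1) ^ m)) *
          (φ (j + c) ^ (m + μ) * (x' + y' * φ (j + c) ^ m)) *
          (φ (j + 1 + c) ^ κ * (x + y * φ (j + 1 + c) ^ m)) =
          (x ^ 2 * x' ^ 2) * φ (j ^ κ * (j + 1) ^ (m + μ) * (j + c) ^ (m + μ) *
            (j + 1 + c) ^ κ) +
          (x ^ 2 * x' * y') * φ (j ^ κ * (j + 1) ^ (μ + 2 * m) * (j + c) ^ (m + μ) *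
            (j + 1 + c) ^ κ) +
          (x ^ 2 * x' * y') * φ (j ^ κ * (j + 1) ^ (m + μ) * (j + c) ^ (μ + 2 * m) *
            (j + 1 + c) ^ κ) +
          (x ^ 2 * y' ^ 2) * φ (j ^ κ * (j + 1) ^ (μ + 2 * m) * (j + c) ^ (μ + 2 * m) *
            (j + 1 + c) ^ κ) := by
        intro j
        rw [h0]
        simp only [map_mul, map_pow]
        ring
      rw [Finset.sum_congr rfl fun j _ => h2 j] at h1
      simp only [Finset.sum_add_distrib, ← Finset.mul_sum, ← map_sum] at h1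
      have h3 : ∀ a b f g : ℕ, ∑ j : ZMod p, j ^ a * (j + 1) ^ b * (j + c) ^ f *
          (j + 1 + c) ^ g = S a b f g c := fun a b f g => rfl
      simp only [h3] at h1
      have h4 := S_inv κ (μ + 2 * m) (m + μ) κ c
      have h5 : (-1 : ZMod p) ^ (κ + (μ + 2 * m) + (m + μ) + κ) = -1 := by
        apply Odd.neg_one_pow
        have h6 : κ + (μ + 2 * m) + (m + μ) + κ = 2 * (κ + μ + m) + m := by ring
        rw [h6]
        exact (even_two_mul _).add_odd hodd
      rw [h5] at h4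
      rw [h4, hS12, map_mul, map_neg, map_one] at h1
      have h7 : x ^ 2 * (x' ^ 2 * φ (S κ (m + μ) (m + μ) κ c) - y' ^ 2) = 0 := by
        linear_combination h1
      have h8 := (mul_eq_zero.1 h7).resolve_left (pow_ne_zero 2 hx)
      linear_combination h8
    have hx' : x' ≠ 0 := by
      intro hx'
      have h1 := key 1 one_ne_zero
      rw [hx'] at h1
      have h2 : y' ^ 2 = 0 := by linear_combination -h1
      have h3 : y' = 0 := by simpa using h2
      rcases hxy' with h | h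
      · exact h hx'
      · exact h h3
    have key2 : ∀ c : ZMod p, c ≠ 0 → φ (S κ (m + μ) (m + μ) κ c) = y' ^ 2 / x' ^ 2 := by
      intro c hc
      rw [eq_div_iff (pow_ne_zero 2 hx'), mul_comm]
      exact key c hc
    exact not_const_two hm (m + μ) κ (by omega) (by omega) hκ2 φ _ key2

end Run7.h53.QR
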