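import Mathlib
import Pool.Agent.Run7.h53.QR.CharPCore

set_option autoImplicit false

/-! # Reduction of multiplicative characters modulo a place above `p` -/

namespace Run7.h53.QR

open Finset IsLocalRing

/-- a valuation subring of `ℂ` with residue characteristic `p` -/
theorem exists_val (p : ℕ) [hp : Fact p.Prime] :
    ∃ A : ValuationSubring ℂ, CharP (ResidueField A) p := by
  set I : Ideal (⊥ : Subring ℂ) := Ideal.span {(p : (⊥ : Subring ℂ))} with hI
  have hne : I ≠ ⊤ := by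
    rw [hI, Ne, Ideal.span_singleton_eq_top]
    intro hu
    obtain ⟨u, hu⟩ := isUnit_iff_exists_inv.1 hu
    obtain ⟨n, hn⟩ := Subring.mem_bot.1 u.2
    have h1 := congrArg (Subtype.val) hu
    have h2 : (p : ℂ) * (n : ℂ) = 1 := by
      rw [hn]; simpa using h1
    have h3 : (p : ℤ) * n = 1 := by exact_mod_cast h2
    have h4 : (p : ℤ) ∣ 1 := ⟨n, h3.symm⟩
    have h5 : p ∣ 1 := by exact_mod_cast h4
    exact hp.out.one_lt.ne' (Nat.dvd_one.1 h5)
  obtain ⟨B, hB, hI'⟩ := Ideal.image_subset_nonunits_valuationSubring I hne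
  refine ⟨B, ?_⟩
  have h1 : (p : ℂ) ∈ B.nonunits := by
    apply hI'
    refine ⟨(p : (⊥ : Subring ℂ)), ?_, by simp⟩
    exact Ideal.mem_span_singleton_self _
  obtain ⟨hm, h2⟩ := B.mem_nonunits_iff_exists_mem_maximalIdeal.1 h1
  have h3 : ((p : ℕ) : ResidueField B) = 0 := by
    have h4 : residue B (⟨(p : ℂ), hm⟩ : B) = 0 := by
      rw [residue_eq_zero_iff]; exact h2
    have h5 : (⟨(p : ℂ), hm⟩ : B) = ((p : ℕ) : B) := by
      apply Subtype.ext; simp
    rw [h5, map_natCast] at h4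
    exact h4
  have h6 := CharP.ringChar_of_prime_eq_zero hp.out h3
  rw [← h6]
  exact ringChar.charP _

theorem mem_of_pow {A : ValuationSubring ℂ} {z : ℂ} {n : ℕ} (hn : 0 < n) (hz : z ^ n = 1) :
    z ∈ A := by
  rcases A.mem_or_inv_mem z with h | h
  · exact h
  · have hz0 : z ≠ 0 := by
      intro h0
      rw [h0, zero_pow hn.ne'] at hz
      exact zero_ne_one hz
    have h1 : z = z⁻¹ ^ (n - 1) := by
      obtain ⟨m, rfl⟩ := Nat.exists_eq_add_of_lt hn
      have h2 : 0 + m + 1 - 1 = m := by omega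
      rw [h2, inv_pow]
      rw [zero_add, pow_succ] at hz
      exact eq_inv_of_mul_eq_one_right hz
    rw [h1]
    exact pow_mem h _

theorem scale (A : ValuationSubring ℂ) (a b : ℂ) (h : a ≠ 0 ∨ b ≠ 0) :
    ∃ s : ℂ, s ≠ 0 ∧ ∃ a1 b1 : A, a = s * a1 ∧ b = s * b1 ∧ (a1 = 1 ∨ b1 = 1) := by
  by_cases ha : a = 0
  · have hb : b ≠ 0 := h.resolve_left (fun h => h ha)
    exact ⟨b, hb, 0, 1, by simp [ha], by simp, Or.inr rfl⟩
  by_cases hb : b = 0
  · exact ⟨a, ha, 1, 0, by simp, by simp [hb], Or.inl rfl⟩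
  rcases A.mem_or_inv_mem (b / a) with h1 | h1
  · refine ⟨a, ha, 1, ⟨b / a, h1⟩, by simp, ?_, Or.inl rfl⟩
    simp only
    field_simp
  · rw [inv_div] at h1
    refine ⟨b, hb, ⟨a / b, h1⟩, 1, ?_, by simp, Or.inr rfl⟩
    simp only
    field_simp

variable {p : ℕ} [hp : Fact p.Prime]

theorem chi_pow (χ : MulChar (ZMod p) ℂ) {j : ZMod p} (hj : j ≠ 0) : χ j ^ (p - 1) = 1 := by
  rw [← map_pow, ZMod.pow_card_sub_one_eq_one hj, map_one]

theorem chi_mem (A : ValuationSubring ℂ) (χ : MulChar (ZMod p) ℂ) (j : ZMod p) : χ j ∈ A := by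
  by_cases hj : j = 0
  · rw [hj, MulChar.map_zero]; exact zero_mem _
  · exact mem_of_pow (Nat.sub_pos_of_lt hp.out.one_lt) (chi_pow χ hj)

/-- the reduction of a multiplicative character is a power -/
theorem char_red (A : ValuationSubring ℂ) [CharP (ResidueField A) p] (χ : MulChar (ZMod p) ℂ) :
    ∃ κ < p - 1, ∀ j : ZMod p, j ≠ 0 → residue A ⟨χ j, chi_mem A χ j⟩ =
      (ZMod.castHom (dvd_refl p) (ResidueField A)) j ^ κ := by
  set φ := ZMod.castHom (dvd_refl p) (ResidueField A) with hφ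
  have hp1 : 0 < p - 1 := Nat.sub_pos_of_lt hp.out.one_lt
  have : NeZero (p - 1) := ⟨hp1.ne'⟩
  obtain ⟨g, hg⟩ := IsCyclic.exists_generator (α := (ZMod p)ˣ)
  have hord : orderOf g = p - 1 := by
    rw [orderOf_eq_card_of_forall_mem_zpowers hg, Nat.card_eq_fintype_card, ZMod.card_units]
  have hprim : IsPrimitiveRoot (g : ZMod p) (p - 1) := by
    rw [← hord, IsPrimitiveRoot.coe_units_iff]
    exact IsPrimitiveRoot.orderOf g
  have hprim' : IsPrimitiveRoot (φ (g : ZMod p)) (p - 1) :=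
    hprim.map_of_injective φ.injective
  have hξ : (residue A ⟨χ (g : ZMod p), chi_mem A χ _⟩) ^ (p - 1) = 1 := by
    rw [← map_pow]
    have : (⟨χ (g : ZMod p), chi_mem A χ _⟩ : A) ^ (p - 1) = 1 := by
      apply Subtype.ext
      simp [chi_pow χ g.ne_zero]
    rw [this, map_one]
  obtain ⟨κ, hκ, hκ'⟩ := hprim'.eq_pow_of_pow_eq_one hξ
  refine ⟨κ, hκ, fun j hj => ?_⟩
  have hjm := hg (Units.mk0 j hj)
  rw [mem_zpowers_iff_mem_range_orderOf] at hjm
  obtain ⟨i, _, hi⟩ := Finset.mem_image.1 hjm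
  have hj' : j = (g : ZMod p) ^ i := by
    have := congrArg (Units.val) hi
    simpa using this.symm
  have h1 : (⟨χ j, chi_mem A χ j⟩ : A) = ⟨χ (g : ZMod p), chi_mem A χ _⟩ ^ i := by
    apply Subtype.ext
    simp [hj']
  rw [h1, map_pow, ← hκ', hj', map_pow, ← pow_mul, ← pow_mul, mul_comm]

theorem kappa_pos (A : ValuationSubring ℂ) [CharP (ResidueField A) p] {χ : MulChar (ZMod p) ℂ}
    (hχ : χ ≠ 1) {κ : ℕ} (h : ∀ j : ZMod p, j ≠ 0 → residue A ⟨χ j, chi_mem A χ j⟩ =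
      (ZMod.castHom (dvd_refl p) (ResidueField A)) j ^ κ) : κ ≠ 0 := by
  rintro rfl
  have h1 := MulChar.sum_eq_zero_of_ne_one hχ
  have h2 : ∑ j : ZMod p, (⟨χ j, chi_mem A χ j⟩ : A) = 0 := by
    apply Subtype.ext
    push_cast
    exact h1
  have h3 := congrArg (residue A) h2
  rw [map_sum, map_zero] at h3
  have h4 : ∀ j : ZMod p, residue A ⟨χ j, chi_mem A χ j⟩ = 1 - if j = 0 then 1 else 0 := by
    intro j
    split_ifs with hj
    · subst hj
      have : (⟨χ 0, chi_mem A χ 0⟩ : A) = 0 := Subtype.ext (MulChar.map_zero χ)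
      rw [this, map_zero]; ring
    · rw [h j hj]; ring
  rw [Finset.sum_congr rfl fun j _ => h4 j, Finset.sum_sub_distrib, Finset.sum_ite_eq',
    if_pos (Finset.mem_univ _), Finset.sum_const, Finset.card_univ, ZMod.card] at h3
  simp at h3

end Run7.h53.QR
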