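import Mathlib
import Pool.Agent.N392.WH.Zeros
import Pool.Agent.Run7.h53.QR.Expand
import Pool.Agent.Run7.h53.QR.Val

set_option autoImplicit false

/-! # No fiducial of the form `χ (j) (x + y η (j))` with `χ` nontrivial and even -/

namespace Run7.h53.QR

open Finset Complex IsLocalRing Pool.Agent.R503.SIC
open scoped ComplexConjugate

variable {p : ℕ} [hp : Fact p.Prime]

/-- the vector with entries `χ (j) (x + y η (j))` -/
noncomputable def V (χ : MulChar (ZMod p) ℂ) (x y : ℂ) (j : ZMod p) : ℂ := χ j * (x + y * ec j)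

omit hp in
theorem conj_chi (χ : MulChar (ZMod p) ℂ) (j : ZMod p) : conj (χ j) = χ⁻¹ j := by
  have := MulChar.star_apply' χ j
  simpa using this

theorem conj_V (χ : MulChar (ZMod p) ℂ) (x y : ℂ) (j : ZMod p) :
    conj (V χ x y j) = V χ⁻¹ (conj x) (conj y) j := by
  unfold V ec
  rw [map_mul, conj_chi]
  simp

theorem four_V {χ : MulChar (ZMod p) ℂ} {x y : ℂ} (h : Fid (fun j : ZMod p => V χ x y j))
    {c : ZMod p} (hc : c ≠ 0) :
    ∑ j : ZMod p, V χ x y j * V χ⁻¹ (conj x) (conj y) (j + 1) *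
      V χ⁻¹ (conj x) (conj y) (j + c) * V χ x y (j + 1 + c) = 0 := by
  have h1 := Pool.Agent.N392.WH.four_term h (a := 1) (k := c) one_ne_zero hc
  rw [← h1]
  refine Finset.sum_congr rfl fun j _ => ?_
  unfold Pool.Agent.N392.WH.FF
  simp only [map_mul, conj_V, conj_conj, inv_inv]
  have h2 : j + c + 1 = j + 1 + c := by ring
  rw [h2]; ring

theorem chi_mul_inv (χ : MulChar (ZMod p) ℂ) {j : ZMod p} (hj : j ≠ 0) : χ j * χ⁻¹ j = 1 := by
  rw [MulChar.inv_apply' χ j, ← map_mul, mul_inv_cancel₀ hj, map_one]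

/-- the quadratic character as a complex multiplicative character -/
noncomputable def qc : MulChar (ZMod p) ℂ := (quadraticChar (ZMod p)).ringHomComp (Int.castRingHom ℂ)

theorem qc_apply (j : ZMod p) : (qc : MulChar (ZMod p) ℂ) j = ec j := by
  unfold qc ec eta
  simp

theorem sum_shift {χ : MulChar (ZMod p) ℂ} (hχ : χ ≠ 1) :
    ∑ j : ZMod p, χ j * χ⁻¹ (j + 1) = -1 := by
  have h1 : ∑ j : ZMod p, χ j * χ⁻¹ (j + 1) = ∑ i : ZMod p, χ (-i) * χ⁻¹ (-i + 1) := by
    symm
    exact Fintype.sum_equiv (Equiv.neg _) _ _ fun i => rfl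
  have h2 : ∀ i : ZMod p, χ (-i) * χ⁻¹ (-i + 1) = χ (-1) * (χ i * χ⁻¹ (1 - i)) := by
    intro i
    have e1 : -i = -1 * i := by ring
    have e2 : -i + 1 = 1 - i := by ring
    rw [e2, e1, map_mul]; ring
  rw [h1, Finset.sum_congr rfl fun i _ => h2 i, ← Finset.mul_sum]
  have h3 := jacobiSum_nontrivial_inv hχ
  unfold jacobiSum at h3
  rw [h3]
  have h4 : χ (-1) * χ (-1) = 1 := by
    rw [← map_mul]; norm_num
  linear_combination -h4

/-- the sum `∑ j, χ (j) η (j) χ⁻¹ (j + 1)` -/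
noncomputable def J1 (χ : MulChar (ZMod p) ℂ) : ℂ := ∑ j : ZMod p, χ j * ec j * χ⁻¹ (j + 1)

/-- the sum `∑ j, χ (j) χ⁻¹ (j + 1) η (j + 1)` -/
noncomputable def J2 (χ : MulChar (ZMod p) ℂ) : ℂ := ∑ j : ZMod p, χ j * (χ⁻¹ (j + 1) * ec (j + 1))

theorem conj_J1 (hneg : eta (-1 : ZMod p) = -1) {χ : MulChar (ZMod p) ℂ} (hev : χ (-1) = 1) :
    conj (J1 χ) = - J2 χ := by
  unfold J1 J2
  rw [map_sum, ← Finset.sum_neg_distrib]
  refine Fintype.sum_equiv (Equiv.subLeft (-1)) _ _ fun j => ?_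
  simp only [Equiv.subLeft_apply, map_mul, conj_chi, inv_inv]
  have e1 : -1 - j = -1 * (j + 1) := by ring
  have e2 : -1 * (j + 1) + 1 = -1 * j := by ring
  have hev' : χ⁻¹ (-1) = 1 := by
    have := chi_mul_inv χ (j := -1) (neg_ne_zero.2 one_ne_zero)
    rwa [hev, one_mul] at this
  rw [e1, e2, map_mul, map_mul, hev, hev', neg_one_mul j, ec_neg hneg]
  have h3 : conj (ec j) = ec j := by unfold ec; simp
  rw [h3]; ring

theorem conj_J2 (hneg : eta (-1 : ZMod p) = -1) {χ : MulChar (ZMod p) ℂ} (hev : χ (-1) = 1) :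
    conj (J2 χ) = - J1 χ := by
  have h := congrArg conj (conj_J1 hneg hev)
  rw [conj_conj, map_neg] at h
  rw [h, neg_neg]

theorem ov_V (hneg : eta (-1 : ZMod p) = -1) {χ : MulChar (ZMod p) ℂ} (hχ : χ ≠ 1)
    (hev : χ (-1) = 1) (x y : ℂ) : ov (fun j : ZMod p => V χ x y j) 1 0 =
      -(x * conj x + y * conj y) + conj x * y * J1 χ + x * conj y * J2 χ := by
  have hχq : χ * qc ≠ 1 := by
    intro h
    have h1 := congrArg (fun ψ : MulChar (ZMod p) ℂ => ψ (-1)) h
    simp only [MulChar.mul_apply] at h1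
    rw [hev, qc_apply, MulChar.one_apply (isUnit_neg_one)] at h1
    unfold ec at h1
    rw [hneg] at h1
    norm_num at h1
  have h1 := sum_shift hχ
  have h2 := sum_shift hχq
  have hqinv : (qc : MulChar (ZMod p) ℂ)⁻¹ = qc := by
    ext j
    rw [MulChar.inv_apply' qc (j : ZMod p), qc_apply, qc_apply]
    unfold ec
    congr 1
    have h3 : eta (j : ZMod p) * eta ((j : ZMod p)⁻¹) = 1 := by
      rw [← eta_mul, mul_inv_cancel₀ j.ne_zero, eta_one]
    have h4 := eta_sq (j.ne_zero)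
    have h5 : eta (j : ZMod p) ≠ 0 := by
      intro h0; rw [h0] at h4; norm_num at h4
    exact mul_left_cancel₀ h5 (h3.trans h4.symm)
  rw [mul_inv, hqinv] at h2
  have h2' : ∑ j : ZMod p, χ j * ec j * (χ⁻¹ (j + 1) * ec (j + 1)) = -1 := by
    rw [← h2]
    refine Finset.sum_congr rfl fun j _ => ?_
    rw [MulChar.mul_apply, MulChar.mul_apply, qc_apply, qc_apply]
  unfold ov J1 J2
  have h3 : ∀ j : ZMod p, conj (V χ x y (j + 1)) * (e (0 * j) * V χ x y j) =
      (x * conj x) * (χ j * χ⁻¹ (j + 1)) + (conj x * y) * (χ j * ec j * χ⁻¹ (j + 1)) +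
      (x * conj y) * (χ j * (χ⁻¹ (j + 1) * ec (j + 1))) +
      (y * conj y) * (χ j * ec j * (χ⁻¹ (j + 1) * ec (j + 1))) := by
    intro j
    rw [zero_mul, e_zero, conj_V]
    unfold V
    ring
  rw [Finset.sum_congr rfl fun j _ => h3 j]
  simp only [Finset.sum_add_distrib, ← Finset.mul_sum]
  rw [h1, h2']
  ring

theorem sum_ne_zero (f : ZMod p → ℂ) (h0 : f 0 = 0) (s : ℂ) (t : ℂ) (h2 : p ≠ 2)
    (h : ∀ j, j ≠ 0 → f j = s + t * ec j) : ∑ j, f j = (p - 1) * s := by
  have h1 : ∀ j, f j = s + t * ec j - (if j = 0 then s else 0) := by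
    intro j
    split_ifs with hj
    · rw [hj, h0]
      have : ec (0 : ZMod p) = 0 := by unfold ec; rw [eta_zero]; simp
      rw [this]; ring
    · rw [h j hj]; ring
  rw [Finset.sum_congr rfl fun j _ => h1 j, Finset.sum_sub_distrib, Finset.sum_add_distrib,
    ← Finset.mul_sum, sum_ec h2, Finset.sum_ite_eq', if_pos (Finset.mem_univ _), Finset.sum_const,
    Finset.card_univ, ZMod.card, nsmul_eq_mul]
  ring

theorem rel_J (hneg : eta (-1 : ZMod p) = -1) {χ : MulChar (ZMod p) ℂ} (hχ : χ ≠ 1)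
    (hev : χ (-1) = 1) {x y : ℂ} (h : Fid (fun j : ZMod p => V χ x y j)) :
    (conj x * y * J1 χ + x * conj y * J2 χ) ^ 2 + p * (conj x * y + x * conj y) ^ 2 = 0 := by
  have h2 := ne_two hneg
  have hp2 := hp.out.two_le
  have hp1 : ((p : ℂ) - 1) ≠ 0 := by
    have : (p : ℂ) ≠ 1 := by exact_mod_cast hp.out.one_lt.ne'
    exact sub_ne_zero.2 this
  have hpp : ((p : ℂ) + 1) ≠ 0 := by
    have : ((p + 1 : ℕ) : ℂ) ≠ 0 := by exact_mod_cast Nat.succ_ne_zero p
    exact_mod_cast this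
  have hsq : ∀ j : ZMod p, j ≠ 0 → ec j * ec j = 1 := by
    intro j hj
    unfold ec
    have := eta_sq hj
    exact_mod_cast this
  have hnn : ∀ j : ZMod p, ((‖V χ x y j‖ : ℝ) : ℂ) ^ 2 = V χ x y j * conj (V χ x y j) := by
    intro j
    rw [Complex.mul_conj, Complex.normSq_eq_norm_sq]; push_cast; rfl
  have h0 : V χ x y 0 = 0 := by unfold V; rw [MulChar.map_zero]; ring
  have hval : ∀ j : ZMod p, j ≠ 0 → V χ x y j * conj (V χ x y j) =
      (x * conj x + y * conj y) + (conj x * y + x * conj y) * ec j := by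
    intro j hj
    rw [conj_V]
    unfold V
    have h3 := chi_mul_inv χ hj
    have h4 := hsq j hj
    linear_combination ((x + y * ec j) * (conj x + conj y * ec j)) * h3 + (y * conj y) * h4
  have hN : ((p : ℂ) - 1) * (x * conj x + y * conj y) = 1 := by
    have h3 := congrArg Complex.ofReal h.1
    push_cast at h3
    have h4 := sum_ne_zero (fun j => ((‖V χ x y j‖ : ℝ) : ℂ) ^ 2) (by simp [h0])
      _ (conj x * y + x * conj y) h2 (fun j hj => by simp only [hnn]; exact hval j hj)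
    rw [← h4]; exact h3
  have hF : ((p : ℂ) - 1) * ((p : ℂ) + 1) *
      ((x * conj x + y * conj y) ^ 2 + (conj x * y + x * conj y) ^ 2) = 2 := by
    have h3 := congrArg Complex.ofReal (Pool.Agent.N392.WH.fourth h)
    push_cast at h3
    have h4 := sum_ne_zero (fun j => ((‖V χ x y j‖ : ℝ) : ℂ) ^ 4) (by simp [h0])
      ((x * conj x + y * conj y) ^ 2 + (conj x * y + x * conj y) ^ 2)
      (2 * (x * conj x + y * conj y) * (conj x * y + x * conj y)) h2 (fun j hj => by
        have : ((‖V χ x y j‖ : ℝ) : ℂ) ^ 4 = (((‖V χ x y j‖ : ℝ) : ℂ) ^ 2) ^ 2 := by ring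
        simp only [this, hnn]
        rw [hval j hj]
        linear_combination (conj x * y + x * conj y) ^ 2 * hsq j hj)
    have h5 := h4.symm.trans h3
    rw [eq_div_iff hpp] at h5
    linear_combination h5
  have hO : ((p : ℂ) + 1) * (ov (fun j : ZMod p => V χ x y j) 1 0 *
      conj (ov (fun j : ZMod p => V χ x y j) 1 0)) = 1 := by
    have h3 := congrArg Complex.ofReal (h.2 1 0 (by simp))
    push_cast at h3
    rw [eq_div_iff hpp] at h3
    rw [Complex.mul_conj, Complex.normSq_eq_norm_sq]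
    push_cast
    linear_combination h3
  rw [ov_V hneg hχ hev] at hO
  simp only [map_add, map_mul, map_neg, conj_conj, conj_J1 hneg hev, conj_J2 hneg hev] at hO
  generalize (p : ℂ) = q at *
  generalize conj x = x' at *
  generalize conj y = y' at *
  generalize J1 χ = a at *
  generalize J2 χ = b at *
  have key : (q - 1) * (q + 1) * ((x' * y * a + x * y' * b) ^ 2 + q * (x' * y + x * y') ^ 2) = 0 := by
    linear_combination -(q - 1) * hO + q * hF - (q + 1) * ((q - 1) * (x * x' + y * y') + 1) * hN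
  exact (mul_eq_zero.1 key).resolve_left (mul_ne_zero hp1 hpp)

end Run7.h53.QR
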