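import Mathlib
import Pool.Agent.Run7.h53.QR.Char

set_option autoImplicit false

/-! # No fiducial of the form `χ (j) (x + y η (j))` with `χ` nontrivial and even: conclusion -/

namespace Run7.h53.QR

open Finset Complex IsLocalRing Pool.Agent.R503.SIC
open scoped ComplexConjugate

variable {p : ℕ} [hp : Fact p.Prime]

theorem no_small (hneg : eta (-1 : ZMod p) = -1) {m κ μ : ℕ} (hm : p = 2 * m + 1) (hodd : Odd m)
    (hκ2 : 2 ≤ κ) (hμ : 0 < μ) (hκμ : κ + μ = m) {χ : MulChar (ZMod p) ℂ} (hχ : χ ≠ 1)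
    (hev : χ (-1) = 1) (A : ValuationSubring ℂ) [CharP (ResidueField A) p]
    (hr : ∀ j : ZMod p, j ≠ 0 → residue A ⟨χ j, chi_mem A χ j⟩ =
      (ZMod.castHom (dvd_refl p) (ResidueField A)) j ^ κ) {x y : ℂ}
    (h : Fid (fun j : ZMod p => V χ x y j)) : False := by
  set φ := ZMod.castHom (dvd_refl p) (ResidueField A) with hφ
  -- reductions of the characters
  set cA : ZMod p → A := fun j => ⟨χ j, chi_mem A χ j⟩ with hcA
  set dA : ZMod p → A := fun j => ⟨χ⁻¹ j, chi_mem A χ⁻¹ j⟩ with hdA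
  have rc : ∀ j, residue A (cA j) = φ j ^ κ := by
    intro j
    rcases eq_or_ne j 0 with hj | hj
    · subst hj
      have : cA 0 = 0 := Subtype.ext (MulChar.map_zero χ)
      rw [this, map_zero, map_zero, zero_pow (by omega)]
    · exact hr j hj
  have rd : ∀ j, residue A (dA j) = φ j ^ (m + μ) := by
    intro j
    rcases eq_or_ne j 0 with hj | hj
    · subst hj
      have : dA 0 = 0 := Subtype.ext (MulChar.map_zero χ⁻¹)
      rw [this, map_zero, map_zero, zero_pow (by omega)]
    · have h1 : cA j * dA j = 1 := Subtype.ext (chi_mul_inv χ hj)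
      have h2 := congrArg (residue A) h1
      rw [map_mul, map_one, rc j] at h2
      have h3 : φ j ^ κ * φ j ^ (m + μ) = 1 := by
        rw [← pow_add, ← map_pow]
        have h4 : κ + (m + μ) = p - 1 := by omega
        rw [h4, ZMod.pow_card_sub_one_eq_one hj, map_one]
      have h5 : φ j ^ κ ≠ 0 := pow_ne_zero _ (by rwa [Ne, map_eq_zero])
      exact mul_left_cancel₀ h5 (h2.trans h3.symm)
  have re : ∀ j : ZMod p, residue A ((eta j : ℤ) : A) = φ j ^ m := by
    intro j
    rw [map_intCast, ← map_pow, ← eta_cast hm j, map_intCast]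
  -- scaling
  have hxy : x ≠ 0 ∨ y ≠ 0 := by
    by_contra hcon
    push Not at hcon
    have h1 := h.1
    simp only [V, hcon.1, hcon.2] at h1
    simp at h1
  have hxy' : conj x ≠ 0 ∨ conj y ≠ 0 := by
    simpa using hxy
  obtain ⟨s, hs, a, b, ha, hb, hab⟩ := scale A x y hxy
  obtain ⟨s', hs', a', b', ha', hb', hab'⟩ := scale A (conj x) (conj y) hxy'
  -- the four term relations
  have hT : ∀ c : ZMod p, c ≠ 0 → ∑ j : ZMod p,
      (cA j * (a + b * ((eta j : ℤ) : A))) * (dA (j + 1) * (a' + b' * ((eta (j + 1) : ℤ) : A))) *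
      (dA (j + c) * (a' + b' * ((eta (j + c) : ℤ) : A))) *
      (cA (j + 1 + c) * (a + b * ((eta (j + 1 + c) : ℤ) : A))) = 0 := by
    intro c hc
    have h1 := four_V h hc
    apply Subtype.ext
    push_cast
    have h2 : (s ^ 2 * s' ^ 2) * (∑ j : ZMod p,
        (χ j * (a + b * ((eta j : ℤ) : ℂ))) *
        (χ⁻¹ (j + 1) * (a' + b' * ((eta (j + 1) : ℤ) : ℂ))) *
        (χ⁻¹ (j + c) * (a' + b' * ((eta (j + c) : ℤ) : ℂ))) *
        (χ (j + 1 + c) * (a + b * ((eta (j + 1 + c) : ℤ) : ℂ)))) = 0 := by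
      rw [Finset.mul_sum, ← h1]
      refine Finset.sum_congr rfl fun j _ => ?_
      unfold V ec
      rw [ha', hb', ha, hb]
      ring
    exact (mul_eq_zero.1 h2).resolve_left (mul_ne_zero (pow_ne_zero 2 hs) (pow_ne_zero 2 hs'))
  -- the relation for the Jacobi sums
  have hJ : (a' * b * (∑ j : ZMod p, cA j * ((eta j : ℤ) : A) * dA (j + 1)) +
      a * b' * (∑ j : ZMod p, cA j * (dA (j + 1) * ((eta (j + 1) : ℤ) : A)))) ^ 2 +
      (p : A) * (a' * b + a * b') ^ 2 = 0 := by
    have h1 := rel_J hneg hχ hev h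
    unfold J1 J2 ec at h1
    apply Subtype.ext
    push_cast
    have h2 : (s ^ 2 * s' ^ 2) * ((a' * b * (∑ j : ZMod p, χ j * ((eta j : ℤ) : ℂ) * χ⁻¹ (j + 1)) +
        a * b' * (∑ j : ZMod p, χ j * (χ⁻¹ (j + 1) * ((eta (j + 1) : ℤ) : ℂ)))) ^ 2 +
        (p : ℂ) * (a' * b + a * b') ^ 2) = 0 := by
      rw [← h1, ha', hb', ha, hb]
      ring
    exact (mul_eq_zero.1 h2).resolve_left (mul_ne_zero (pow_ne_zero 2 hs) (pow_ne_zero 2 hs'))
  -- reduce
  have hJ' := congrArg (residue A) hJ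
  simp only [map_add, map_mul, map_pow, map_sum, rc, rd, re, map_natCast, map_zero] at hJ'
  have hp0 : ((p : ℕ) : ResidueField A) = 0 := CharP.cast_eq_zero _ _
  have s1 : ∑ j : ZMod p, φ j ^ κ * φ j ^ m * φ (j + 1) ^ (m + μ) =
      φ (-((m + μ).choose (2 * m - (κ + m)) : ZMod p)) := by
    rw [← S_two hm (κ + m) (m + μ) (by omega) (by omega), map_sum]
    refine Finset.sum_congr rfl fun j _ => ?_
    rw [map_mul, map_pow, map_pow, pow_add (φ j) κ m]
  have s2 : ∑ j : ZMod p, φ j ^ κ * (φ (j + 1) ^ (m + μ) * φ (j + 1) ^ m) = 0 := by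
    have h1 := S_two_zero hm κ μ (by omega)
    rw [← map_zero φ, ← h1, map_sum]
    refine Finset.sum_congr rfl fun j _ => ?_
    rw [map_mul, map_pow, map_pow, ← pow_add]
    have h2 : m + μ + m = μ + 2 * m := by ring
    rw [h2, ← map_pow φ (j + 1) (μ + 2 * m), pow_red hm μ hμ, map_pow]
  simp only [map_add] at s1 s2
  rw [hp0, zero_mul, add_zero] at hJ'
  have hz : residue A a' * residue A b = 0 := by
    have h1 : residue A a' * residue A b * φ (-((m + μ).choose (2 * m - (κ + m)) : ZMod p)) = 0 := by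
      have h2 := pow_eq_zero_iff (two_ne_zero) |>.1 hJ'
      rw [← s1]
      rw [s2, mul_zero, add_zero] at h2
      exact h2
    have h3 : φ (-((m + μ).choose (2 * m - (κ + m)) : ZMod p)) ≠ 0 := by
      rw [Ne, map_eq_zero, neg_eq_zero]
      exact choose_ne (by omega) (by omega)
    exact (mul_eq_zero.1 h1).resolve_right h3
  have hab1 : residue A a ≠ 0 ∨ residue A b ≠ 0 := by
    rcases hab with h1 | h1
    · left; rw [h1, map_one]; exact one_ne_zero
    · right; rw [h1, map_one]; exact one_ne_zero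
  have hab1' : residue A a' ≠ 0 ∨ residue A b' ≠ 0 := by
    rcases hab' with h1 | h1
    · left; rw [h1, map_one]; exact one_ne_zero
    · right; rw [h1, map_one]; exact one_ne_zero
  refine charp_core hm hodd hκ2 hμ hκμ φ (residue A a) (residue A b) (residue A a') (residue A b')
    hab1 hab1' hz fun c hc => ?_
  have h1 := congrArg (residue A) (hT c hc)
  simp only [map_add, map_mul, map_sum, rc, rd, re, map_zero] at h1
  rw [← h1]
  refine Finset.sum_congr rfl fun j _ => ?_
  simp only [map_add]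

end Run7.h53.QR
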