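import Mathlib

set_option autoImplicit false

/-! # The exclusion of dimension eleven: the algebra -/

namespace Run7.h53.QR

open Complex
open scoped ComplexConjugate

theorem eleven_alg (x y z : ℂ) (hy : y ≠ 0)
    (E3 : 11 * x ^ 2 * conj x ^ 2 - (y ^ 2 * conj x ^ 2 + x ^ 2 * conj y ^ 2 +
      4 * x * y * conj x * conj y) + 3 * y ^ 2 * conj y ^ 2 +
      2 * z * (conj x ^ 2 * x + conj y ^ 2 * x + 2 * y * conj x * conj y) +
      2 * conj z * (x ^ 2 * conj x - y ^ 2 * conj x) = 0)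
    (E5 : 11 * x ^ 2 * conj x ^ 2 - (y ^ 2 * conj x ^ 2 + x ^ 2 * conj y ^ 2 +
      4 * x * y * conj x * conj y) - 5 * y ^ 2 * conj y ^ 2 +
      2 * z * (conj x ^ 2 * x + conj y ^ 2 * x - 2 * y * conj x * conj y) +
      2 * conj z * (x ^ 2 * conj x - y ^ 2 * conj x) = 0)
    (T1 : 11 * x ^ 2 * conj x ^ 2 + 10 * x ^ 2 * conj y ^ 2 - 4 * x * y * conj x * conj y -
      conj x ^ 2 * y ^ 2 + 2 * z * x * (conj x ^ 2 + conj y ^ 2) - 4 * z * conj x * y * conj y +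
      (2 * conj x * conj z + conj z ^ 2) * (x ^ 2 - y ^ 2) = 0)
    (N : (x + z) * (conj x + conj z) + 10 * (x * conj x + y * conj y) = 1)
    (F : 6 * (((x + z) * (conj x + conj z)) ^ 2 + 5 * ((x + y) * (conj x + conj y)) ^ 2 +
      5 * ((x - y) * (conj x - conj y)) ^ 2) = 1) : False := by
  obtain ⟨X, hX0, hX⟩ : ∃ X : ℝ, 0 ≤ X ∧ x * conj x = (X : ℂ) :=
    ⟨normSq x, normSq_nonneg x, mul_conj x⟩
  obtain ⟨Y, hYp, hY⟩ : ∃ Y : ℝ, 0 < Y ∧ y * conj y = (Y : ℂ) :=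
    ⟨normSq y, normSq_pos.2 hy, mul_conj y⟩
  have hYc : (Y : ℂ) ≠ 0 := by exact_mod_cast hYp.ne'
  -- z conj x = - Y
  have hw : z * conj x = -(Y : ℂ) := by
    have h1 : (8 * (Y : ℂ)) * (Y + z * conj x) = 0 := by
      rw [← hY]
      linear_combination E3 - E5
    have h2 := (mul_eq_zero.1 h1).resolve_left (mul_ne_zero (by norm_num) hYc)
    linear_combination h2
  have hw' : conj z * x = -(Y : ℂ) := by
    have := congrArg conj hw
    simpa using this
  have hx : x ≠ 0 := by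
    intro h
    rw [h, mul_zero] at hw'
    exact hYc (by linear_combination hw')
  have hXp : 0 < X := by
    have h1 : (X : ℂ) ≠ 0 := by
      rw [← hX]
      exact mul_ne_zero hx (by simpa using hx)
    have h2 : X ≠ 0 := by exact_mod_cast h1
    exact lt_of_le_of_ne hX0 (Ne.symm h2)
  have hXc : (X : ℂ) ≠ 0 := by exact_mod_cast hXp.ne'
  set x' := conj x with hx'
  set y' := conj y with hy'
  set z' := conj z with hz'
  have cx : conj x' = x := by rw [hx', conj_conj]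
  have cy : conj y' = y := by rw [hy', conj_conj]
  have cz : conj z' = z := by rw [hz', conj_conj]
  -- the sum
  have S : 11 * (X : ℂ) ^ 2 - (y ^ 2 * x' ^ 2 + x ^ 2 * y' ^ 2) - 8 * X * Y - Y ^ 2 +
      2 * (z * x * y' ^ 2 - z' * x' * y ^ 2) = 0 := by
    rw [← hX]
    linear_combination (1 / 2 : ℂ) * E3 + (1 / 2 : ℂ) * E5 - 2 * x * x' * hw - 2 * x * x' * hw' +
      (4 * x * x' + (y * y' + Y)) * hY
  have S' : 11 * (X : ℂ) ^ 2 - (y ^ 2 * x' ^ 2 + x ^ 2 * y' ^ 2) - 8 * X * Y - Y ^ 2 -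
      2 * (z * x * y' ^ 2 - z' * x' * y ^ 2) = 0 := by
    have := congrArg conj S
    simp only [map_add, map_sub, map_mul, map_pow, map_ofNat, conj_ofReal, map_zero, ← hx', ← hy',
      ← hz', cx, cy, cz] at this
    linear_combination this
  have hv : z * x * y' ^ 2 = z' * x' * y ^ 2 := by
    linear_combination (1 / 4 : ℂ) * S - (1 / 4 : ℂ) * S'
  have hS : 11 * (X : ℂ) ^ 2 - (y ^ 2 * x' ^ 2 + x ^ 2 * y' ^ 2) - 8 * X * Y - Y ^ 2 = 0 := by
    linear_combination (1 / 2 : ℂ) * S + (1 / 2 : ℂ) * S'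
  have hk : y ^ 2 * x' ^ 2 = x ^ 2 * y' ^ 2 := by
    have h1 : (Y : ℂ) * (y ^ 2 * x' ^ 2) = Y * (x ^ 2 * y' ^ 2) := by
      linear_combination (x * x') * hv - x ^ 2 * y' ^ 2 * hw + x' ^ 2 * y ^ 2 * hw'
    exact mul_left_cancel₀ hYc h1
  have hkk : (x ^ 2 * y' ^ 2 - X * Y) * (x ^ 2 * y' ^ 2 + X * Y) = 0 := by
    rw [← hX, ← hY]
    linear_combination -(x ^ 2 * y' ^ 2) * hk
  obtain ⟨t, ht⟩ : ∃ t : ℂ, t = z' ^ 2 * y ^ 2 := ⟨_, rfl⟩
  have ht2 : (X : ℂ) ^ 2 * t = Y ^ 2 * (x ^ 2 * y' ^ 2) := by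
    rw [ht, ← hX]
    linear_combination (y ^ 2 * x' ^ 2) * (z' * x - Y) * hw' + (Y : ℂ) ^ 2 * hk
  have hT : 11 * (X : ℂ) ^ 2 + 9 * (x ^ 2 * y' ^ 2) - 8 * X * Y + 5 * Y ^ 2 - t = 0 := by
    rw [ht, ← hX]
    linear_combination T1 - 2 * x * x' * hw + 4 * y * y' * hw - 2 * x * x' * hw' - 2 * hv -
      (z' * x - Y) * hw' + hk + (4 * x * x' - 4 * Y) * hY
  rcases mul_eq_zero.1 hkk with h | h
  · -- first sign
    have hk1 : x ^ 2 * y' ^ 2 = X * Y := by linear_combination h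
    rw [hk, hk1] at hS
    have hS' : 11 * X ^ 2 - (X * Y + X * Y) - 8 * X * Y - Y ^ 2 = 0 := by exact_mod_cast hS
    have h1 : (11 * X + Y) * (X - Y) = 0 := by linear_combination hS'
    have h2 : X = Y := by
      rcases mul_eq_zero.1 h1 with h3 | h3
      · nlinarith
      · linarith
    rw [hk1] at ht2 hT
    subst h2
    have h3 : t = X ^ 2 := by
      have h4 : (X : ℂ) ^ 2 * t = X ^ 2 * X ^ 2 := by linear_combination ht2
      exact mul_left_cancel₀ (pow_ne_zero 2 hXc) h4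
    rw [h3] at hT
    have h5 : 11 * X ^ 2 + 9 * (X * X) - 8 * X * X + 5 * X ^ 2 - X ^ 2 = 0 := by
      exact_mod_cast hT
    nlinarith
  · have hk1 : x ^ 2 * y' ^ 2 = -(X * Y) := by linear_combination h
    rw [hk, hk1] at hS
    have hS' : 11 * X ^ 2 - (-(X * Y) + -(X * Y)) - 8 * X * Y - Y ^ 2 = 0 := by exact_mod_cast hS
    have hq : Y ^ 2 = 11 * X ^ 2 - 6 * X * Y := by linear_combination -hS'
    have hqc : (Y : ℂ) ^ 2 = 11 * X ^ 2 - 6 * X * Y := by exact_mod_cast hq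
    have hZ : z * z' = 11 * X - 6 * Y := by
      have h0 : (X : ℂ) * (z * z') = Y ^ 2 := by
        rw [← hX]
        linear_combination (z' * x) * hw - Y * hw'
      have h1 : (X : ℂ) * (z * z') = X * (11 * X - 6 * Y) := by
        rw [h0, hqc]; ring
      exact mul_left_cancel₀ hXc h1
    have hA : (x + z) * (x' + z') = 12 * X - 8 * Y := by
      linear_combination hX + hw + hw' + hZ
    have hN : 22 * X + 2 * Y = 1 := by
      have : 22 * (X : ℂ) + 2 * Y = 1 := by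
        linear_combination N - hA - 10 * hX - 10 * hY
      exact_mod_cast this
    have hB : ((x + y) * (x' + y')) ^ 2 + ((x - y) * (x' - y')) ^ 2 = 2 * (X + Y) ^ 2 := by
      rw [← hX, ← hY]
      have hk2 : y ^ 2 * x' ^ 2 = -(x * x' * (y * y')) := by rw [hk, hk1, hX, hY]
      have hk3 : x ^ 2 * y' ^ 2 = -(x * x' * (y * y')) := by rw [hk1, hX, hY]
      linear_combination 2 * hk2 + 2 * hk3
    have hF : 6 * ((12 * X - 8 * Y) ^ 2 + 10 * (X + Y) ^ 2) = 1 := by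
      have : 6 * ((12 * (X : ℂ) - 8 * Y) ^ 2 + 10 * (X + Y) ^ 2) = 1 := by
        rw [hA] at F
        linear_combination F - 30 * hB
      exact_mod_cast this
    have h1 : 11 * X ^ 2 - 28 * X * Y + 11 * Y ^ 2 = 0 := by
      have h2 : (22 * X + 2 * Y) ^ 2 = 1 := by rw [hN]; norm_num
      linear_combination (1 / 40 : ℝ) * (hF - h2)
    have h2 : X * (132 * X - 94 * Y) = 0 := by linear_combination h1 - 11 * hq
    have h3 : 132 * X - 94 * Y = 0 := (mul_eq_zero.1 h2).resolve_left hXp.ne'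
    have h4 : Y = 66 / 47 * X := by linarith
    rw [h4] at hq
    nlinarith

end Run7.h53.QR
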