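import Mathlib
import Pool.Agent.N392.WH.Zeros
import Pool.Agent.Results.MP_1c78a5_mp.ParitySymmetry
import Pool.Agent.Run7.h53.QR.Expand
import Pool.Agent.Run7.h53.QR.Eleven

set_option autoImplicit false

/-! # Fiducials depending on the quadratic character: the dimensions -/

namespace Run7.h53.QR

open Finset Complex Pool.Agent.R503.SIC
open scoped ComplexConjugate

/-- a fiducial vector in dimension at least four which is fixed by the parity operator -/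
theorem parity {d : ℕ} [NeZero d] (hd : 4 ≤ d) {ψ : ZMod d → ℂ} (h : Fid ψ)
    (hpar : ∀ j, ψ (-j) = ψ j) : d = 8 ∨ d = 24 ∨ d = 48 := by
  refine Pool.Agent.Results.MP_1c78a5_mp.ParitySymmetry.part1 hd ψ ⟨?_, ?_⟩ 1 ?_
  · unfold Pool.Agent.Results.MP_1c78a5_mp.ParitySymmetry.ip
    have h1 := h.1
    have h2 : ∀ j, starRingEnd ℂ (ψ j) * ψ j = ((‖ψ j‖ ^ 2 : ℝ) : ℂ) := fun j =>
      conj_mul_self' (ψ j)
    rw [Finset.sum_congr rfl fun j _ => h2 j, ← Complex.ofReal_sum, h1]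
    simp
  · intro a b hab
    rw [← h.2 a b hab, Pool.Agent.Results.MP_1c78a5_mp.ParitySymmetry.ip_D]
    congr 2
    unfold ov
    symm
    refine Fintype.sum_equiv (Equiv.addRight a) _ _ fun j => ?_
    simp only [Equiv.coe_addRight, add_sub_cancel_right]
    unfold e
    ring
  · funext j
    unfold Pool.Agent.Results.MP_1c78a5_mp.ParitySymmetry.P
    rw [hpar j]; simp

variable {p : ℕ} [hp : Fact p.Prime]

theorem structure_W (hneg : eta (-1 : ZMod p) = -1) {ψ : ZMod p → ℂ}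
    (hinv : ∀ h : ZMod p, h ≠ 0 → IsSquare h → ∀ j, ψ (h * j) = ψ j) :
    ∃ x y z : ℂ, ∀ j, ψ j = W x y z j := by
  refine ⟨(ψ 1 + ψ (-1)) / 2, (ψ 1 - ψ (-1)) / 2, ψ 0 - (ψ 1 + ψ (-1)) / 2, fun j => ?_⟩
  unfold W ec
  by_cases h0 : j = 0
  · rw [h0, if_pos rfl, eta_zero]; push_cast; ring
  rw [if_neg h0]
  rcases eta_cases h0 with h | h
  · have h1 : IsSquare j := by
      unfold eta at h
      exact (quadraticChar_one_iff_isSquare h0).1 h
    have h2 := hinv j h0 h1 1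
    rw [mul_one] at h2
    rw [h, h2]; push_cast; ring
  · have h3 : eta (-j) = 1 := by rw [eta_neg hneg, h]; norm_num
    have h1 : IsSquare (-j) := by
      unfold eta at h3
      exact (quadraticChar_one_iff_isSquare (neg_ne_zero.2 h0)).1 h3
    have h2 := hinv (-j) (neg_ne_zero.2 h0) h1 (-1)
    rw [neg_mul_neg, mul_one] at h2
    rw [h, h2]; push_cast; ring

theorem conj_W (x y z : ℂ) (j : ZMod p) : conj (W x y z j) = W (conj x) (conj y) (conj z) j := by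
  unfold W ec
  split_ifs <;> simp

theorem four_W {x y z : ℂ} (h : Fid (fun j : ZMod p => W x y z j)) {c : ZMod p} (hc : c ≠ 0) :
    ∑ j : ZMod p, W x y z j * W (conj x) (conj y) (conj z) (j + 1) *
      W (conj x) (conj y) (conj z) (j + c) * W x y z (j + 1 + c) = 0 := by
  have h1 := Pool.Agent.N392.WH.four_term h (a := 1) (k := c) one_ne_zero hc
  rw [← h1]
  refine Finset.sum_congr rfl fun j _ => ?_
  unfold Pool.Agent.N392.WH.FF
  simp only [map_mul, conj_W, conj_conj]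
  have : j + c + 1 = j + 1 + c := by ring
  rw [this]; ring

theorem real_rel (hneg : eta (-1 : ZMod p) = -1) {x y z : ℂ}
    (h : Fid (fun j : ZMod p => W x y z j)) {c : ZMod p} (c0 : c ≠ 0) (c1 : c ≠ 1)
    (c2 : c ≠ -1) :
    p * x ^ 2 * conj x ^ 2 - (y ^ 2 * conj x ^ 2 + x ^ 2 * conj y ^ 2 +
      4 * x * y * conj x * conj y) + 2 * x * conj x * (z * conj x + conj z * x) +
      y ^ 2 * conj y ^ 2 * (H c : ℤ) + y * conj y * (z * conj x + conj z * x) * (tau c : ℤ) = 0 := by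
  have h1 := four_W h c0
  have h2 := congrArg conj h1
  rw [map_sum, map_zero] at h2
  simp only [map_mul, conj_W, conj_conj] at h2
  rw [expand hneg c0 c1 c2] at h1 h2
  have h3 : ((tau c : ℤ) : ℂ) = ec (c + 1) * (1 + ec c) - ec (c - 1) * (1 - ec c) := by
    unfold tau ec; push_cast; ring
  rw [h3]
  linear_combination (1 / 2 : ℂ) * h1 + (1 / 2 : ℂ) * h2

theorem H_eq (hneg : eta (-1 : ZMod p) = -1) {x y z : ℂ} (hy : y ≠ 0)
    (h : Fid (fun j : ZMod p => W x y z j)) {c c' : ZMod p} (c0 : c ≠ 0) (c1 : c ≠ 1)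
    (c2 : c ≠ -1) (c0' : c' ≠ 0) (c1' : c' ≠ 1) (c2' : c' ≠ -1) (ht : tau c = tau c') :
    H c = H c' := by
  have h1 := real_rel hneg h c0 c1 c2
  have h2 := real_rel hneg h c0' c1' c2'
  rw [ht] at h1
  have h3 : (y ^ 2 * conj y ^ 2) * (((H c : ℤ) : ℂ) - ((H c' : ℤ) : ℂ)) = 0 := by
    linear_combination h1 - h2
  have hy' : conj y ≠ 0 := by simpa using hy
  have h4 := (mul_eq_zero.1 h3).resolve_left
    (mul_ne_zero (pow_ne_zero 2 hy) (pow_ne_zero 2 hy'))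
  have h5 : ((H c : ℤ) : ℂ) = ((H c' : ℤ) : ℂ) := sub_eq_zero.1 h4
  exact_mod_cast h5

theorem tau_cases {c : ZMod p} (c0 : c ≠ 0) (c1 : c ≠ 1) (c2 : c ≠ -1) :
    tau c = 2 ∨ tau c = -2 := by
  have h1 := eta_cases c0
  have h2 := eta_cases (a := c + 1) (fun h => c2 (by linear_combination h))
  have h3 := eta_cases (a := c - 1) (fun h => c1 (by linear_combination h))
  unfold tau
  rcases h1 with h1 | h1 <;> rcases h2 with h2 | h2 <;> rcases h3 with h3 | h3 <;>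
    rw [h1, h2, h3] <;> norm_num

theorem linear_rel (hneg : eta (-1 : ZMod p) = -1) {x y z : ℂ} (hy : y ≠ 0)
    (h : Fid (fun j : ZMod p => W x y z j)) : ∃ α β : ℤ,
    ∀ c : ZMod p, c ≠ 0 → c ≠ 1 → c ≠ -1 → 4 * H c = α + β * tau c := by
  have key : ∀ t : ℤ, ∃ h0 : ℤ, ∀ c : ZMod p, c ≠ 0 → c ≠ 1 → c ≠ -1 → tau c = t → H c = h0 := by
    intro t
    by_cases hex : ∃ c : ZMod p, c ≠ 0 ∧ c ≠ 1 ∧ c ≠ -1 ∧ tau c = t
    · obtain ⟨c, c0, c1, c2, hc⟩ := hex
      exact ⟨H c, fun c' c0' c1' c2' hc' =>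
        H_eq hneg hy h c0' c1' c2' c0 c1 c2 (hc'.trans hc.symm)⟩
    · exact ⟨0, fun c' c0' c1' c2' hc' => absurd ⟨c', c0', c1', c2', hc'⟩ hex⟩
  obtain ⟨hp1, hp1'⟩ := key 2
  obtain ⟨hm1, hm1'⟩ := key (-2)
  refine ⟨2 * (hp1 + hm1), hp1 - hm1, fun c c0 c1 c2 => ?_⟩
  rcases tau_cases c0 c1 c2 with ht | ht
  · rw [hp1' c c0 c1 c2 ht, ht]; ring
  · rw [hm1' c c0 c1 c2 ht, ht]; ring

end Run7.h53.QR
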