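import Mathlib
import Pool.Agent.Run7.h53.QR.Main

set_option autoImplicit false

/-! # Fiducials depending on the quadratic character: dimension eleven and the conclusion -/

namespace Run7.h53.QR

open Finset Complex Pool.Agent.R503.SIC
open scoped ComplexConjugate

section eleven

instance fact11 : Fact (Nat.Prime 11) := ⟨by norm_num⟩

theorem sum11 {M : Type*} [AddCommMonoid M] (f : ZMod 11 → M) :
    ∑ j, f j = f 0 + f 1 + f 2 + f 3 + f 4 + f 5 + f 6 + f 7 + f 8 + f 9 + f 10 := by
  have h : ∀ g : Fin 11 → M, ∑ j, g j =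
      g 0 + g 1 + g 2 + g 3 + g 4 + g 5 + g 6 + g 7 + g 8 + g 9 + g 10 := by
    intro g
    simp only [Fin.sum_univ_castSucc, Fin.sum_univ_zero, zero_add]
    rfl
  exact h f

theorem W11 (x y z : ℂ) : W x y z (0 : ZMod 11) = x + z ∧ W x y z (1 : ZMod 11) = x + y ∧
    W x y z (2 : ZMod 11) = x - y ∧ W x y z (3 : ZMod 11) = x + y ∧
    W x y z (4 : ZMod 11) = x + y ∧ W x y z (5 : ZMod 11) = x + y ∧
    W x y z (6 : ZMod 11) = x - y ∧ W x y z (7 : ZMod 11) = x - y ∧
    W x y z (8 : ZMod 11) = x - y ∧ W x y z (9 : ZMod 11) = x + y ∧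
    W x y z (10 : ZMod 11) = x - y := by
  have e0 : eta (0 : ZMod 11) = 0 := by unfold eta quadraticChar; decide
  have e1 : eta (1 : ZMod 11) = 1 := by unfold eta quadraticChar; decide
  have e2 : eta (2 : ZMod 11) = -1 := by unfold eta quadraticChar; decide
  have e3 : eta (3 : ZMod 11) = 1 := by unfold eta quadraticChar; decide
  have e4 : eta (4 : ZMod 11) = 1 := by unfold eta quadraticChar; decide
  have e5 : eta (5 : ZMod 11) = 1 := by unfold eta quadraticChar; decide
  have e6 : eta (6 : ZMod 11) = -1 := by unfold eta quadraticChar; decide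
  have e7 : eta (7 : ZMod 11) = -1 := by unfold eta quadraticChar; decide
  have e8 : eta (8 : ZMod 11) = -1 := by unfold eta quadraticChar; decide
  have e9 : eta (9 : ZMod 11) = 1 := by unfold eta quadraticChar; decide
  have e10 : eta (10 : ZMod 11) = -1 := by unfold eta quadraticChar; decide
  unfold W ec
  rw [e0, e1, e2, e3, e4, e5, e6, e7, e8, e9, e10, if_pos rfl, if_neg (by decide),
    if_neg (by decide), if_neg (by decide), if_neg (by decide), if_neg (by decide),
    if_neg (by decide), if_neg (by decide), if_neg (by decide), if_neg (by decide),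
    if_neg (by decide)]
  push_cast
  refine ⟨?_, ?_, ?_, ?_, ?_, ?_, ?_, ?_, ?_, ?_, ?_⟩ <;> ring

theorem eleven {x y z : ℂ} (hy : y ≠ 0) (h : Fid (fun j : ZMod 11 => W x y z j)) : False := by
  have e2 : eta (2 : ZMod 11) = -1 := by unfold eta quadraticChar; decide
  have e3 : eta (3 : ZMod 11) = 1 := by unfold eta quadraticChar; decide
  have e4 : eta (4 : ZMod 11) = 1 := by unfold eta quadraticChar; decide
  have e5 : eta (5 : ZMod 11) = 1 := by unfold eta quadraticChar; decide
  have e6 : eta (6 : ZMod 11) = -1 := by unfold eta quadraticChar; decide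
  have e10 : eta (-1 : ZMod 11) = -1 := by unfold eta quadraticChar; decide
  have H3 : H (3 : ZMod 11) = 3 := by unfold H eta quadraticChar; decide
  have H5 : H (5 : ZMod 11) = -5 := by unfold H eta quadraticChar; decide
  have a31 : (3 : ZMod 11) + 1 = 4 := by decide
  have a32 : (3 : ZMod 11) - 1 = 2 := by decide
  have a51 : (5 : ZMod 11) + 1 = 6 := by decide
  have a52 : (5 : ZMod 11) - 1 = 4 := by decide
  have E3 := four_W h (c := 3) (by decide)
  rw [expand e10 (by decide) (by decide) (by decide), H3, a31, a32] at E3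
  have E5 := four_W h (c := 5) (by decide)
  rw [expand e10 (by decide) (by decide) (by decide), H5, a51, a52] at E5
  unfold ec at E3 E5
  rw [e2, e3, e4] at E3
  rw [e4, e5, e6] at E5
  push_cast at E3 E5
  have T1 := four_W h (c := 1) (by decide)
  have N := h.1
  have F := Pool.Agent.N392.WH.fourth h
  obtain ⟨w0, w1, w2, w3, w4, w5, w6, w7, w8, w9, w10⟩ := W11 x y z
  obtain ⟨v0, v1, v2, v3, v4, v5, v6, v7, v8, v9, v10⟩ := W11 (conj x) (conj y) (conj z)
  rw [sum11] at T1 N F
  have b1 : (1 : ZMod 11) + 1 = 2 := by decide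
  have b2 : (2 : ZMod 11) + 1 = 3 := by decide
  have b4 : (4 : ZMod 11) + 1 = 5 := by decide
  have b6 : (6 : ZMod 11) + 1 = 7 := by decide
  have b7 : (7 : ZMod 11) + 1 = 8 := by decide
  have b8 : (8 : ZMod 11) + 1 = 9 := by decide
  have b9 : (9 : ZMod 11) + 1 = 10 := by decide
  have b10 : (10 : ZMod 11) + 1 = 0 := by decide
  rw [zero_add, b1, b2, a31, b4, a51, b6, b7, b8, b9, b10, zero_add] at T1
  rw [w0, w1, w2, w3, w4, w5, w6, w7, w8, w9, w10, v0, v1, v2, v3, v4, v5, v6, v7, v8, v9,
    v10] at T1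
  simp only [w0, w1, w2, w3, w4, w5, w6, w7, w8, w9, w10] at N F
  have hn : ∀ u : ℂ, ((‖u‖ : ℝ) : ℂ) ^ 2 = u * conj u := fun u => by
    rw [Complex.mul_conj, Complex.normSq_eq_norm_sq]; push_cast; rfl
  have N' := congrArg (Complex.ofReal) N
  have F' := congrArg (Complex.ofReal) F
  push_cast at N' F'
  have hn4 : ∀ u : ℂ, ((‖u‖ : ℝ) : ℂ) ^ 4 = (u * conj u) ^ 2 := fun u => by
    rw [← hn]; ring
  simp only [hn, hn4, map_add, map_sub] at N' F'
  refine eleven_alg x y z hy ?_ ?_ ?_ ?_ ?_
  · linear_combination E3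
  · linear_combination E5
  · linear_combination T1
  · linear_combination N'
  · linear_combination 6 * F'

end eleven

theorem dims {p : ℕ} [hp : Fact p.Prime] (h5 : 5 ≤ p) {ψ : ZMod p → ℂ} (h : Fid ψ)
    (hinv : ∀ h : ZMod p, h ≠ 0 → IsSquare h → ∀ j, ψ (h * j) = ψ j) : p = 7 ∨ p = 19 := by
  have npar : ¬ ∀ j, ψ (-j) = ψ j := by
    intro hpar
    rcases parity (by omega) h hpar with h1 | h1 | h1 <;>
      exact absurd (h1 ▸ hp.out) (by norm_num)
  have hneg : eta (-1 : ZMod p) = -1 := by
    rcases eta_cases (p := p) (a := -1) (neg_ne_zero.2 one_ne_zero) with h1 | h1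
    · exfalso
      apply npar
      intro j
      have h2 : IsSquare (-1 : ZMod p) := by
        unfold eta at h1
        exact (quadraticChar_one_iff_isSquare (neg_ne_zero.2 one_ne_zero)).1 h1
      have := hinv (-1) (neg_ne_zero.2 one_ne_zero) h2 j
      rwa [neg_one_mul] at this
    · exact h1
  obtain ⟨x, y, z, hW⟩ := structure_W hneg hinv
  have hW' : ψ = fun j => W x y z j := funext hW
  have hy : y ≠ 0 := by
    intro hy
    apply npar
    intro j
    rw [hW, hW, hy]
    unfold W
    simp
  rw [hW'] at h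
  obtain ⟨m, hm⟩ : ∃ m, p = 2 * m + 1 := by
    rcases hp.out.eq_two_or_odd' with h1 | h1
    · omega
    · exact h1
  have hodd : Odd m := by
    by_contra hev
    rw [Nat.not_odd_iff_even] at hev
    have h1 := eta_cast hm (-1)
    rw [hneg, Even.neg_one_pow hev] at h1
    push_cast at h1
    have h2 : ((2 : ℕ) : ZMod p) = 0 := by
      push_cast
      linear_combination -h1
    rw [ZMod.natCast_eq_zero_iff] at h2
    have := Nat.le_of_dvd (by norm_num) h2
    omega
  rcases Nat.lt_or_ge m 7 with hm7 | hm7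
  · have hm' : m = 3 ∨ m = 5 := by
      rcases hodd with ⟨k, hk⟩
      omega
    rcases hm' with h1 | h1
    · left; omega
    · exfalso
      have h11 : p = 11 := by omega
      subst h11
      exact eleven hy h
  · right
    obtain ⟨α, β, hab⟩ := linear_rel hneg hy h
    exact modp hm hodd hm7 α β hab

end Run7.h53.QR
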