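import Mathlib
import Pool.Agent.Run7.h53.QR.CharMain
import Pool.Agent.Run7.h53.QR.Dim

set_option autoImplicit false

/-! # Fiducials which are eigenvectors of the dilations by squares -/

namespace Run7.h53.QR

open Finset Complex IsLocalRing Pool.Agent.R503.SIC
open scoped ComplexConjugate

/-- a fiducial vector in dimension at least four which is an eigenvector of the parity operator -/
theorem parity' {d : ℕ} [NeZero d] (hd : 4 ≤ d) {ψ : ZMod d → ℂ} (h : Fid ψ) (lam : ℂ)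
    (hpar : ∀ j, ψ (-j) = lam * ψ j) : d = 8 ∨ d = 24 ∨ d = 48 := by
  refine Pool.Agent.Results.MP_1c78a5_mp.ParitySymmetry.part1 hd ψ ⟨?_, ?_⟩ lam ?_
  · unfold Pool.Agent.Results.MP_1c78a5_mp.ParitySymmetry.ip
    have h1 := h.1
    have h2 : ∀ j, starRingEnd ℂ (ψ j) * ψ j = ((‖ψ j‖ ^ 2 : ℝ) : ℂ) := fun j =>
      conj_mul_self' (ψ j)
    rw [Finset.sum_congr rfl fun j _ => h2 j, ← Complex.ofReal_sum, h1]
    simp
  · intro a b hab
    rw [← h.2 a b hab, Pool.Agent.Results.MP_1c78a5_mp.ParitySymmetry.ip_D]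
    congr 2
    unfold ov
    symm
    refine Fintype.sum_equiv (Equiv.addRight a) _ _ fun j => ?_
    simp only [Equiv.coe_addRight, add_sub_cancel_right]
    unfold e
    ring
  · funext j
    unfold Pool.Agent.Results.MP_1c78a5_mp.ParitySymmetry.P
    rw [hpar j]; simp

theorem fid_conj {d : ℕ} [NeZero d] {ψ : ZMod d → ℂ} (h : Fid ψ) :
    Fid (fun j => conj (ψ j)) := by
  refine ⟨?_, fun a b hab => ?_⟩
  · simp only [norm_conj']; exact h.1
  · have h1 : ov (fun j => conj (ψ j)) a b = conj (ov ψ a (-b)) := by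
      unfold ov
      rw [map_sum]
      refine Finset.sum_congr rfl fun j _ => ?_
      simp only [map_mul, conj_conj, conj_e]
      have : -(-b * j) = b * j := by ring
      rw [this]
    rw [h1, norm_conj']
    apply h.2
    intro h2
    apply hab
    rw [Prod.mk.injEq] at h2 ⊢
    exact ⟨h2.1, by simpa using h2.2⟩

variable {p : ℕ} [hp : Fact p.Prime]

/-- no fiducial has entries `χ (j) (x + y η (j))` with `χ` nontrivial and even -/
theorem no_V (hneg : eta (-1 : ZMod p) = -1) {m : ℕ} (hm : p = 2 * m + 1) (hodd : Odd m)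
    {χ : MulChar (ZMod p) ℂ} (hχ : χ ≠ 1) (hev : χ (-1) = 1) {x y : ℂ}
    (h : Fid (fun j : ZMod p => V χ x y j)) : False := by
  obtain ⟨A, hA⟩ := exists_val p
  obtain ⟨κ, hκ, hr⟩ := char_red A χ
  have h0 := kappa_pos A hχ hr
  set φ := ZMod.castHom (dvd_refl p) (ResidueField A) with hφ
  have hm1 : (-1 : ResidueField A) ≠ 1 := by
    intro h1
    have h2 : ((2 : ℕ) : ResidueField A) = 0 := by
      push_cast; linear_combination -h1
    rw [CharP.cast_eq_zero_iff (ResidueField A) p] at h2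
    have := Nat.le_of_dvd (by norm_num) h2
    have h3 := hp.out.two_le
    omega
  have hκe : Even κ := by
    have h1 := hr (-1) (neg_ne_zero.2 one_ne_zero)
    have h2 : (⟨χ (-1), chi_mem A χ (-1)⟩ : A) = 1 := Subtype.ext hev
    rw [h2, map_one, map_neg, map_one] at h1
    by_contra hne
    rw [Nat.not_even_iff_odd] at hne
    rw [hne.neg_one_pow] at h1
    exact hm1 h1.symm
  rcases lt_or_ge κ m with hlt | hge
  · refine no_small hneg hm hodd (κ := κ) (μ := m - κ) ?_ (by omega) (by omega) hχ hev A hr h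
    obtain ⟨t, ht⟩ := hκe
    omega
  · have hne : κ ≠ m := by
      rintro rfl
      exact (Nat.not_even_iff_odd.2 hodd) hκe
    have hχ' : χ⁻¹ ≠ 1 := fun h1 => hχ (inv_eq_one.1 h1)
    have hev' : χ⁻¹ (-1) = 1 := by
      have := chi_mul_inv χ (j := -1) (neg_ne_zero.2 one_ne_zero)
      rwa [hev, one_mul] at this
    have hF := fid_conj h
    simp only [conj_V] at hF
    have hr' : ∀ j : ZMod p, j ≠ 0 → residue A ⟨χ⁻¹ j, chi_mem A χ⁻¹ j⟩ = φ j ^ (2 * m - κ) := by
      intro j hj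
      have h1 : (⟨χ j, chi_mem A χ j⟩ : A) * ⟨χ⁻¹ j, chi_mem A χ⁻¹ j⟩ = 1 :=
        Subtype.ext (chi_mul_inv χ hj)
      have h2 := congrArg (residue A) h1
      rw [map_mul, map_one, hr j hj] at h2
      have h3 : φ j ^ κ * φ j ^ (2 * m - κ) = 1 := by
        rw [← pow_add, ← map_pow]
        have h4 : κ + (2 * m - κ) = p - 1 := by omega
        rw [h4, ZMod.pow_card_sub_one_eq_one hj, map_one]
      have h5 : φ j ^ κ ≠ 0 := pow_ne_zero _ (by rwa [Ne, map_eq_zero])
      exact mul_left_cancel₀ h5 (h2.trans h3.symm)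
    obtain ⟨t, ht⟩ := hκe
    exact no_small hneg hm hodd (κ := 2 * m - κ) (μ := κ - m) (by omega) (by omega) (by omega)
      hχ' hev' A hr' hF

theorem p_mod {ψ : ZMod p → ℂ} (h5 : 5 ≤ p) (h : Fid ψ)
    (hsym : ∀ h : ZMod p, h ≠ 0 → IsSquare h → ∃ l : ℂ, ∀ j, ψ (h * j) = l * ψ j) :
    eta (-1 : ZMod p) = -1 ∧ ∃ m, p = 2 * m + 1 ∧ Odd m := by
  have hneg : eta (-1 : ZMod p) = -1 := by
    rcases eta_cases (p := p) (a := -1) (neg_ne_zero.2 one_ne_zero) with h1 | h1
    · exfalso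
      have h2 : IsSquare (-1 : ZMod p) := by
        unfold eta at h1
        exact (quadraticChar_one_iff_isSquare (neg_ne_zero.2 one_ne_zero)).1 h1
      obtain ⟨l, hl⟩ := hsym (-1) (neg_ne_zero.2 one_ne_zero) h2
      rcases parity' (by omega) h l (fun j => by rw [← hl j, neg_one_mul]) with h1 | h1 | h1 <;>
        exact absurd (h1 ▸ hp.out) (by norm_num)
    · exact h1
  refine ⟨hneg, ?_⟩
  obtain ⟨m, hm⟩ : ∃ m, p = 2 * m + 1 := by
    rcases hp.out.eq_two_or_odd' with h1 | h1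
    · omega
    · exact h1
  refine ⟨m, hm, ?_⟩
  by_contra hev
  rw [Nat.not_odd_iff_even] at hev
  have h1 := eta_cast hm (-1)
  rw [hneg, Even.neg_one_pow hev] at h1
  push_cast at h1
  have h2 : ((2 : ℕ) : ZMod p) = 0 := by
    push_cast
    linear_combination -h1
  rw [ZMod.natCast_eq_zero_iff] at h2
  have := Nat.le_of_dvd (by norm_num) h2
  omega

theorem eigen {ψ : ZMod p → ℂ} (h5 : 5 ≤ p) (h : Fid ψ)
    (hsym : ∀ h : ZMod p, h ≠ 0 → IsSquare h → ∃ l : ℂ, ∀ j, ψ (h * j) = l * ψ j) :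
    ∀ h : ZMod p, h ≠ 0 → IsSquare h → ∀ j, ψ (h * j) = ψ j := by
  obtain ⟨hneg, m, hm, hodd⟩ := p_mod h5 h hsym
  have hex : ∀ t : ZMod p, ∃ l : ℂ, t ≠ 0 → IsSquare t → ∀ j, ψ (t * j) = l * ψ j := by
    intro t
    by_cases ht : t ≠ 0 ∧ IsSquare t
    · obtain ⟨l, hl⟩ := hsym t ht.1 ht.2
      exact ⟨l, fun _ _ => hl⟩
    · exact ⟨0, fun h1 h2 => absurd ⟨h1, h2⟩ ht⟩
  choose L hL using hex
  by_contra hcon
  push Not at hcon
  obtain ⟨t0, ht0, hts, j1, hj1⟩ := hcon
  have hL0 : L t0 ≠ 1 := by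
    intro h1
    apply hj1
    rw [hL t0 ht0 hts j1, h1, one_mul]
  have hψ0 : ψ 0 = 0 := by
    have h1 := hL t0 ht0 hts 0
    rw [mul_zero] at h1
    have h2 : (L t0 - 1) * ψ 0 = 0 := by linear_combination -h1
    exact (mul_eq_zero.1 h2).resolve_left (sub_ne_zero.2 hL0)
  obtain ⟨j0, hj0⟩ : ∃ j, ψ j ≠ 0 := by
    by_contra hno
    push Not at hno
    have h1 := h.1
    simp [hno] at h1
  have hL1 : L 1 = 1 := by
    have h1 := hL 1 one_ne_zero ⟨1, by ring⟩ j0
    rw [one_mul] at h1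
    have h2 : (L 1 - 1) * ψ j0 = 0 := by linear_combination -h1
    exact sub_eq_zero.1 ((mul_eq_zero.1 h2).resolve_right hj0)
  have hLmul : ∀ s t : ZMod p, s ≠ 0 → IsSquare s → t ≠ 0 → IsSquare t →
      L (s * t) = L s * L t := by
    intro s t hs hs' ht ht'
    have h1 := hL (s * t) (mul_ne_zero hs ht) (hs'.mul ht') j0
    rw [mul_assoc, hL s hs hs', hL t ht ht'] at h1
    have h2 : (L (s * t) - L s * L t) * ψ j0 = 0 := by linear_combination -h1
    exact sub_eq_zero.1 ((mul_eq_zero.1 h2).resolve_right hj0)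
  have hsqr : ∀ j : ZMod p, IsSquare (j ^ (m + 1)) := by
    intro j
    obtain ⟨k, hk⟩ := hodd
    exact ⟨j ^ (k + 1), by rw [← pow_add]; congr 1; omega⟩
  let χ : MulChar (ZMod p) ℂ :=
    { toFun := fun j => if j = 0 then 0 else L (j ^ (m + 1))
      map_one' := by
        rw [if_neg one_ne_zero, one_pow, hL1]
      map_mul' := by
        intro a b
        by_cases ha : a = 0
        · simp [ha]
        by_cases hb : b = 0
        · simp [hb]
        rw [if_neg ha, if_neg hb, if_neg (mul_ne_zero ha hb), mul_pow]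
        exact hLmul _ _ (pow_ne_zero _ ha) (hsqr a) (pow_ne_zero _ hb) (hsqr b)
      map_nonunit' := by
        intro a ha
        have : a = 0 := by
          by_contra h0
          exact ha (isUnit_iff_ne_zero.2 h0)
        rw [if_pos this] }
  have hχv : ∀ j : ZMod p, j ≠ 0 → χ j = L (j ^ (m + 1)) := fun j hj => if_neg hj
  have hev : χ (-1) = 1 := by
    rw [hχv _ (neg_ne_zero.2 one_ne_zero), (hodd.add_one).neg_one_pow, hL1]
  have hpow1 : ∀ j : ZMod p, eta j = 1 → j ^ (m + 1) = j := by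
    intro j hj
    have h1 := eta_cast hm j
    rw [hj] at h1
    push_cast at h1
    rw [pow_succ, ← h1, one_mul]
  have hpow2 : ∀ j : ZMod p, eta j = -1 → j ^ (m + 1) = -j := by
    intro j hj
    have h1 := eta_cast hm j
    rw [hj] at h1
    push_cast at h1
    rw [pow_succ, ← h1, neg_one_mul]
  have hχ : χ ≠ 1 := by
    intro h1
    apply hL0
    have h2 : χ t0 = 1 := by
      rw [h1]
      exact MulChar.one_apply (isUnit_iff_ne_zero.2 ht0)
    have h3 : eta t0 = 1 := by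
      unfold eta
      exact (quadraticChar_one_iff_isSquare ht0).2 hts
    rw [hχv t0 ht0, hpow1 t0 h3] at h2
    exact h2
  have hV : ∀ j, ψ j = V χ ((ψ 1 + ψ (-1)) / 2) ((ψ 1 - ψ (-1)) / 2) j := by
    intro j
    unfold V ec
    by_cases h0 : j = 0
    · rw [h0, hψ0, MulChar.map_zero, zero_mul]
    rcases eta_cases h0 with h | h
    · have h1 : IsSquare j := by
        unfold eta at h
        exact (quadraticChar_one_iff_isSquare h0).1 h
      have h2 := hL j h0 h1 1
      rw [mul_one] at h2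
      rw [hχv j h0, hpow1 j h, h, h2]; push_cast; ring
    · have h3 : eta (-j) = 1 := by rw [eta_neg hneg, h]; norm_num
      have h1 : IsSquare (-j) := by
        unfold eta at h3
        exact (quadraticChar_one_iff_isSquare (neg_ne_zero.2 h0)).1 h3
      have h2 := hL (-j) (neg_ne_zero.2 h0) h1 (-1)
      rw [neg_mul_neg, mul_one] at h2
      rw [hχv j h0, hpow2 j h, h, h2]; push_cast; ring
  have hψ : ψ = fun j => V χ ((ψ 1 + ψ (-1)) / 2) ((ψ 1 - ψ (-1)) / 2) j := funext hV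
  rw [hψ] at h
  exact no_V hneg hm hodd hχ hev h

/-- **Main theorem on dilations by squares.** -/
theorem eigen_dims {ψ : ZMod p → ℂ} (h5 : 5 ≤ p) (h : Fid ψ)
    (hsym : ∀ h : ZMod p, h ≠ 0 → IsSquare h → ∃ l : ℂ, ∀ j, ψ (h * j) = l * ψ j) :
    (∀ h : ZMod p, h ≠ 0 → IsSquare h → ∀ j, ψ (h * j) = ψ j) ∧ (p = 7 ∨ p = 19) :=
  ⟨eigen h5 h hsym, dims h5 h (eigen h5 h hsym)⟩

end Run7.h53.QR
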