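import Mathlib
import Pool.Agent.N655.WH.Core
import Pool.Agent.R503.SIC.Cliff

set_option autoImplicit false

/-! # Clifford unitaries in prime dimension: action on displacement operators -/

namespace Run7.h53.QR

open Finset Complex Matrix Pool.Agent.R503.SIC
open scoped ComplexConjugate

variable {p : ℕ} [hp : Fact p.Prime]

/-- `V` acts on the displacement operators by the matrix `F` -/
def Act (V : Matrix (ZMod p) (ZMod p) ℂ) (F : Matrix (Fin 2) (Fin 2) (ZMod p)) : Prop :=
  ∀ v : Fin 2 → ZMod p, ∃ c : ℂ, V * Dm (v 0) (v 1) = c • (Dm ((F *ᵥ v) 0) ((F *ᵥ v) 1) * V)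

theorem Act.mul {V W : Matrix (ZMod p) (ZMod p) ℂ} {F G : Matrix (Fin 2) (Fin 2) (ZMod p)}
    (hV : Act V F) (hW : Act W G) : Act (V * W) (F * G) := by
  intro v
  obtain ⟨c, h⟩ := hW v
  obtain ⟨c', h'⟩ := hV (G *ᵥ v)
  refine ⟨c * c', ?_⟩
  rw [← mulVec_mulVec, mul_assoc, h, Matrix.mul_smul, ← mul_assoc, h', Matrix.smul_mul, smul_smul,
    mul_assoc]

theorem Act.one : Act (1 : Matrix (ZMod p) (ZMod p) ℂ) 1 := by
  intro v
  exact ⟨1, by rw [one_mul, mul_one, one_smul, one_mulVec]⟩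

theorem Act.pow {V : Matrix (ZMod p) (ZMod p) ℂ} {F : Matrix (Fin 2) (Fin 2) (ZMod p)}
    (hV : Act V F) (n : ℕ) : Act (V ^ n) (F ^ n) := by
  induction n with
  | zero => rw [pow_zero, pow_zero]; exact Act.one
  | succ n ih => rw [pow_succ, pow_succ]; exact ih.mul hV

theorem Act.smul_one {s : ℂ} : Act (s • (1 : Matrix (ZMod p) (ZMod p) ℂ)) 1 := by
  intro v
  exact ⟨1, by rw [Matrix.smul_mul, one_mul, Matrix.mul_smul, mul_one, one_smul, one_mulVec]⟩

theorem Act.unique {V : Matrix (ZMod p) (ZMod p) ℂ} (hU : IsUnit V)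
    {F G : Matrix (Fin 2) (Fin 2) (ZMod p)} (hF : Act V F) (hG : Act V G) : F = G := by
  have key : ∀ v, F *ᵥ v = G *ᵥ v := by
    intro v
    obtain ⟨c, h⟩ := hF v
    obtain ⟨c', h'⟩ := hG v
    have hc := c_ne hU h
    have hc' := c_ne hU h'
    have h1 : Dm ((F *ᵥ v) 0) ((F *ᵥ v) 1) = (c⁻¹ * c') • Dm ((G *ᵥ v) 0) ((G *ᵥ v) 1) := by
      apply hU.mul_right_cancel
      rw [h] at h'
      rw [Matrix.smul_mul, mul_smul, ← h', smul_smul, inv_mul_cancel₀ hc, one_smul]
    obtain ⟨e1, e2⟩ := Dm_inj h1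
    funext i
    fin_cases i
    · exact e1
    · exact e2
  ext i j
  have h1 := congrFun (key (Pi.single j 1)) i
  simpa using h1

/-- a Clifford unitary acts by a matrix of determinant one -/
theorem exists_act {V : Matrix (ZMod p) (ZMod p) ℂ} (hU : IsUnit V) (hn : Nrm V) :
    ∃ F : Matrix (Fin 2) (Fin 2) (ZMod p), Act V F ∧ F.det = 1 := by
  choose a' b' c h using hn
  -- additivity
  have hadd : ∀ a b x y : ZMod p, a' (a + x) (b + y) = a' a b + a' x y ∧
      b' (a + x) (b + y) = b' a b + b' x y := by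
    intro a b x y
    have hc := c_ne hU (h (a + x) (b + y))
    have h1 : V * (Dm a b * Dm x y) =
        (c a b * c x y * e (b' a b * a' x y)) • (Dm (a' a b + a' x y) (b' a b + b' x y) * V) := by
      rw [← mul_assoc, h, Matrix.smul_mul, mul_assoc, h, Matrix.mul_smul, smul_smul, ← mul_assoc,
        Dm_mul, Matrix.smul_mul, smul_smul]
    rw [Dm_mul, Matrix.mul_smul, h, smul_smul] at h1
    have h2 : Dm (a' (a + x) (b + y)) (b' (a + x) (b + y)) =
        ((e (b * x) * c (a + x) (b + y))⁻¹ * (c a b * c x y * e (b' a b * a' x y))) •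
          Dm (a' a b + a' x y) (b' a b + b' x y) := by
      apply hU.mul_right_cancel
      rw [Matrix.smul_mul, mul_smul, ← h1, smul_smul,
        inv_mul_cancel₀ (mul_ne_zero (e_ne_zero _) hc), one_smul]
    exact Dm_inj h2
  let f : (Fin 2 → ZMod p) →+ (Fin 2 → ZMod p) :=
    { toFun := fun v => ![a' (v 0) (v 1), b' (v 0) (v 1)]
      map_zero' := by
        have h1 := hadd 0 0 0 0
        simp only [add_zero] at h1
        have h2 : a' 0 0 = 0 := by linear_combination -h1.1
        have h3 : b' 0 0 = 0 := by linear_combination -h1.2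
        ext i
        fin_cases i
        · exact h2
        · exact h3
      map_add' := by
        intro v w
        obtain ⟨h1, h2⟩ := hadd (v 0) (v 1) (w 0) (w 1)
        ext i
        fin_cases i
        · exact h1
        · exact h2 }
  let g : (Fin 2 → ZMod p) →ₗ[ZMod p] (Fin 2 → ZMod p) := f.toZModLinearMap p
  obtain ⟨M, hg⟩ : ∃ M : Matrix (Fin 2) (Fin 2) (ZMod p),
      ∀ v, M *ᵥ v = ![a' (v 0) (v 1), b' (v 0) (v 1)] := by
    refine ⟨LinearMap.toMatrix' g, fun v => ?_⟩
    rw [LinearMap.toMatrix'_mulVec]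
    rfl
  refine ⟨M, fun v => ⟨c (v 0) (v 1), ?_⟩, ?_⟩
  · rw [hg v]
    exact h (v 0) (v 1)
  · have h1 := sympl hU (h 0 1) (h 1 0)
    have h2 := hg (Pi.single 0 1)
    have h3 := hg (Pi.single 1 1)
    rw [Matrix.mulVec_single_one] at h2 h3
    have e00 : M 0 0 = a' 1 0 := by simpa using congrFun h2 0
    have e10 : M 1 0 = b' 1 0 := by simpa using congrFun h2 1
    have e01 : M 0 1 = a' 0 1 := by simpa using congrFun h3 0
    have e11 : M 1 1 = b' 0 1 := by simpa using congrFun h3 1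
    rw [Matrix.det_fin_two, e00, e10, e01, e11]
    linear_combination -h1

end Run7.h53.QR
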