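import Mathlib
import Pool.Agent.Run7.h53.QR.Weil

set_option autoImplicit false

/-! # Conjugation of Clifford unitaries into monomial form -/

namespace Run7.h53.QR

open Finset Complex Matrix Pool.Agent.R503.SIC
open scoped ComplexConjugate

variable {p : ℕ} [hp : Fact p.Prime]

theorem fid_disp {ψ : ZMod p → ℂ} (h : Fid ψ) (β n : ZMod p) :
    Fid (fun j => e (β * j) * ψ (j + n)) := by
  refine ⟨?_, fun a b hab => ?_⟩
  · rw [← h.1]
    refine Fintype.sum_equiv (Equiv.addRight n) _ _ fun j => ?_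
    simp only [Equiv.coe_addRight, norm_mul, norm_e, one_mul]
  · have h1 : ov (fun j => e (β * j) * ψ (j + n)) a b = e (-(β * a) - b * n) * ov ψ a b := by
      unfold ov
      rw [Finset.mul_sum]
      refine Fintype.sum_equiv (Equiv.addRight n) _ _ fun j => ?_
      simp only [Equiv.coe_addRight, map_mul, conj_e]
      have e1 : j + a + n = j + n + a := by ring
      have e2 : e (-(β * (j + a))) * e (b * j) * e (β * j) =
          e (-(β * a) - b * n) * e (b * (j + n)) := by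
        rw [← e_add, ← e_add, ← e_add]; congr 1; ring
      rw [e1]
      linear_combination (conj (ψ (j + n + a)) * ψ (j + n)) * e2
    rw [h1, norm_mul, norm_e, one_mul]
    exact h.2 a b hab

theorem fid_chirp {ψ : ZMod p → ℂ} (h : Fid ψ) (t : ZMod p) :
    Fid (fun j => e (t * j * j) * ψ j) := by
  refine ⟨?_, fun a b hab => ?_⟩
  · rw [← h.1]
    refine Finset.sum_congr rfl fun j _ => ?_
    rw [norm_mul, norm_e, one_mul]
  · have h1 : ov (fun j => e (t * j * j) * ψ j) a b =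
        e (-(t * a * a)) * ov ψ a (b - 2 * t * a) := by
      unfold ov
      rw [Finset.mul_sum]
      refine Finset.sum_congr rfl fun j _ => ?_
      simp only [map_mul, conj_e]
      have e2 : e (-(t * (j + a) * (j + a))) * e (b * j) * e (t * j * j) =
          e (-(t * a * a)) * e ((b - 2 * t * a) * j) := by
        rw [← e_add, ← e_add, ← e_add]; congr 1; ring
      linear_combination (conj (ψ (j + a)) * ψ j) * e2
    rw [h1, norm_mul, norm_e, one_mul]
    apply h.2
    intro h2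
    apply hab
    rw [Prod.mk.injEq] at h2 ⊢
    refine ⟨h2.1, ?_⟩
    have h3 := h2.2
    rw [h2.1] at h3
    linear_combination h3

omit hp in
theorem sqrt_sq : ((Real.sqrt p : ℝ) : ℂ) * ((Real.sqrt p : ℝ) : ℂ) = p := by
  rw [← Complex.ofReal_mul, Real.mul_self_sqrt (Nat.cast_nonneg p)]
  simp

theorem sqrt_ne : ((Real.sqrt p : ℝ) : ℂ) ≠ 0 := by
  intro h
  have h1 := sqrt_sq (p := p)
  rw [h, zero_mul] at h1
  exact (NeZero.ne p) (by exact_mod_cast h1.symm)

theorem fid_fourier {ψ : ZMod p → ℂ} (h : Fid ψ) :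
    Fid (fun k => ((Real.sqrt p : ℝ) : ℂ)⁻¹ * ∑ j, e (k * j) * ψ j) := by
  have hov : ∀ a b : ZMod p, ov (fun k => ((Real.sqrt p : ℝ) : ℂ)⁻¹ * ∑ j, e (k * j) * ψ j) a b =
      e (-(a * b)) * ov ψ b (-a) := by
    intro a b
    unfold ov
    have h1 : ∀ k : ZMod p, conj (((Real.sqrt p : ℝ) : ℂ)⁻¹ * ∑ j, e ((k + a) * j) * ψ j) *
        (e (b * k) * (((Real.sqrt p : ℝ) : ℂ)⁻¹ * ∑ j, e (k * j) * ψ j)) =
        (p : ℂ)⁻¹ * ∑ j, ∑ l, (e (-(a * j)) * conj (ψ j) * ψ l) * e (k * (l - j + b)) := by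
      intro k
      rw [map_mul, map_inv₀, conj_ofReal, map_sum]
      have h2 : ((Real.sqrt p : ℝ) : ℂ)⁻¹ * (∑ j, conj (e ((k + a) * j) * ψ j)) *
          (e (b * k) * (((Real.sqrt p : ℝ) : ℂ)⁻¹ * ∑ j, e (k * j) * ψ j)) =
          (((Real.sqrt p : ℝ) : ℂ) * ((Real.sqrt p : ℝ) : ℂ))⁻¹ *
          ((∑ j, conj (e ((k + a) * j) * ψ j)) * ∑ l, e (b * k) * (e (k * l) * ψ l)) := by
        rw [mul_inv, ← Finset.mul_sum]; ring
      rw [h2, sqrt_sq, Finset.sum_mul_sum]
      congr 1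
      refine Finset.sum_congr rfl fun j _ => Finset.sum_congr rfl fun l _ => ?_
      rw [map_mul, conj_e]
      have e2 : e (-((k + a) * j)) * e (b * k) * e (k * l) =
          e (-(a * j)) * e (k * (l - j + b)) := by
        rw [← e_add, ← e_add, ← e_add]; congr 1; ring
      linear_combination (conj (ψ j) * ψ l) * e2
    rw [Finset.sum_congr rfl fun k _ => h1 k, ← Finset.mul_sum, Finset.sum_comm]
    have h3 : ∀ j : ZMod p, ∑ k : ZMod p, ∑ l, (e (-(a * j)) * conj (ψ j) * ψ l) *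
        e (k * (l - j + b)) = (p : ℂ) * (e (-(a * j)) * conj (ψ j) * ψ (j - b)) := by
      intro j
      rw [Finset.sum_comm]
      have h4 : ∀ l : ZMod p, ∑ k : ZMod p, (e (-(a * j)) * conj (ψ j) * ψ l) *
          e (k * (l - j + b)) = if l = j - b then
            (p : ℂ) * (e (-(a * j)) * conj (ψ j) * ψ (j - b)) else 0 := by
        intro l
        rw [← Finset.mul_sum, sum_e]
        by_cases hl : l = j - b
        · rw [if_pos hl, if_pos (by rw [hl]; ring), hl]; ring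
        · rw [if_neg hl, if_neg (fun h0 => hl (by linear_combination h0)), mul_zero]
      rw [Finset.sum_congr rfl fun l _ => h4 l, Finset.sum_ite_eq', if_pos (Finset.mem_univ _)]
    rw [Finset.sum_congr rfl fun j _ => h3 j, ← Finset.mul_sum, ← mul_assoc,
      inv_mul_cancel₀ (by exact_mod_cast NeZero.ne p), one_mul, Finset.mul_sum]
    refine Fintype.sum_equiv (Equiv.subRight b) _ _ fun j => ?_
    simp only [Equiv.subRight_apply, sub_add_cancel]
    have e2 : e (-(a * j)) = e (-(a * b)) * e (-a * (j - b)) := by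
      rw [← e_add]; congr 1; ring
    rw [e2]; ring
  refine ⟨?_, fun a b hab => ?_⟩
  · have h1 := hov 0 0
    rw [mul_zero, neg_zero, e_zero, one_mul, ov_zero h.1] at h1
    unfold ov at h1
    have h2 : ∀ k : ZMod p, conj (((Real.sqrt p : ℝ) : ℂ)⁻¹ * ∑ j, e ((k + 0) * j) * ψ j) *
        (e (0 * k) * (((Real.sqrt p : ℝ) : ℂ)⁻¹ * ∑ j, e (k * j) * ψ j)) =
        ((‖((Real.sqrt p : ℝ) : ℂ)⁻¹ * ∑ j, e (k * j) * ψ j‖ ^ 2 : ℝ) : ℂ) := by
      intro k
      rw [add_zero, zero_mul, e_zero, one_mul, conj_mul_self']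
    rw [Finset.sum_congr rfl fun k _ => h2 k, ← Complex.ofReal_sum] at h1
    exact_mod_cast h1
  · rw [hov, norm_mul, norm_e, one_mul]
    apply h.2
    intro h2
    apply hab
    rw [Prod.mk.injEq] at h2 ⊢
    exact ⟨by simpa using h2.2, h2.1⟩

/-- a Clifford change of coordinates -/
structure Chg (p : ℕ) [Fact p.Prime] where
  G : Matrix (ZMod p) (ZMod p) ℂ
  G' : Matrix (ZMod p) (ZMod p) ℂ
  g : Matrix (Fin 2) (Fin 2) (ZMod p)
  g' : Matrix (Fin 2) (Fin 2) (ZMod p)
  h1 : G * G' = 1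
  h2 : G' * G = 1
  h3 : g * g' = 1
  act : Act G g
  fid : ∀ ψ : ZMod p → ℂ, Fid ψ → Fid (G *ᵥ ψ)

theorem Chg.act' (C : Chg p) : Act C.G' C.g' := by
  intro w
  have hu : IsUnit C.G := ⟨⟨C.G, C.G', C.h1, C.h2⟩, rfl⟩
  obtain ⟨c, h⟩ := C.act (C.g' *ᵥ w)
  have hc := c_ne hu h
  refine ⟨c⁻¹, ?_⟩
  rw [mulVec_mulVec, C.h3, one_mulVec] at h
  calc C.G' * Dm (w 0) (w 1) = c⁻¹ • (C.G' * (c • (Dm (w 0) (w 1) * C.G)) * C.G') := by
        rw [Matrix.mul_smul, Matrix.smul_mul, smul_smul, inv_mul_cancel₀ hc, one_smul, mul_assoc,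
          mul_assoc, C.h1, mul_one]
    _ = _ := by
        rw [← h, ← mul_assoc, C.h2, one_mul]

theorem transfer (C : Chg p) {ψ : ZMod p → ℂ} {V : Matrix (ZMod p) (ZMod p) ℂ}
    {F : Matrix (Fin 2) (Fin 2) (ZMod p)} {l : ℂ} (h : Fid ψ) (hU : IsUnit V) (hA : Act V F)
    (hl : V *ᵥ ψ = l • ψ) : Fid (C.G *ᵥ ψ) ∧ IsUnit (C.G * V * C.G') ∧
      Act (C.G * V * C.G') (C.g * F * C.g') ∧
      (C.G * V * C.G') *ᵥ (C.G *ᵥ ψ) = l • (C.G *ᵥ ψ) := by
  have hu : IsUnit C.G := ⟨⟨C.G, C.G', C.h1, C.h2⟩, rfl⟩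
  have hu' : IsUnit C.G' := ⟨⟨C.G', C.G, C.h2, C.h1⟩, rfl⟩
  refine ⟨C.fid ψ h, (hu.mul hU).mul hu', (C.act.mul hA).mul C.act', ?_⟩
  rw [mulVec_mulVec, mul_assoc, C.h2, mul_one, ← mulVec_mulVec, hl, mulVec_smul]

/-- the chirp -/
noncomputable def chirp (t : ZMod p) : Chg p where
  G := Matrix.diagonal fun j => e (t * j * j)
  G' := Matrix.diagonal fun j => e (-(t * j * j))
  g := !![1, 0; 2 * t, 1]
  g' := !![1, 0; -(2 * t), 1]
  h1 := by
    rw [diagonal_mul_diagonal, ← diagonal_one]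
    congr 1
    funext j
    exact e_mul_neg _
  h2 := by
    rw [diagonal_mul_diagonal, ← diagonal_one]
    congr 1
    funext j
    rw [mul_comm]
    exact e_mul_neg _
  h3 := by
    ext i j
    fin_cases i <;> fin_cases j <;> simp [Matrix.mul_apply, Fin.sum_univ_two]
  act := by
    intro v
    refine ⟨e (t * v 0 * v 0), ?_⟩
    have h0 : (!![1, 0; 2 * t, 1] *ᵥ v) 0 = v 0 := by
      simp [Matrix.mulVec, dotProduct, Fin.sum_univ_two]
    have h1 : (!![1, 0; 2 * t, 1] *ᵥ v) 1 = 2 * t * v 0 + v 1 := by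
      simp [Matrix.mulVec, dotProduct, Fin.sum_univ_two]
    rw [h0, h1]
    ext i j
    rw [diagonal_mul, Matrix.smul_apply, mul_diagonal]
    simp only [Dm, Matrix.of_apply, smul_eq_mul]
    by_cases hij : i = j + v 0
    · rw [if_pos hij, if_pos hij, hij, ← e_add, ← e_add, ← e_add]
      congr 1; ring
    · rw [if_neg hij, if_neg hij]; ring
  fid := by
    intro ψ h
    have := fid_chirp h t
    convert this using 2
    rename_i j
    rw [mulVec_diagonal]

/-- the Fourier transform -/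
noncomputable def fourier : Chg p where
  G := Matrix.of fun k j => ((Real.sqrt p : ℝ) : ℂ)⁻¹ * e (k * j)
  G' := Matrix.of fun k j => ((Real.sqrt p : ℝ) : ℂ)⁻¹ * e (-(k * j))
  g := !![0, -1; 1, 0]
  g' := !![0, 1; -1, 0]
  h1 := by
    ext i j
    rw [Matrix.mul_apply]
    simp only [Matrix.of_apply]
    have h2 : ∀ k : ZMod p, ((Real.sqrt p : ℝ) : ℂ)⁻¹ * e (i * k) *
        (((Real.sqrt p : ℝ) : ℂ)⁻¹ * e (-(k * j))) = (p : ℂ)⁻¹ * e (k * (i - j)) := by
      intro k
      have e2 : e (i * k) * e (-(k * j)) = e (k * (i - j)) := by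
        rw [← e_add]; congr 1; ring
      rw [← e2, ← sqrt_sq, mul_inv]; ring
    rw [Finset.sum_congr rfl fun k _ => h2 k, ← Finset.mul_sum, sum_e, Matrix.one_apply]
    by_cases hij : i = j
    · rw [if_pos hij, if_pos (by rw [hij, sub_self]),
        inv_mul_cancel₀ (by exact_mod_cast NeZero.ne p)]
    · rw [if_neg hij, if_neg (fun h => hij (sub_eq_zero.1 h)), mul_zero]
  h2 := by
    ext i j
    rw [Matrix.mul_apply]
    simp only [Matrix.of_apply]
    have h2 : ∀ k : ZMod p, ((Real.sqrt p : ℝ) : ℂ)⁻¹ * e (-(i * k)) *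
        (((Real.sqrt p : ℝ) : ℂ)⁻¹ * e (k * j)) = (p : ℂ)⁻¹ * e (k * (j - i)) := by
      intro k
      have e2 : e (-(i * k)) * e (k * j) = e (k * (j - i)) := by
        rw [← e_add]; congr 1; ring
      rw [← e2, ← sqrt_sq, mul_inv]; ring
    rw [Finset.sum_congr rfl fun k _ => h2 k, ← Finset.mul_sum, sum_e, Matrix.one_apply]
    by_cases hij : i = j
    · rw [if_pos hij, if_pos (by rw [hij, sub_self]),
        inv_mul_cancel₀ (by exact_mod_cast NeZero.ne p)]
    · rw [if_neg hij, if_neg (fun h => hij (sub_eq_zero.1 h).symm), mul_zero]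
  h3 := by
    ext i j
    fin_cases i <;> fin_cases j <;> simp [Matrix.mul_apply, Fin.sum_univ_two]
  act := by
    intro v
    refine ⟨e (-(v 0 * v 1)), ?_⟩
    have h0 : (!![0, -1; 1, 0] *ᵥ v) 0 = -v 1 := by
      simp [Matrix.mulVec, dotProduct, Fin.sum_univ_two]
    have h1 : (!![0, -1; 1, 0] *ᵥ v) 1 = v 0 := by
      simp [Matrix.mulVec, dotProduct, Fin.sum_univ_two]
    rw [h0, h1]
    ext i j
    rw [Matrix.mul_apply, Matrix.smul_apply, Matrix.mul_apply, Finset.sum_eq_single (j + v 0),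
      Finset.sum_eq_single (i + v 1)]
    · simp only [Dm, Matrix.of_apply, smul_eq_mul]
      rw [if_pos trivial, if_pos (by ring)]
      have e2 : e (i * (j + v 0)) * e (v 1 * j) =
          e (-(v 0 * v 1)) * e (v 0 * (i + v 1)) * e ((i + v 1) * j) := by
        rw [← e_add, ← e_add, ← e_add]; congr 1; ring
      linear_combination ((Real.sqrt p : ℝ) : ℂ)⁻¹ * e2
    · intro l _ hl
      simp only [Dm, Matrix.of_apply]
      rw [if_neg (fun h => hl (by rw [h]; ring)), zero_mul]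
    · intro h; exact absurd (Finset.mem_univ _) h
    · intro l _ hl
      simp only [Dm, Matrix.of_apply]
      rw [if_neg hl, mul_zero]
    · intro h; exact absurd (Finset.mem_univ _) h
  fid := by
    intro ψ h
    have := fid_fourier h
    convert this using 2
    rename_i k
    rw [Matrix.mulVec, dotProduct, Finset.mul_sum]
    refine Finset.sum_congr rfl fun j _ => ?_
    simp only [Matrix.of_apply]
    ring

end Run7.h53.QR
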