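import Mathlib
import Pool.Agent.Run7.h53.QR.Torus

set_option autoImplicit false

/-! # Clifford unitaries acting by diagonal matrices are monomial -/

namespace Run7.h53.QR

open Finset Complex Matrix Pool.Agent.R503.SIC
open scoped ComplexConjugate

variable {p : ℕ} [hp : Fact p.Prime]

theorem e_natCast_mul (n : ℕ) (x : ZMod p) : e ((n : ZMod p) * x) = e x ^ n := by
  induction n with
  | zero => simp [e_zero]
  | succ n ih =>
    rw [pow_succ, ← ih, ← e_add]
    congr 1; push_cast; ring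

theorem prim_e : IsPrimitiveRoot (e (1 : ZMod p)) p := by
  rw [IsPrimitiveRoot.iff_def]
  constructor
  · rw [← e_natCast_mul, ZMod.natCast_self, zero_mul, e_zero]
  · intro l hl
    rw [← e_natCast_mul, mul_one] at hl
    have h1 : ((l : ℕ) : ZMod p) = 0 := e_inj (by rw [hl, e_zero])
    rwa [ZMod.natCast_eq_zero_iff] at h1

theorem exists_e {c : ℂ} (hc : c ^ p = 1) : ∃ r : ZMod p, c = e r := by
  obtain ⟨i, _, hi⟩ := prim_e.eq_pow_of_pow_eq_one hc
  refine ⟨(i : ZMod p), ?_⟩
  rw [← hi, ← e_natCast_mul, mul_one]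

theorem mono {V : Matrix (ZMod p) (ZMod p) ℂ} (hU : IsUnit V) {h : ZMod p} (hh : h ≠ 0)
    (hA : Act V !![h⁻¹, 0; 0, h]) : ∃ (s r : ZMod p) (f0 : ℂ), f0 ≠ 0 ∧
      ∀ i j, V i j = if j = h * i + s then f0 * e (r * i) else 0 := by
  obtain ⟨c₁, h1⟩ := hA (Pi.single 0 1)
  obtain ⟨c₂, h2⟩ := hA (Pi.single 1 1)
  simp only [Pi.single_eq_same, ne_eq, one_ne_zero, not_false_eq_true, Pi.single_eq_of_ne,
    zero_ne_one, Matrix.mulVec_single_one, Matrix.col_apply, Matrix.of_apply, Matrix.cons_val_zero,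
    Matrix.cons_val_one, Matrix.cons_val', Matrix.cons_val_fin_one] at h1 h2
  have eA : ∀ i j, V i j * e j = c₂ * (e (h * i) * V i j) := by
    intro i j
    have h3 := congrFun (congrFun h2 i) j
    rw [Matrix.mul_apply, Matrix.smul_apply, Matrix.mul_apply, Finset.sum_eq_single j,
      Finset.sum_eq_single i] at h3
    · simp only [Dm, Matrix.of_apply, add_zero, if_true, one_mul, smul_eq_mul] at h3
      exact h3
    · intro l _ hl
      simp only [Dm, Matrix.of_apply, add_zero]
      rw [if_neg (fun h => hl h.symm), zero_mul]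
    · intro h; exact absurd (Finset.mem_univ _) h
    · intro l _ hl
      simp only [Dm, Matrix.of_apply, add_zero]
      rw [if_neg hl, mul_zero]
    · intro h; exact absurd (Finset.mem_univ _) h
  have eB : ∀ i j, V i (j + 1) = c₁ * V (i - h⁻¹) j := by
    intro i j
    have h3 := congrFun (congrFun h1 i) j
    rw [Matrix.mul_apply, Matrix.smul_apply, Matrix.mul_apply, Finset.sum_eq_single (j + 1),
      Finset.sum_eq_single (i - h⁻¹)] at h3
    · simp only [Dm, Matrix.of_apply, sub_add_cancel, if_true, zero_mul, e_zero, mul_one, one_mul,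
        smul_eq_mul] at h3
      exact h3
    · intro l _ hl
      simp only [Dm, Matrix.of_apply]
      rw [if_neg (fun h => hl (by rw [h]; ring)), zero_mul]
    · intro h; exact absurd (Finset.mem_univ _) h
    · intro l _ hl
      simp only [Dm, Matrix.of_apply]
      rw [if_neg hl, mul_zero]
    · intro h; exact absurd (Finset.mem_univ _) h
  have hV0 : V ≠ 0 := by
    rintro rfl
    exact not_isUnit_zero hU
  obtain ⟨i0, j0, h0⟩ : ∃ i j, V i j ≠ 0 := by
    by_contra hcon
    push Not at hcon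
    exact hV0 (by ext i j; exact hcon i j)
  obtain ⟨s, hs⟩ : ∃ s, s = j0 - h * i0 := ⟨_, rfl⟩
  have hc2 : c₂ = e s := by
    have h3 := eA i0 j0
    have h4 : (e j0 - c₂ * e (h * i0)) * V i0 j0 = 0 := by linear_combination h3
    have h5 := (mul_eq_zero.1 h4).resolve_right h0
    have h6 : e j0 = e s * e (h * i0) := by
      rw [← e_add]; congr 1; rw [hs]; ring
    have h7 : (e s - c₂) * e (h * i0) = 0 := by rw [h6] at h5; linear_combination h5
    exact (sub_eq_zero.1 ((mul_eq_zero.1 h7).resolve_right (e_ne_zero _))).symm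
  have hsupp : ∀ i j, V i j ≠ 0 → j = h * i + s := by
    intro i j hij
    have h3 := eA i j
    have h4 : (e j - c₂ * e (h * i)) * V i j = 0 := by linear_combination h3
    have h5 := (mul_eq_zero.1 h4).resolve_right hij
    rw [hc2, ← e_add] at h5
    have h6 := e_inj (sub_eq_zero.1 h5)
    rw [h6]; ring
  obtain ⟨f, hf⟩ : ∃ f : ZMod p → ℂ, ∀ i, f i = V i (h * i + s) := ⟨_, fun _ => rfl⟩
  have hstep : ∀ i, f (i + h⁻¹) = c₁ * f i := by
    intro i
    rw [hf, hf]
    have h3 := eB (i + h⁻¹) (h * i + s)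
    rw [add_sub_cancel_right] at h3
    rw [← h3]
    congr 1
    have : h * h⁻¹ = 1 := mul_inv_cancel₀ hh
    linear_combination this
  have hind : ∀ (n : ℕ) i, f (i + n * h⁻¹) = c₁ ^ n * f i := by
    intro n
    induction n with
    | zero => intro i; simp
    | succ n ih =>
      intro i
      have h3 : i + ((n + 1 : ℕ) : ZMod p) * h⁻¹ = (i + n * h⁻¹) + h⁻¹ := by push_cast; ring
      rw [h3, hstep, ih, pow_succ]; ring
  have hi0 : f i0 ≠ 0 := by
    rw [hf]
    have : h * i0 + s = j0 := by rw [hs]; ring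
    rw [this]; exact h0
  have hc1 : c₁ ^ p = 1 := by
    have h3 := hind p i0
    rw [ZMod.natCast_self, zero_mul, add_zero] at h3
    have h4 : (c₁ ^ p - 1) * f i0 = 0 := by linear_combination -h3
    exact sub_eq_zero.1 ((mul_eq_zero.1 h4).resolve_right hi0)
  obtain ⟨r, hr⟩ := exists_e hc1
  have hfi : ∀ i, f i = f 0 * e (r * h * i) := by
    intro i
    have h3 := hind ((h * i).val) 0
    rw [ZMod.natCast_zmod_val, zero_add] at h3
    have h4 : h * i * h⁻¹ = i := by
      field_simp
    rw [h4] at h3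
    rw [h3, hr, ← e_natCast_mul, ZMod.natCast_zmod_val, mul_comm]
    congr 2; ring
  refine ⟨s, r * h, f 0, ?_, fun i j => ?_⟩
  · intro h3
    apply hi0
    rw [hfi, h3, zero_mul]
  · split_ifs with hij
    · rw [hij, ← hf, hfi]
    · by_contra hne
      exact hij (hsupp i j hne)

/-- a fiducial with a diagonal Clifford symmetry gives one with a dilation symmetry -/
theorem mono_fid {ψ : ZMod p → ℂ} (hψ : Fid ψ) {V : Matrix (ZMod p) (ZMod p) ℂ} (hU : IsUnit V)
    {h : ZMod p} (hh : h ≠ 0) (hh1 : h ≠ 1) (hA : Act V !![h⁻¹, 0; 0, h]) {l : ℂ}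
    (hl : V *ᵥ ψ = l • ψ) : ∃ (ψ' : ZMod p → ℂ) (l' : ℂ), Fid ψ' ∧
      ∀ j, ψ' (h * j) = l' * ψ' j := by
  obtain ⟨s, r, f0, hf0, hV⟩ := mono hU hh hA
  have h1 : ∀ i, f0 * e (r * i) * ψ (h * i + s) = l * ψ i := by
    intro i
    have h2 := congrFun hl i
    rw [Matrix.mulVec, dotProduct, Finset.sum_eq_single (h * i + s)] at h2
    · rw [hV, if_pos rfl, Pi.smul_apply, smul_eq_mul] at h2
      exact h2
    · intro j _ hj
      rw [hV, if_neg hj, zero_mul]
    · intro h; exact absurd (Finset.mem_univ _) h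
  have hne : 1 - h ≠ 0 := sub_ne_zero.2 (Ne.symm hh1)
  obtain ⟨n, hn⟩ : ∃ n, n = s / (1 - h) := ⟨_, rfl⟩
  obtain ⟨β, hβ⟩ : ∃ β, β = -r / (1 - h) := ⟨_, rfl⟩
  have hn' : h * n + s = n := by
    rw [hn]; field_simp; ring
  have hβ' : β * h - r = β := by
    rw [hβ]; field_simp; ring
  refine ⟨fun j => e (β * j) * ψ (j + n), l / f0 * e (-(r * n)), fid_disp hψ β n, fun j => ?_⟩
  have h2 := h1 (j + n)
  have h3 : h * (j + n) + s = h * j + n := by linear_combination hn'
  rw [h3] at h2
  have h4 : e (β * (h * j)) = e (β * j) * e (-(r * n)) * e (r * (j + n)) := by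
    rw [← e_add, ← e_add]; congr 1
    linear_combination j * hβ'
  have h5 : e (r * (j + n)) * ψ (h * j + n) = l / f0 * ψ (j + n) := by
    rw [div_mul_eq_mul_div, eq_div_iff hf0]
    linear_combination h2
  simp only
  rw [h4]
  linear_combination (e (β * j) * e (-(r * n))) * h5

end Run7.h53.QR
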