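import Mathlib
import Pool.Agent.Run7.h53.QR.Mono
import Pool.Agent.Run7.h53.QR.Eigen

set_option autoImplicit false

/-! # Clifford symmetries of order `(p - 1) / 2` -/

namespace Run7.h53.QR

open Finset Complex Matrix Pool.Agent.R503.SIC
open scoped ComplexConjugate

variable {p : ℕ} [hp : Fact p.Prime]

/-- the property that `Q` follows from a fiducial with a Clifford symmetry acting by `F` -/
def Good (p : ℕ) [Fact p.Prime] (Q : Prop) (F : Matrix (Fin 2) (Fin 2) (ZMod p)) : Prop :=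
  ∀ (ψ : ZMod p → ℂ) (V : Matrix (ZMod p) (ZMod p) ℂ) (l : ℂ), Fid ψ → IsUnit V → Act V F →
    V *ᵥ ψ = l • ψ → Q

theorem good_chg (C : Chg p) {Q : Prop} {F : Matrix (Fin 2) (Fin 2) (ZMod p)}
    (h : Good p Q (C.g * F * C.g')) : Good p Q F := by
  intro ψ V l hψ hU hA hl
  obtain ⟨h1, h2, h3, h4⟩ := transfer C hψ hU hA hl
  exact h _ _ l h1 h2 h3 h4

theorem pow_eigen {ψ : ZMod p → ℂ} {h : ZMod p} {l : ℂ} (hl : ∀ j, ψ (h * j) = l * ψ j) (n : ℕ) :
    ∀ j, ψ (h ^ n * j) = l ^ n * ψ j := by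
  induction n with
  | zero => intro j; simp
  | succ n ih =>
    intro j
    rw [pow_succ, mul_assoc, ih, hl, pow_succ]; ring

/-- the diagonal case -/
theorem good_diag (h5 : 5 ≤ p) {m : ℕ} (hm : p = 2 * m + 1) {h : ZMod p} (hh : h ≠ 0)
    (hord : orderOf h = m) : Good p (p = 7 ∨ p = 19) !![h⁻¹, 0; 0, h] := by
  intro ψ V l hψ hU hA hl
  have hh1 : h ≠ 1 := by
    rintro rfl
    rw [orderOf_one] at hord
    omega
  obtain ⟨ψ', l', hψ', hl'⟩ := mono_fid hψ hU hh hh1 hA hl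
  refine (eigen_dims h5 hψ' fun t ht hts => ?_).2
  -- squares are powers of `h`
  have htm : t ^ m = 1 := by
    obtain ⟨u, rfl⟩ := hts
    have hu : u ≠ 0 := by
      rintro rfl; exact ht (by ring)
    have h1 : (u * u) ^ m = u ^ (p - 1) := by
      rw [← pow_two, ← pow_mul]; congr 1; omega
    rw [h1, ZMod.pow_card_sub_one_eq_one hu]
  have hprim : IsPrimitiveRoot h m := by
    rw [← hord]; exact IsPrimitiveRoot.orderOf h
  have : NeZero m := ⟨by omega⟩
  obtain ⟨i, _, hi⟩ := hprim.eq_pow_of_pow_eq_one htm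
  exact ⟨l' ^ i, fun j => by rw [← hi]; exact pow_eigen hl' i j⟩

theorem diag_pow (a b : ZMod p) (n : ℕ) :
    (!![a, 0; 0, b] : Matrix (Fin 2) (Fin 2) (ZMod p)) ^ n = !![a ^ n, 0; 0, b ^ n] := by
  induction n with
  | zero =>
    ext i j
    fin_cases i <;> fin_cases j <;> simp
  | succ n ih =>
    rw [pow_succ, ih]
    ext i j
    fin_cases i <;> fin_cases j <;> simp [Matrix.mul_apply, Fin.sum_univ_two, pow_succ]

theorem low_pow (c : ZMod p) (n : ℕ) :
    (!![1, 0; c, 1] : Matrix (Fin 2) (Fin 2) (ZMod p)) ^ n = !![1, 0; n * c, 1] := by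
  induction n with
  | zero =>
    ext i j
    fin_cases i <;> fin_cases j <;> simp
  | succ n ih =>
    rw [pow_succ, ih]
    ext i j
    fin_cases i <;> fin_cases j <;> simp [Matrix.mul_apply, Fin.sum_univ_two]
    ring

theorem chg_pow (C : Chg p) (F : Matrix (Fin 2) (Fin 2) (ZMod p)) (n : ℕ) :
    (C.g * F * C.g') ^ n = C.g * F ^ n * C.g' := by
  have h3' : C.g' * C.g = 1 := mul_eq_one_comm.1 C.h3
  induction n with
  | zero => rw [pow_zero, pow_zero, mul_one, C.h3]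
  | succ n ih =>
    rw [pow_succ, ih, pow_succ]
    have : C.g * F ^ n * C.g' * (C.g * F * C.g') = C.g * F ^ n * (C.g' * C.g) * F * C.g' := by
      simp only [mul_assoc]
    rw [this, h3', mul_one]
    simp only [mul_assoc]

theorem chg_pow_one (C : Chg p) {F : Matrix (Fin 2) (Fin 2) (ZMod p)} {n : ℕ}
    (h : (C.g * F * C.g') ^ n = 1) : F ^ n = 1 := by
  have h3' : C.g' * C.g = 1 := mul_eq_one_comm.1 C.h3
  rw [chg_pow] at h
  have h1 : C.g' * (C.g * F ^ n * C.g') * C.g = C.g' * 1 * C.g := by rw [h]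
  rw [mul_one, h3'] at h1
  have h2 : C.g' * (C.g * F ^ n * C.g') * C.g = (C.g' * C.g) * F ^ n * (C.g' * C.g) := by
    simp only [mul_assoc]
  rw [h2, h3', one_mul, mul_one] at h1
  exact h1

/-- the hypothesis on the symplectic matrix -/
def Tor (m : ℕ) (F : Matrix (Fin 2) (Fin 2) (ZMod p)) : Prop :=
  F.det = 1 ∧ F ^ m = 1 ∧ ∀ n : ℕ, F ^ n = 1 → m ∣ n

theorem tor_chg (C : Chg p) {m : ℕ} {F : Matrix (Fin 2) (Fin 2) (ZMod p)} (h : Tor m F) :
    Tor m (C.g * F * C.g') := by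
  refine ⟨?_, ?_, fun n hn => h.2.2 n (chg_pow_one C hn)⟩
  · rw [det_mul, det_mul, h.1, mul_one, ← det_mul, C.h3, det_one]
  · rw [chg_pow, h.2.1, mul_one, C.h3]

/-- lower triangular case -/
theorem good_low (h5 : 5 ≤ p) {m : ℕ} (hm : p = 2 * m + 1) (hodd : Odd m)
    {F : Matrix (Fin 2) (Fin 2) (ZMod p)} (hF : Tor m F) (h01 : F 0 1 = 0) :
    Good p (p = 7 ∨ p = 19) F := by
  have h2 : (2 : ZMod p) ≠ 0 := by
    intro h
    have h1 : ((2 : ℕ) : ZMod p) = 0 := by exact_mod_cast h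
    rw [ZMod.natCast_eq_zero_iff] at h1
    have := Nat.le_of_dvd (by norm_num) h1
    omega
  obtain ⟨h, hh⟩ : ∃ h, h = F 1 1 := ⟨_, rfl⟩
  have hdet := hF.1
  rw [det_fin_two, h01, zero_mul, sub_zero, ← hh] at hdet
  have hh0 : h ≠ 0 := by
    rintro rfl
    rw [mul_zero] at hdet
    exact zero_ne_one hdet
  have h00 : F 0 0 = h⁻¹ := eq_inv_of_mul_eq_one_left hdet
  obtain ⟨c, hc⟩ : ∃ c, c = F 1 0 := ⟨_, rfl⟩
  have hFm : F = !![h⁻¹, 0; c, h] := by
    ext i j
    fin_cases i <;> fin_cases j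
    · exact h00
    · exact h01
    · exact hc.symm
    · exact hh.symm
  by_cases hhh : h = h⁻¹
  · -- unipotent: contradiction
    exfalso
    have h11 : h ^ 2 = 1 := by
      rw [pow_two]; nth_rewrite 2 [hhh]; exact mul_inv_cancel₀ hh0
    -- `h ^ m = 1`
    have hpow : ∀ n : ℕ, (F ^ n) 0 1 = 0 ∧ (F ^ n) 1 1 = h ^ n := by
      intro n
      induction n with
      | zero => simp
      | succ n ih =>
        rw [pow_succ, Matrix.mul_apply, Matrix.mul_apply, Fin.sum_univ_two, Fin.sum_univ_two,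
          h01, ← hh, ih.1, ih.2]
        constructor
        · ring
        · rw [pow_succ]; ring
    have hhm : h ^ m = 1 := by
      rw [← (hpow m).2, hF.2.1]; simp
    have h1 : h = 1 := by
      obtain ⟨k, hk⟩ := hodd
      rw [hk, pow_succ, pow_mul, h11, one_pow, one_mul] at hhm
      exact hhm
    rw [h1, inv_one] at hFm
    have h3 := hF.2.1
    rw [hFm, low_pow] at h3
    have h4 := congrFun (congrFun h3 1) 0
    simp at h4
    have hm0 : ((m : ℕ) : ZMod p) ≠ 0 := by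
      rw [Ne, ZMod.natCast_eq_zero_iff]
      intro h5'
      have := Nat.le_of_dvd (by omega) h5'
      omega
    have hc0 : c = 0 := h4.resolve_left hm0
    have h5' : F ^ 1 = 1 := by
      rw [pow_one, hFm, hc0]
      ext i j
      fin_cases i <;> fin_cases j <;> simp
    have := Nat.le_of_dvd (by norm_num) (hF.2.2 1 h5')
    omega
  · have hne : h - h⁻¹ ≠ 0 := sub_ne_zero.2 hhh
    obtain ⟨t, ht⟩ : ∃ t : ZMod p, 2 * t = c / (h - h⁻¹) := by
      refine ⟨c / (h - h⁻¹) / 2, ?_⟩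
      rw [mul_div_cancel₀ _ h2]
    have hu : (2 * t) * (h - h⁻¹) = c := by
      rw [ht, div_mul_cancel₀ _ hne]
    have hconj : (chirp t).g * F * (chirp t).g' = !![h⁻¹, 0; 0, h] := by
      rw [hFm]
      show !![1, 0; 2 * t, 1] * !![h⁻¹, 0; c, h] * !![1, 0; -(2 * t), 1] = !![h⁻¹, 0; 0, h]
      ext i j
      fin_cases i <;> fin_cases j <;> simp [Matrix.mul_apply, Fin.sum_univ_two]
      linear_combination -hu
    refine good_chg (Q := p = 7 ∨ p = 19) (chirp t) ?_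
    have hT := tor_chg (chirp t) hF
    rw [hconj] at hT ⊢
    refine good_diag h5 hm hh0 ?_
    have hhm : h ^ m = 1 := by
      have h3 := hT.2.1
      rw [diag_pow] at h3
      simpa using congrFun (congrFun h3 1) 1
    apply Nat.dvd_antisymm (orderOf_dvd_of_pow_eq_one hhm)
    apply hT.2.2
    rw [diag_pow, inv_pow, pow_orderOf_eq_one, inv_one]
    ext i j
    fin_cases i <;> fin_cases j <;> simp

theorem det_prod (F : Matrix (Fin 2) (Fin 2) (ZMod p)) (T : Finset (ZMod p))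
    (h : (Polynomial.aeval F (∏ ζ ∈ T, (Polynomial.X - Polynomial.C ζ))).det = 0) :
    ∃ ζ ∈ T, (F - ζ • (1 : Matrix (Fin 2) (Fin 2) (ZMod p))).det = 0 := by
  classical
  induction T using Finset.induction_on with
  | empty =>
    rw [Finset.prod_empty, map_one, det_one] at h
    exact absurd h one_ne_zero
  | insert a T ha ih =>
    rw [Finset.prod_insert ha, map_mul, det_mul] at h
    rcases mul_eq_zero.1 h with h1 | h1
    · refine ⟨a, Finset.mem_insert_self _ _, ?_⟩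
      rw [map_sub, Polynomial.aeval_X, Polynomial.aeval_C, Algebra.algebraMap_eq_smul_one] at h1
      exact h1
    · obtain ⟨ζ, hζ, h2⟩ := ih h1
      exact ⟨ζ, Finset.mem_insert_of_mem hζ, h2⟩

theorem exists_eigen {m : ℕ} (hm : p = 2 * m + 1) (hm0 : 0 < m)
    {F : Matrix (Fin 2) (Fin 2) (ZMod p)} (hF : F ^ m = 1) :
    ∃ (h : ZMod p) (v : Fin 2 → ZMod p), v ≠ 0 ∧ F *ᵥ v = h • v := by
  obtain ⟨g, hg⟩ := IsCyclic.exists_generator (α := (ZMod p)ˣ)
  have hord : orderOf g = p - 1 := by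
    rw [orderOf_eq_card_of_forall_mem_zpowers hg, Nat.card_eq_fintype_card, ZMod.card_units]
  have hprim : IsPrimitiveRoot (g : ZMod p) (p - 1) := by
    rw [← hord, IsPrimitiveRoot.coe_units_iff]
    exact IsPrimitiveRoot.orderOf g
  have hprim2 : IsPrimitiveRoot ((g : ZMod p) ^ 2) m := hprim.pow (by omega) (by omega)
  have hpoly := Polynomial.X_pow_sub_one_eq_prod hm0 hprim2
  have h1 : Polynomial.aeval F ((Polynomial.X : Polynomial (ZMod p)) ^ m - 1) = 0 := by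
    rw [map_sub, map_pow, Polynomial.aeval_X, map_one, hF, sub_self]
  rw [hpoly] at h1
  obtain ⟨ζ, _, hζ⟩ := det_prod F _ (by rw [h1, det_zero])
  obtain ⟨v, hv0, hv⟩ := Matrix.exists_mulVec_eq_zero_iff.2 hζ
  refine ⟨ζ, v, hv0, ?_⟩
  rw [sub_mulVec, smul_mulVec, one_mulVec, sub_eq_zero] at hv
  exact hv

/-- the general case -/
theorem good_tor (h5 : 5 ≤ p) {m : ℕ} (hm : p = 2 * m + 1) (hodd : Odd m)
    {F : Matrix (Fin 2) (Fin 2) (ZMod p)} (hF : Tor m F) : Good p (p = 7 ∨ p = 19) F := by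
  have h2 : (2 : ZMod p) ≠ 0 := by
    intro h
    have h1 : ((2 : ℕ) : ZMod p) = 0 := by exact_mod_cast h
    rw [ZMod.natCast_eq_zero_iff] at h1
    have := Nat.le_of_dvd (by norm_num) h1
    omega
  -- an eigenvector
  obtain ⟨h, v, hv0, hv⟩ := exists_eigen hm (by omega) hF.2.1
  by_cases hv1 : v 0 = 0
  · apply good_low h5 hm hodd hF
    have hv2 : v 1 ≠ 0 := by
      intro h3
      apply hv0
      ext i
      fin_cases i
      · exact hv1
      · exact h3
    have h3 := congrFun hv 0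
    rw [Matrix.mulVec, dotProduct, Fin.sum_univ_two, hv1, mul_zero, zero_add, Pi.smul_apply,
      smul_eq_mul, hv1, mul_zero] at h3
    exact (mul_eq_zero.1 h3).resolve_right hv2
  · -- move the eigenvector to the second basis vector
    obtain ⟨t, ht⟩ : ∃ t : ZMod p, 2 * t = -(v 1) / v 0 := by
      refine ⟨-(v 1) / v 0 / 2, ?_⟩
      rw [mul_div_cancel₀ _ h2]
    have hu : (2 * t) * v 0 = -(v 1) := by
      rw [ht, div_mul_cancel₀ _ hv1]
    refine good_chg (Q := p = 7 ∨ p = 19) (chirp t) ?_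
    have hT := tor_chg (chirp t) hF
    refine good_chg (Q := p = 7 ∨ p = 19) (fourier (p := p)) ?_
    have hT' := tor_chg (fourier (p := p)) hT
    apply good_low h5 hm hodd hT'
    obtain ⟨a, ha⟩ : ∃ a, a = F 0 0 := ⟨_, rfl⟩
    obtain ⟨b, hb⟩ : ∃ b, b = F 0 1 := ⟨_, rfl⟩
    obtain ⟨c, hc⟩ : ∃ c, c = F 1 0 := ⟨_, rfl⟩
    obtain ⟨d, hd⟩ : ∃ d, d = F 1 1 := ⟨_, rfl⟩
    have hFm : F = !![a, b; c, d] := by
      ext i j
      fin_cases i <;> fin_cases j
      · exact ha.symm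
      · exact hb.symm
      · exact hc.symm
      · exact hd.symm
    have e0 := congrFun hv 0
    have e1 := congrFun hv 1
    rw [Matrix.mulVec, dotProduct, Fin.sum_univ_two, Pi.smul_apply, smul_eq_mul, ← ha, ← hb] at e0
    rw [Matrix.mulVec, dotProduct, Fin.sum_univ_two, Pi.smul_apply, smul_eq_mul, ← hc, ← hd] at e1
    rw [hFm]
    show (!![0, -1; 1, 0] * (!![1, 0; 2 * t, 1] * !![a, b; c, d] * !![1, 0; -(2 * t), 1]) *
      !![0, 1; -1, 0] : Matrix (Fin 2) (Fin 2) (ZMod p)) 0 1 = 0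
    have hkey : (2 * t) * a + c - (2 * t) * ((2 * t) * b + d) = 0 := by
      have h3 : (v 0) ^ 2 * ((2 * t) * a + c - (2 * t) * ((2 * t) * b + d)) = 0 := by
        linear_combination v 0 * e1 - v 1 * e0 +
          (a * v 0 - b * (v 0 * (2 * t) - v 1) - d * v 0) * hu
      exact (mul_eq_zero.1 h3).resolve_left (pow_ne_zero 2 hv1)
    simp [Matrix.mul_apply, Fin.sum_univ_two]
    linear_combination -hkey

theorem Dm_pow (a b : ZMod p) (n : ℕ) :
    ∃ c : ℂ, Dm a b ^ n = c • Dm ((n : ZMod p) * a) ((n : ZMod p) * b) := by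
  induction n with
  | zero => exact ⟨1, by rw [pow_zero, Nat.cast_zero, zero_mul, zero_mul, Dm_zero, one_smul]⟩
  | succ n ih =>
    obtain ⟨c, hc⟩ := ih
    refine ⟨c * e ((n : ZMod p) * b * a), ?_⟩
    rw [pow_succ, hc, Matrix.smul_mul, Dm_mul, smul_smul]
    congr 2 <;> (push_cast; ring)

theorem act_one {V : Matrix (ZMod p) (ZMod p) ℂ} (hU : IsUnit V) (hA : Act V 1) :
    ∃ (c : ℂ) (a b : ZMod p), V = c • Dm a b := by
  have hA' : Act V !![(1 : ZMod p)⁻¹, 0; 0, 1] := by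
    have : (!![(1 : ZMod p)⁻¹, 0; 0, 1] : Matrix (Fin 2) (Fin 2) (ZMod p)) = 1 := by
      ext i j
      fin_cases i <;> fin_cases j <;> simp
    rw [this]; exact hA
  obtain ⟨s, r, f0, _, hV⟩ := mono hU one_ne_zero hA'
  refine ⟨f0 * e (-(r * s)), -s, r, ?_⟩
  ext i j
  rw [hV, Matrix.smul_apply, smul_eq_mul]
  simp only [Dm, Matrix.of_apply]
  by_cases hij : j = 1 * i + s
  · rw [if_pos hij, if_pos (by rw [hij]; ring), mul_assoc, ← e_add]
    congr 2
    rw [hij]; ring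
  · rw [if_neg hij, if_neg (fun h => hij (by rw [h]; ring)), mul_zero]

theorem act_one_pow {V : Matrix (ZMod p) (ZMod p) ℂ} (hU : IsUnit V) (hA : Act V 1) :
    ∃ s : ℂ, V ^ p = s • (1 : Matrix (ZMod p) (ZMod p) ℂ) := by
  obtain ⟨c, a, b, hV⟩ := act_one hU hA
  obtain ⟨c', hc'⟩ := Dm_pow a b p
  refine ⟨c ^ p * c', ?_⟩
  rw [hV, smul_pow, hc', ZMod.natCast_self, zero_mul, zero_mul, Dm_zero, smul_smul]

/-- a Clifford unitary has finite order modulo scalars -/
theorem fin_ord {V : Matrix (ZMod p) (ZMod p) ℂ} (hU : IsUnit V) (hn : Nrm V) :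
    ∃ n : ℕ, 0 < n ∧ ∃ s : ℂ, V ^ n = s • (1 : Matrix (ZMod p) (ZMod p) ℂ) := by
  obtain ⟨F, hF, hdet⟩ := exists_act hU hn
  have hFu : IsUnit F := (Matrix.isUnit_iff_isUnit_det F).2 (by rw [hdet]; exact isUnit_one)
  obtain ⟨u, hu⟩ := hFu
  have h1 : F ^ Fintype.card (Matrix (Fin 2) (Fin 2) (ZMod p))ˣ = 1 := by
    rw [← hu, ← Units.val_pow_eq_pow_val, pow_card_eq_one, Units.val_one]
  have h2 := hF.pow (Fintype.card (Matrix (Fin 2) (Fin 2) (ZMod p))ˣ)
  rw [h1] at h2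
  obtain ⟨s, hs⟩ := act_one_pow (hU.pow _) h2
  rw [← pow_mul] at hs
  exact ⟨_, Nat.mul_pos Fintype.card_pos hp.out.pos, s, hs⟩

/-- **Main theorem on Clifford symmetries.** -/
theorem clifford_main (h5 : 5 ≤ p) {ψ : ZMod p → ℂ} (hψ : Fid ψ)
    {U : Matrix (ZMod p) (ZMod p) ℂ} (hU : IsUnit U) (hn : Nrm U) {l : ℂ}
    (hl : U *ᵥ ψ = l • ψ)
    (hord : ∀ n : ℕ, 0 < n → (∃ s : ℂ, U ^ n = s • (1 : Matrix (ZMod p) (ZMod p) ℂ)) →
      (p - 1) / 2 ∣ n) : p = 7 ∨ p = 19 := by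
  classical
  obtain ⟨m, hm⟩ : ∃ m, p = 2 * m + 1 := by
    rcases hp.out.eq_two_or_odd' with h1 | h1
    · omega
    · exact h1
  have hm' : (p - 1) / 2 = m := by omega
  rw [hm'] at hord
  have hex := fin_ord hU hn
  obtain ⟨hN0, s, hs⟩ := Nat.find_spec hex
  have hmin := fun k hk => Nat.find_min hex (m := k) hk
  obtain ⟨N, hN⟩ : ∃ N, N = Nat.find hex := ⟨_, rfl⟩
  rw [← hN] at hN0 hs hmin
  obtain ⟨r, hr⟩ := hord N hN0 ⟨s, hs⟩
  have hr0 : 0 < r := by
    rcases Nat.eq_zero_or_pos r with h | h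
    · rw [h, mul_zero] at hr; omega
    · exact h
  have hs0 : s ≠ 0 := by
    rintro rfl
    rw [zero_smul] at hs
    have h1 := hU.pow N
    rw [hs] at h1
    exact not_isUnit_zero h1
  -- exponents with scalar powers are multiples of `N`
  have hdvd : ∀ n : ℕ, (∃ t : ℂ, U ^ n = t • (1 : Matrix (ZMod p) (ZMod p) ℂ)) → N ∣ n := by
    intro n ⟨t, ht⟩
    by_contra hnd
    have h1 : 0 < n % N := Nat.pos_of_ne_zero fun h => hnd (Nat.dvd_of_mod_eq_zero h)
    apply hmin (n % N) (Nat.mod_lt _ hN0)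
    refine ⟨h1, (s ^ (n / N))⁻¹ * t, ?_⟩
    have h2 : U ^ n = U ^ (n % N) * (U ^ N) ^ (n / N) := by
      rw [← pow_mul, ← pow_add]; congr 1
      exact (Nat.mod_add_div n N).symm
    rw [ht, hs, smul_pow, one_pow, Matrix.mul_smul, mul_one] at h2
    rw [mul_smul, h2, smul_smul, inv_mul_cancel₀ (pow_ne_zero _ hs0), one_smul]
  obtain ⟨V, hV⟩ : ∃ V, V = U ^ r := ⟨_, rfl⟩
  have hVU : IsUnit V := by rw [hV]; exact hU.pow r
  have hVn : Nrm V := by rw [hV]; exact hn.pow r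
  have hVl : V *ᵥ ψ = (l ^ r) • ψ := by rw [hV]; exact mulVec_pow hl r
  have hVm : V ^ m = s • (1 : Matrix (ZMod p) (ZMod p) ℂ) := by
    rw [hV, ← pow_mul, mul_comm, ← hr, hs]
  have hVd : ∀ n : ℕ, (∃ t : ℂ, V ^ n = t • (1 : Matrix (ZMod p) (ZMod p) ℂ)) → m ∣ n := by
    intro n ⟨t, ht⟩
    rw [hV, ← pow_mul] at ht
    have h1 := hdvd (r * n) ⟨t, ht⟩
    rw [hr, mul_comm m r] at h1
    exact Nat.dvd_of_mul_dvd_mul_left hr0 h1
  rcases Nat.even_or_odd m with hev | hodd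
  · -- an involution
    exfalso
    obtain ⟨k, hk⟩ := hev
    have h1 : V ^ k * V ^ k = s • (1 : Matrix (ZMod p) (ZMod p) ℂ) := by
      rw [← pow_add, ← hk, hVm]
    have hpodd : Odd p := ⟨m, hm⟩
    have h2 : ∀ t : ℂ, V ^ k ≠ t • (1 : Matrix (ZMod p) (ZMod p) ℂ) := by
      intro t ht
      have h3 := Nat.le_of_dvd (by omega) (hVd k ⟨t, ht⟩)
      omega
    obtain ⟨k', a, b, c, hk', hsym⟩ := clifford hpodd hψ (hVU.pow k) (hVn.pow k) h1
      (mulVec_pow hVl k) h2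
    obtain ⟨t, ht, _⟩ := dilation hψ hsym hk'
    rcases primePow ht hp.out.isPrimePow with h3 | h3 <;> omega
  · obtain ⟨F, hF, hdet⟩ := exists_act hVU hVn
    have hTor : Tor m F := by
      refine ⟨hdet, ?_, fun n hn' => ?_⟩
      · have h1 := hF.pow m
        have h2 : Act (V ^ m) 1 := by rw [hVm]; exact Act.smul_one
        exact Act.unique (hVU.pow m) h1 h2
      · have h1 := hF.pow n
        rw [hn'] at h1
        obtain ⟨t, ht⟩ := act_one_pow (hVU.pow n) h1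
        rw [← pow_mul] at ht
        have h2 := hVd (n * p) ⟨t, ht⟩
        have h3 : Nat.Coprime m p := by
          rw [Nat.coprime_comm, hp.out.coprime_iff_not_dvd]
          intro h4
          have := Nat.le_of_dvd (by omega) h4
          omega
        exact h3.dvd_of_dvd_mul_right h2
    exact good_tor h5 hm hodd hTor ψ V (l ^ r) hψ hVU hF hVl

end Run7.h53.QR
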