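import Mathlib
import Pool.Agent.N392.Leg.Main
import Pool.Agent.Run7.h53.QR.Clifford

set_option autoImplicit false

/-! # Clifford symmetries of order `(p - 1) / 2`: order modulo scalars and the converse -/

namespace Run7.h53.QR

open Finset Complex Matrix Pool.Agent.R503.SIC
open scoped ComplexConjugate

variable {p : ℕ} [hp : Fact p.Prime]

/-- the least positive `k` such that `U ^ k` is a scalar -/
noncomputable def projOrder (U : Matrix (ZMod p) (ZMod p) ℂ) : ℕ :=
  sInf {k : ℕ | 0 < k ∧ ∃ s : ℂ, U ^ k = s • (1 : Matrix (ZMod p) (ZMod p) ℂ)}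

theorem projOrder_spec {U : Matrix (ZMod p) (ZMod p) ℂ} (hU : IsUnit U) (hn : Nrm U) :
    0 < projOrder U ∧ (∃ s : ℂ, U ^ projOrder U = s • (1 : Matrix (ZMod p) (ZMod p) ℂ)) ∧
    ∀ n : ℕ, (∃ t : ℂ, U ^ n = t • (1 : Matrix (ZMod p) (ZMod p) ℂ)) → projOrder U ∣ n := by
  obtain ⟨n0, hn0, hs0⟩ := fin_ord hU hn
  have hmem := Nat.sInf_mem (s := {k : ℕ | 0 < k ∧ ∃ s : ℂ, U ^ k =
    s • (1 : Matrix (ZMod p) (ZMod p) ℂ)}) ⟨n0, hn0, hs0⟩
  obtain ⟨hN0, s, hs⟩ := hmem
  refine ⟨hN0, ⟨s, hs⟩, ?_⟩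
  have hsne : s ≠ 0 := by
    rintro rfl
    rw [zero_smul] at hs
    have h1 := hU.pow (projOrder U)
    unfold projOrder at h1
    rw [hs] at h1
    exact not_isUnit_zero h1
  intro n ⟨t, ht⟩
  by_contra hnd
  have h1 : 0 < n % projOrder U := Nat.pos_of_ne_zero fun h => hnd (Nat.dvd_of_mod_eq_zero h)
  have h2 : U ^ n = U ^ (n % projOrder U) * (U ^ projOrder U) ^ (n / projOrder U) := by
    rw [← pow_mul, ← pow_add]; congr 1
    exact (Nat.mod_add_div n _).symm
  have hs' : U ^ projOrder U = s • (1 : Matrix (ZMod p) (ZMod p) ℂ) := hs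
  rw [ht, hs', smul_pow, one_pow, Matrix.mul_smul, mul_one] at h2
  have h3 : U ^ (n % projOrder U) = ((s ^ (n / projOrder U))⁻¹ * t) •
      (1 : Matrix (ZMod p) (ZMod p) ℂ) := by
    rw [mul_smul, h2, smul_smul, inv_mul_cancel₀ (pow_ne_zero _ hsne), one_smul]
  have h4 : projOrder U ≤ n % projOrder U := Nat.sInf_le ⟨h1, _, h3⟩
  exact absurd (Nat.mod_lt n hN0) (not_lt.2 h4)

theorem clifford_main' (h5 : 5 ≤ p) {ψ : ZMod p → ℂ} (hψ : Fid ψ)
    {U : Matrix (ZMod p) (ZMod p) ℂ} (hU : IsUnit U) (hn : Nrm U) {l : ℂ}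
    (hl : U *ᵥ ψ = l • ψ) (hord : (p - 1) / 2 ∣ projOrder U) : p = 7 ∨ p = 19 :=
  clifford_main h5 hψ hU hn hl fun n _ hs =>
    hord.trans ((projOrder_spec hU hn).2.2 n hs)

/-- the dilation by `h` -/
noncomputable def dil (h : ZMod p) : Matrix (ZMod p) (ZMod p) ℂ :=
  Matrix.of fun i j => if j = h * i then 1 else 0

theorem dil_mulVec (h : ZMod p) (ψ : ZMod p → ℂ) (i : ZMod p) : (dil h *ᵥ ψ) i = ψ (h * i) := by
  rw [Matrix.mulVec, dotProduct, Finset.sum_eq_single (h * i)]
  · simp only [dil, Matrix.of_apply, if_true, one_mul]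
  · intro j _ hj
    simp only [dil, Matrix.of_apply]
    rw [if_neg hj, zero_mul]
  · intro h; exact absurd (Finset.mem_univ _) h

theorem dil_mul (h k : ZMod p) : dil h * dil k = dil (h * k) := by
  ext i j
  rw [Matrix.mul_apply, Finset.sum_eq_single (h * i)]
  · simp only [dil, Matrix.of_apply, if_true, one_mul]
    congr 1
    rw [mul_comm h k, mul_assoc]
  · intro l _ hl
    simp only [dil, Matrix.of_apply]
    rw [if_neg hl, zero_mul]
  · intro h; exact absurd (Finset.mem_univ _) h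

theorem dil_one : dil (1 : ZMod p) = 1 := by
  ext i j
  simp only [dil, Matrix.of_apply, one_mul, Matrix.one_apply, eq_comm]

theorem dil_pow (h : ZMod p) (n : ℕ) : dil h ^ n = dil (h ^ n) := by
  induction n with
  | zero => rw [pow_zero, pow_zero, dil_one]
  | succ n ih => rw [pow_succ, ih, dil_mul, pow_succ]

theorem dil_star {h : ZMod p} (hh : h ≠ 0) : star (dil h) = dil h⁻¹ := by
  ext i j
  rw [Matrix.star_apply]
  simp only [dil, Matrix.of_apply]
  by_cases hij : i = h * j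
  · rw [if_pos hij, if_pos (by rw [hij, inv_mul_cancel_left₀ hh])]; simp
  · rw [if_neg hij, if_neg (fun h' => hij (by rw [h', mul_inv_cancel_left₀ hh]))]; simp

theorem dil_Dm {h : ZMod p} (hh : h ≠ 0) (a b : ZMod p) :
    dil h * Dm a b = Dm (h⁻¹ * a) (h * b) * dil h := by
  ext i j
  rw [Matrix.mul_apply, Matrix.mul_apply, Finset.sum_eq_single (h * i),
    Finset.sum_eq_single (i - h⁻¹ * a)]
  · simp only [dil, Dm, Matrix.of_apply, if_true, one_mul, sub_add_cancel]
    by_cases hij : h * i = j + a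
    · have hj : j = h * (i - h⁻¹ * a) := by
        rw [mul_sub, mul_inv_cancel_left₀ hh, hij]; ring
      rw [if_pos hij, if_pos hj, mul_one]
      congr 1
      rw [hj]; ring
    · have hj : ¬ j = h * (i - h⁻¹ * a) := by
        intro h'
        apply hij
        rw [h', mul_sub, mul_inv_cancel_left₀ hh]; ring
      rw [if_neg hij, if_neg hj, mul_zero]
  · intro l _ hl
    simp only [dil, Dm, Matrix.of_apply]
    rw [if_neg (fun h' => hl (by rw [h']; ring)), zero_mul]
  · intro h; exact absurd (Finset.mem_univ _) h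
  · intro l _ hl
    simp only [dil, Dm, Matrix.of_apply]
    rw [if_neg hl, zero_mul]
  · intro h; exact absurd (Finset.mem_univ _) h

theorem dil_scalar {h : ZMod p} {s : ℂ} (hs : dil h = s • (1 : Matrix (ZMod p) (ZMod p) ℂ)) :
    h = 1 := by
  have h1 := congrFun (congrFun hs 1) h
  simp only [dil, Matrix.of_apply, mul_one, if_true, Matrix.smul_apply, Matrix.one_apply,
    smul_eq_mul] at h1
  by_contra hne
  rw [if_neg (fun h' => hne h'.symm), mul_zero] at h1
  exact one_ne_zero h1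

theorem dil_order {h : ZMod p} {m : ℕ} (hm : 0 < m) (hord : orderOf h = m) :
    projOrder (dil h) = m := by
  apply le_antisymm
  · apply Nat.sInf_le
    refine ⟨hm, 1, ?_⟩
    rw [dil_pow, ← hord, pow_orderOf_eq_one, dil_one, one_smul]
  · have hmem := Nat.sInf_mem (s := {k : ℕ | 0 < k ∧ ∃ s : ℂ, dil h ^ k =
      s • (1 : Matrix (ZMod p) (ZMod p) ℂ)}) ⟨m, hm, 1, by
        rw [dil_pow, ← hord, pow_orderOf_eq_one, dil_one, one_smul]⟩
    obtain ⟨hN0, s, hs⟩ := hmem
    rw [dil_pow] at hs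
    have h1 := dil_scalar hs
    rw [← hord]
    exact Nat.le_of_dvd hN0 (orderOf_dvd_of_pow_eq_one h1)

/-- Legendre type fiducials in dimensions seven and nineteen -/
theorem conv_fid (h : p = 7 ∨ p = 19) :
    ∃ ψ : ZMod p → ℂ, Fid ψ ∧ ∀ s k : ZMod p, s ≠ 0 → ψ (s ^ 2 * k) = ψ k := by
  obtain ⟨x, hx, hf1, hf2⟩ := (Pool.Agent.N392.Leg.main p).2 (by tauto)
  refine ⟨x.ofLp, ⟨?_, fun a b hab => ?_⟩, hx⟩
  · have h1 := hf1 (0, 0)
    have h2 : Pool.Agent.N392.Leg.shift (0, 0) x = x := by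
      ext k
      simp [Pool.Agent.N392.Leg.shift]
    rw [h2, EuclideanSpace.norm_eq, Real.sqrt_eq_one] at h1
    exact h1
  · have h1 := hf2 (0, 0) (a, b) (fun h => hab h.symm)
    have h2 : inner ℂ (Pool.Agent.N392.Leg.shift (0, 0) x) (Pool.Agent.N392.Leg.shift (a, b) x) =
        e (a * b) * ov (x.ofLp) a b := by
      unfold ov
      rw [PiLp.inner_apply, Finset.mul_sum]
      refine Fintype.sum_equiv (Equiv.subRight a) _ _ fun k => ?_
      simp only [Equiv.subRight_apply, sub_add_cancel]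
      have e2 : e (a * b) * e (b * (k - a)) = e (b * k) := by
        rw [← e_add]; congr 1; ring
      have h3 : (Pool.Agent.N392.Leg.shift (0, 0) x) k = x k := by
        simp [Pool.Agent.N392.Leg.shift]
      have h4 : (Pool.Agent.N392.Leg.shift (a, b) x) k = e (b * k) * x (k - a) := by
        simp [Pool.Agent.N392.Leg.shift, e]
      rw [h3, h4, RCLike.inner_apply, ← e2]
      simp only [RCLike.star_def]
      ring
    rw [h2, norm_mul, norm_e, one_mul] at h1
    rw [h1, div_pow, one_pow, Real.sq_sqrt (by positivity)]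

end Run7.h53.QR
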